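import Mathlib
import Pool.Agent.Helper256.KM.Mertens

/-! The local factors. -/

set_option autoImplicit false

namespace Pool.Agent.H11P

open Finset

/-- the factor of a prime -/
noncomputable def fac (p : ℕ) : ℝ := 1 + 1 / ((p : ℝ) - 1)

theorem fac_ge (p : ℕ) (hp : p.Prime) : 1 ≤ fac p := by
  have : (2 : ℝ) ≤ p := by exact_mod_cast hp.two_le
  unfold fac
  have : 0 ≤ 1 / ((p : ℝ) - 1) := by
    apply div_nonneg zero_le_one; linarith
  linarith

theorem fac_le (p : ℕ) (hp : p.Prime) : fac p ≤ 1 + 2 / p := by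
  have h2 : (2 : ℝ) ≤ p := by exact_mod_cast hp.two_le
  unfold fac
  have : 1 / ((p : ℝ) - 1) ≤ 2 / p := by
    rw [div_le_div_iff₀ (by linarith) (by linarith)]
    linarith
  linarith

theorem fac_eq (p : ℕ) (hp : p.Prime) : fac p = (1 - (p : ℝ)⁻¹)⁻¹ := by
  have h2 : (2 : ℝ) ≤ p := by exact_mod_cast hp.two_le
  unfold fac
  have h1 : (p : ℝ) - 1 ≠ 0 := by linarith
  have h3 : (p : ℝ) ≠ 0 := by linarith
  have h4 : 1 - (p : ℝ)⁻¹ = (p - 1) / p := by field_simp
  rw [h4, inv_div]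
  field_simp
  ring

/-- the ratio `m / φ(m)` -/
noncomputable def kap (m : ℕ) : ℝ := (m : ℝ) / Nat.totient m

theorem kap_eq (m : ℕ) (hm : 1 ≤ m) : kap m = ∏ p ∈ m.primeFactors, fac p := by
  have h1 := Nat.totient_eq_mul_prod_factors m
  have h2 : (Nat.totient m : ℝ) = m * ∏ p ∈ m.primeFactors, (1 - (p : ℝ)⁻¹) := by
    have := congrArg (fun x : ℚ => (x : ℝ)) h1
    push_cast at this
    exact this
  have hm0 : (m : ℝ) ≠ 0 := by exact_mod_cast (by omega : m ≠ 0)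
  unfold kap
  rw [h2, prod_congr rfl (fun p hp => fac_eq p (Nat.prime_of_mem_primeFactors hp)), prod_inv_distrib]
  have h3 : ∏ p ∈ m.primeFactors, (1 - (p : ℝ)⁻¹) ≠ 0 := by
    apply prod_ne_zero_iff.2
    intro p hp
    have h4 : (2 : ℝ) ≤ p := by exact_mod_cast (Nat.prime_of_mem_primeFactors hp).two_le
    have h5 : (p : ℝ)⁻¹ ≤ 2⁻¹ := by
      apply inv_anti₀ (by norm_num) h4
    have : (2 : ℝ)⁻¹ < 1 := by norm_num
    linarith
  field_simp

theorem kap_ge (m : ℕ) (hm : 1 ≤ m) : 1 ≤ kap m := by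
  rw [kap_eq m hm]
  have : ∏ _p ∈ m.primeFactors, (1 : ℝ) ≤ ∏ p ∈ m.primeFactors, fac p :=
    prod_le_prod (fun _ _ => zero_le_one) (fun p hp => fac_ge p (Nat.prime_of_mem_primeFactors hp))
  simpa using this

theorem kap_mul_dvd (m n : ℕ) (hm : 1 ≤ m) (h : n ∣ m) : kap (m * n) = kap m := by
  have hn : 1 ≤ n := Nat.pos_of_dvd_of_pos h hm
  rw [kap_eq m hm, kap_eq (m * n) (Nat.mul_pos hm hn), Nat.primeFactors_mul (by omega) (by omega)]
  congr 1
  exact union_eq_left.2 (Nat.primeFactors_mono h (by omega))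

/-- the factors of the primes beyond `z` -/
noncomputable def hz (z q : ℕ) : ℝ := ∏ p ∈ q.primeFactors.filter (fun p => z < p), fac p

theorem hz_ge (z q : ℕ) : 1 ≤ hz z q := by
  unfold hz
  have : ∏ _p ∈ q.primeFactors.filter (fun p => z < p), (1 : ℝ) ≤ ∏ p ∈ q.primeFactors.filter (fun p => z < p), fac p :=
    prod_le_prod (fun _ _ => zero_le_one) (fun p hp => fac_ge p (Nat.prime_of_mem_primeFactors (mem_filter.1 hp).1))
  simpa using this

theorem kap_split (z q : ℕ) (hq : 1 ≤ q) : kap (primorial z * q) = kap (primorial z) * hz z q := by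
  rw [kap_eq _ (primorial_pos z), kap_eq _ (Nat.mul_pos (primorial_pos z) hq),
    Nat.primeFactors_mul (primorial_ne_zero z) (by omega)]
  unfold hz
  rw [← prod_union]
  · congr 1
    ext p
    rw [mem_union, mem_union, mem_filter]
    constructor
    · rintro (h | h)
      · exact Or.inl h
      · rcases le_or_gt p z with h1 | h1
        · left
          rw [Nat.mem_primeFactors]
          exact ⟨Nat.prime_of_mem_primeFactors h, (Nat.prime_of_mem_primeFactors h).dvd_primorial_iff.2 h1, primorial_ne_zero z⟩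
        · exact Or.inr ⟨h, h1⟩
    · rintro (h | h)
      · exact Or.inl h
      · exact Or.inr h.1
  · rw [Finset.disjoint_left]
    intro p h1 h2
    rw [mem_filter] at h2
    have := (Nat.prime_of_mem_primeFactors h1).dvd_primorial_iff.1 (Nat.dvd_of_mem_primeFactors h1)
    omega

theorem hz_prod_le {ι : Type*} (z : ℕ) (s : Finset ι) (q : ι → ℕ) (hq : ∀ i ∈ s, 1 ≤ q i) :
    hz z (∏ i ∈ s, q i) ≤ ∏ i ∈ s, hz z (q i) := by
  classical
  induction s using Finset.induction_on with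
  | empty => simp [hz]
  | insert i s hi ih =>
    rw [prod_insert hi, prod_insert hi]
    have h1 := ih (fun j hj => hq j (mem_insert_of_mem hj))
    have h2 : hz z (q i * ∏ j ∈ s, q j) ≤ hz z (q i) * hz z (∏ j ∈ s, q j) := by
      have a1 := hq i (mem_insert_self _ _)
      have a2 : 1 ≤ ∏ j ∈ s, q j := Nat.one_le_iff_ne_zero.2 (prod_ne_zero_iff.2 fun j hj => by
        have := hq j (mem_insert_of_mem hj); omega)
      unfold hz
      rw [Nat.primeFactors_mul (by omega) (by omega), filter_union, ← prod_union_inter]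
      have h3 : 1 ≤ ∏ p ∈ (q i).primeFactors.filter (fun p => z < p) ∩ (∏ j ∈ s, q j).primeFactors.filter (fun p => z < p), fac p := by
        have : ∏ _p ∈ (q i).primeFactors.filter (fun p => z < p) ∩ (∏ j ∈ s, q j).primeFactors.filter (fun p => z < p), (1 : ℝ) ≤ _ :=
          prod_le_prod (fun _ _ => zero_le_one) (fun p hp => fac_ge p (Nat.prime_of_mem_primeFactors (mem_filter.1 (mem_inter.1 hp).1).1))
        simpa using this
      have h4 : 0 ≤ ∏ p ∈ (q i).primeFactors.filter (fun p => z < p) ∪ (∏ j ∈ s, q j).primeFactors.filter (fun p => z < p), fac p := by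
        apply prod_nonneg
        intro p hp
        rw [mem_union, mem_filter, mem_filter] at hp
        have : p.Prime := by
          rcases hp with hp | hp
          · exact Nat.prime_of_mem_primeFactors hp.1
          · exact Nat.prime_of_mem_primeFactors hp.1
        exact zero_le_one.trans (fac_ge p this)
      exact le_mul_of_one_le_right h4 h3
    refine h2.trans ?_
    have := hz_ge z (q i)
    gcongr

/-- products of numbers at least one -/
theorem prod_pow_le {ι : Type*} (s : Finset ι) (x : ι → ℝ) (hx : ∀ i ∈ s, 1 ≤ x i) (N : ℕ) (hN : s.card ≤ N) :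
    ∏ i ∈ s, x i - 1 ≤ ∑ i ∈ s, (x i ^ N - 1) := by
  rcases s.eq_empty_or_nonempty with rfl | hs
  · simp
  obtain ⟨i0, hi0, hmax⟩ := exists_max_image s x hs
  have h1 : ∏ i ∈ s, x i ≤ x i0 ^ N := by
    calc ∏ i ∈ s, x i ≤ ∏ _i ∈ s, x i0 := prod_le_prod (fun i hi => zero_le_one.trans (hx i hi)) hmax
      _ = x i0 ^ s.card := by rw [prod_const]
      _ ≤ x i0 ^ N := pow_le_pow_right₀ (hx i0 hi0) hN
  have h2 : x i0 ^ N - 1 ≤ ∑ i ∈ s, (x i ^ N - 1) := by
    apply single_le_sum (f := fun i => x i ^ N - 1) _ hi0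
    intro i hi
    have := one_le_pow₀ (n := N) (hx i hi)
    simp only [sub_nonneg]
    exact this
  linarith

theorem pow_lin (x : ℝ) (hx : 0 ≤ x) (hx1 : x ≤ 1) (K : ℕ) : (1 + x) ^ K ≤ 1 + (2 ^ K - 1) * x := by
  induction K with
  | zero => simp
  | succ K ih =>
    have h1 : (1 : ℝ) ≤ 2 ^ K := one_le_pow₀ (by norm_num)
    calc (1 + x) ^ (K + 1) = (1 + x) ^ K * (1 + x) := by ring
      _ ≤ (1 + (2 ^ K - 1) * x) * (1 + x) := by gcongr
      _ = 1 + 2 ^ K * x + (2 ^ K - 1) * (x * x) := by ring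
      _ ≤ 1 + 2 ^ K * x + (2 ^ K - 1) * (x * 1) := by gcongr
      _ = 1 + (2 ^ (K + 1) - 1) * x := by ring

theorem eta_le (K p : ℕ) (hp : p.Prime) : fac p ^ K - 1 ≤ 2 ^ (K + 1) / p := by
  have h2 : (2 : ℝ) ≤ p := by exact_mod_cast hp.two_le
  have h0 := fac_ge p hp
  have h1 : fac p ^ K ≤ (1 + 2 / (p : ℝ)) ^ K := by
    have := fac_le p hp
    gcongr
  have h3 : (2 : ℝ) / p ≤ 1 := by rw [div_le_one (by linarith)]; exact h2
  have h4 := pow_lin (2 / (p : ℝ)) (by positivity) h3 K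
  have h5 : ((2 : ℝ) ^ K - 1) * (2 / p) ≤ 2 ^ K * (2 / p) := by
    have : (0 : ℝ) ≤ 2 / p := by positivity
    nlinarith
  have h6 : (2 : ℝ) ^ K * (2 / p) = 2 ^ (K + 1) / p := by ring
  linarith

theorem eta_nonneg (K p : ℕ) (hp : p.Prime) : 0 ≤ fac p ^ K - 1 := by
  have := one_le_pow₀ (n := K) (fac_ge p hp)
  linarith

/-- the mean of the powers of `hz` -/
theorem mean_hz (K : ℕ) : ∃ C : ℝ, 0 < C ∧ ∀ z L : ℕ, 1 ≤ z → ∑ u ∈ Icc 1 L, (hz z u ^ K - 1) ≤ C * L / z := by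
  classical
  refine ⟨2 ^ (K + 1) * Real.exp (2 ^ (K + 1)), by positivity, fun z L hz1 => ?_⟩
  have hz0 : (1 : ℝ) ≤ z := by exact_mod_cast hz1
  set PP := (Ioc z L).filter Nat.Prime with hPP
  have h1 : ∀ u ∈ Icc 1 L, hz z u ^ K = ∑ s ∈ PP.powerset, (if (∏ p ∈ s, p) ∣ u then ∏ p ∈ s, (fac p ^ K - 1) else 0) := by
    intro u hu
    rw [mem_Icc] at hu
    unfold hz
    rw [← prod_pow]
    have e1 : ∀ p ∈ u.primeFactors.filter (fun p => z < p), fac p ^ K = 1 + (fac p ^ K - 1) := fun p _ => by ring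
    rw [prod_congr rfl e1, prod_one_add, ← sum_filter]
    apply sum_congr _ (fun _ _ => rfl)
    ext s
    rw [mem_powerset, mem_filter, mem_powerset]
    constructor
    · intro hs
      refine ⟨fun p hp => ?_, ?_⟩
      · have h2 := mem_filter.1 (hs hp)
        rw [hPP, mem_filter, mem_Ioc]
        have h3 := Nat.le_of_dvd (by omega) (Nat.dvd_of_mem_primeFactors h2.1)
        exact ⟨⟨h2.2, by omega⟩, Nat.prime_of_mem_primeFactors h2.1⟩
      · apply Finset.prod_primes_dvd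
        · intro p hp
          exact (Nat.prime_of_mem_primeFactors (mem_filter.1 (hs hp)).1).prime
        · intro p hp
          exact Nat.dvd_of_mem_primeFactors (mem_filter.1 (hs hp)).1
    · rintro ⟨hs, hd⟩ p hp
      have h2 := hs hp
      rw [hPP, mem_filter, mem_Ioc] at h2
      rw [mem_filter, Nat.mem_primeFactors]
      exact ⟨⟨h2.2, (dvd_prod_of_mem _ hp).trans hd, by omega⟩, h2.1.1⟩
  have h2 : ∑ u ∈ Icc 1 L, hz z u ^ K ≤ L * ∏ p ∈ PP, (1 + (fac p ^ K - 1) / p) := by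
    rw [sum_congr rfl h1, sum_comm, prod_one_add, mul_sum]
    apply sum_le_sum
    intro s hs
    rw [mem_powerset] at hs
    have hsp : ∀ p ∈ s, p.Prime := fun p hp => (mem_filter.1 (hs hp)).2
    rw [← sum_filter, sum_const, nsmul_eq_mul]
    have e : (Icc 1 L).filter (fun u => (∏ p ∈ s, p) ∣ u) = (Ioc 0 L).filter (fun u => (∏ p ∈ s, p) ∣ u) := by
      ext u
      simp only [mem_filter, mem_Icc, mem_Ioc]
      omega
    rw [e, Nat.Ioc_filter_dvd_card_eq_div]
    have h3 : ((L / ∏ p ∈ s, p : ℕ) : ℝ) ≤ L / (∏ p ∈ s, (p : ℝ)) := by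
      have := Nat.cast_div_le (α := ℝ) (m := L) (n := ∏ p ∈ s, p)
      push_cast at this
      exact this
    have h4 : 0 ≤ ∏ p ∈ s, (fac p ^ K - 1) := prod_nonneg fun p hp => eta_nonneg K p (hsp p hp)
    calc ((L / ∏ p ∈ s, p : ℕ) : ℝ) * ∏ p ∈ s, (fac p ^ K - 1) ≤ L / (∏ p ∈ s, (p : ℝ)) * ∏ p ∈ s, (fac p ^ K - 1) := by gcongr
      _ = L * ∏ p ∈ s, ((fac p ^ K - 1) / p) := by rw [prod_div_distrib]; ring
  have h3 : ∏ p ∈ PP, (1 + (fac p ^ K - 1) / p) ≤ Real.exp (2 ^ (K + 1) / z) := by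
    have a1 : ∏ p ∈ PP, (1 + (fac p ^ K - 1) / p) ≤ ∏ p ∈ PP, (1 + 2 ^ (K + 1) * ((p : ℝ) ^ 2)⁻¹) := by
      apply prod_le_prod
      · intro p hp
        have := eta_nonneg K p (mem_filter.1 hp).2
        positivity
      · intro p hp
        have hp' := (mem_filter.1 hp).2
        have h2 : (2 : ℝ) ≤ p := by exact_mod_cast hp'.two_le
        have := eta_le K p hp'
        have h5 : (fac p ^ K - 1) / p ≤ (2 ^ (K + 1) / p) / p := by gcongr
        have h6 : ((2 : ℝ) ^ (K + 1) / p) / p = 2 ^ (K + 1) * ((p : ℝ) ^ 2)⁻¹ := by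
          field_simp
        linarith
    refine a1.trans ((Real.prod_one_add_le_exp_sum PP (fun p => by positivity)).trans ?_)
    apply Real.exp_le_exp.2
    rw [← mul_sum]
    have a2 : ∑ p ∈ PP, ((p : ℝ) ^ 2)⁻¹ ≤ (z : ℝ)⁻¹ := by
      rcases le_or_gt z L with hzL | hzL
      · calc ∑ p ∈ PP, ((p : ℝ) ^ 2)⁻¹ ≤ ∑ p ∈ Ioc z L, ((p : ℝ) ^ 2)⁻¹ := by
              apply sum_le_sum_of_subset_of_nonneg (filter_subset _ _)
              intro _ _ _
              positivity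
          _ ≤ (z : ℝ)⁻¹ - (L : ℝ)⁻¹ := sum_Ioc_inv_sq_le_sub (by omega) hzL
          _ ≤ (z : ℝ)⁻¹ := by
              have : (0 : ℝ) ≤ (L : ℝ)⁻¹ := by positivity
              linarith
      · rw [hPP, Ioc_eq_empty (by omega), filter_empty, sum_empty]
        positivity
    calc (2 : ℝ) ^ (K + 1) * ∑ p ∈ PP, ((p : ℝ) ^ 2)⁻¹ ≤ 2 ^ (K + 1) * (z : ℝ)⁻¹ := by gcongr
      _ = 2 ^ (K + 1) / z := by rw [div_eq_mul_inv]
  have h4 : Real.exp (2 ^ (K + 1) / (z : ℝ)) - 1 ≤ (2 ^ (K + 1) / z) * Real.exp (2 ^ (K + 1)) := by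
    have a1 := Real.add_one_le_exp (-((2 : ℝ) ^ (K + 1) / z))
    have a2 : Real.exp (-((2 : ℝ) ^ (K + 1) / z)) * Real.exp (2 ^ (K + 1) / (z : ℝ)) = 1 := by
      rw [← Real.exp_add]; simp
    have a3 : 0 < Real.exp (2 ^ (K + 1) / (z : ℝ)) := Real.exp_pos _
    have a4 : Real.exp (2 ^ (K + 1) / (z : ℝ)) ≤ Real.exp (2 ^ (K + 1)) := by
      apply Real.exp_le_exp.2
      exact div_le_self (by positivity) hz0
    have a5 : (-((2 : ℝ) ^ (K + 1) / z) + 1) * Real.exp (2 ^ (K + 1) / (z : ℝ)) ≤ 1 := by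
      calc (-((2 : ℝ) ^ (K + 1) / z) + 1) * Real.exp (2 ^ (K + 1) / (z : ℝ)) ≤
            Real.exp (-((2 : ℝ) ^ (K + 1) / z)) * Real.exp (2 ^ (K + 1) / (z : ℝ)) := mul_le_mul_of_nonneg_right a1 a3.le
        _ = 1 := a2
    have a6 : (2 : ℝ) ^ (K + 1) / z * Real.exp (2 ^ (K + 1) / (z : ℝ)) ≤ (2 ^ (K + 1) / z) * Real.exp (2 ^ (K + 1)) := by
      gcongr
    linarith
  rw [sum_sub_distrib, sum_const, Nat.card_Icc, nsmul_eq_mul, mul_one]
  have e : ((L + 1 - 1 : ℕ) : ℝ) = L := by simp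
  rw [e]
  have hL0 : (0 : ℝ) ≤ L := Nat.cast_nonneg _
  calc ∑ u ∈ Icc 1 L, hz z u ^ K - L ≤ L * ∏ p ∈ PP, (1 + (fac p ^ K - 1) / p) - L := by linarith
    _ ≤ L * Real.exp (2 ^ (K + 1) / z) - L := by gcongr
    _ = L * (Real.exp (2 ^ (K + 1) / z) - 1) := by ring
    _ ≤ L * ((2 ^ (K + 1) / z) * Real.exp (2 ^ (K + 1))) := by gcongr
    _ = 2 ^ (K + 1) * Real.exp (2 ^ (K + 1)) * L / z := by ring

/-- Mertens: the product over the primes up to `z` is of order `log z` -/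
theorem kap_mertens : ∃ C : ℝ, 0 < C ∧ ∀ z : ℕ, 3 ≤ z → kap (primorial z) ≤ C * Real.log z := by
  obtain ⟨C, hC⟩ := Pool.Agent.Helper256.KM.mertens_inv
  have hs : Summable (fun n : ℕ => 1 / (n : ℝ) ^ 2) := Real.summable_one_div_nat_pow.2 (by norm_num)
  obtain ⟨D, hD⟩ : ∃ D, D = ∑' n : ℕ, 1 / (n : ℝ) ^ 2 := ⟨_, rfl⟩
  refine ⟨Real.exp (C + 2 * D), Real.exp_pos _, fun N hN => ?_⟩
  have hlog : 0 < Real.log N := Real.log_pos (by exact_mod_cast (by omega : 1 < N))
  have h0 : kap (primorial N) = ∏ p ∈ (Icc 1 N).filter Nat.Prime, fac p := by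
    rw [kap_eq _ (primorial_pos N)]
    congr 1
    ext p
    rw [mem_filter, mem_Icc, Nat.mem_primeFactors]
    constructor
    · rintro ⟨h1, h2, _⟩
      exact ⟨⟨h1.one_lt.le, h1.dvd_primorial_iff.1 h2⟩, h1⟩
    · rintro ⟨⟨_, h2⟩, h1⟩
      exact ⟨h1, h1.dvd_primorial_iff.2 h2, primorial_ne_zero N⟩
  rw [h0]
  have h1 : ∏ p ∈ (Icc 1 N).filter Nat.Prime, fac p ≤
      Real.exp (∑ p ∈ (Icc 1 N).filter Nat.Prime, (1 / (p : ℝ) + 2 * (1 / (p : ℝ) ^ 2))) := by
    rw [Real.exp_sum]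
    apply prod_le_prod
    · intro p hp
      exact zero_le_one.trans (fac_ge p (mem_filter.1 hp).2)
    · intro p hp
      have hp2 : (2 : ℝ) ≤ p := by exact_mod_cast (mem_filter.1 hp).2.two_le
      have h2 : 1 / ((p : ℝ) - 1) ≤ 1 / (p : ℝ) + 2 * (1 / (p : ℝ) ^ 2) := by
        have e : 1 / (p : ℝ) + 2 * (1 / (p : ℝ) ^ 2) = (p + 2) / (p : ℝ) ^ 2 := by
          field_simp
        rw [e, div_le_div_iff₀ (by linarith) (by positivity)]
        nlinarith
      have h3 := Real.add_one_le_exp (1 / (p : ℝ) + 2 * (1 / (p : ℝ) ^ 2))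
      unfold fac
      linarith
  refine h1.trans ?_
  have h2 : ∑ p ∈ (Icc 1 N).filter Nat.Prime, (1 / (p : ℝ) + 2 * (1 / (p : ℝ) ^ 2)) ≤ Real.log (Real.log N) + (C + 2 * D) := by
    rw [sum_add_distrib, ← mul_sum]
    have h3 := (abs_le.1 (hC N hN)).2
    have h4 : ∑ p ∈ (Icc 1 N).filter Nat.Prime, 1 / (p : ℝ) ^ 2 ≤ D := by
      rw [hD]
      exact hs.sum_le_tsum _ (fun _ _ => by positivity)
    linarith
  calc Real.exp (∑ p ∈ (Icc 1 N).filter Nat.Prime, (1 / (p : ℝ) + 2 * (1 / (p : ℝ) ^ 2)))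
      ≤ Real.exp (Real.log (Real.log N) + (C + 2 * D)) := Real.exp_le_exp.2 h2
    _ = Real.exp (C + 2 * D) * Real.log N := by rw [Real.exp_add, Real.exp_log hlog]; ring

/-- the sum of the reciprocals of the large prime factors -/
theorem sum_inv_le_hz (z q : ℕ) : ∑ p ∈ q.primeFactors.filter (fun p => z < p), (1 : ℝ) / p ≤ hz z q - 1 := by
  unfold hz
  have key : ∀ s : Finset ℕ, (∀ p ∈ s, p.Prime) → ∑ p ∈ s, (1 : ℝ) / p ≤ ∏ p ∈ s, fac p - 1 := by
    intro s
    induction s using Finset.induction_on with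
    | empty => simp
    | insert p s hp ih =>
      intro hs
      have h1 := ih (fun q hq => hs q (mem_insert_of_mem hq))
      have hpp := hs p (mem_insert_self _ _)
      rw [sum_insert hp, prod_insert hp]
      have h2 : (2 : ℝ) ≤ p := by exact_mod_cast hpp.two_le
      have h3 : 1 + 1 / (p : ℝ) ≤ fac p := by
        unfold fac
        have := one_div_le_one_div_of_le (by linarith : (0 : ℝ) < p - 1) (by linarith : (p : ℝ) - 1 ≤ p)
        linarith
      have h4 : 1 ≤ ∏ q ∈ s, fac q := by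
        have : ∏ _q ∈ s, (1 : ℝ) ≤ ∏ q ∈ s, fac q :=
          prod_le_prod (fun _ _ => zero_le_one) (fun q hq => fac_ge q (hs q (mem_insert_of_mem hq)))
        simpa using this
      have h5 : 0 ≤ 1 / (p : ℝ) := by positivity
      nlinarith
  exact key _ (fun p hp => Nat.prime_of_mem_primeFactors (mem_filter.1 hp).1)

end Pool.Agent.H11P
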