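import Mathlib

/-! Counting primes in a progression of integers. -/

set_option autoImplicit false

namespace Pool.Agent.H11P

open Finset

/-- integers in a progression -/
def cZ (A : ℤ) (M S : ℕ) : ℕ := ((range S).filter (fun t : ℕ => (A + M * t).natAbs.Prime)).card

end Pool.Agent.H11P
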