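import Mathlib
import Pool.Agent.H11P.CzDef

/-! Correlations of the prime values of random polynomials. -/

set_option autoImplicit false

namespace Pool.Agent.H11P

open Finset

variable {d : ℕ}

/-- the value at `n` of the polynomial with the coefficients `v` -/
def evl (v : Fin (d + 1) → ℤ) (n : ℤ) : ℤ := ∑ l : Fin (d + 1), v l * n ^ (l : ℕ)

theorem evl_add (v w : Fin (d + 1) → ℤ) (n : ℤ) : evl (v + w) n = evl v n + evl w n := by
  unfold evl
  rw [← sum_add_distrib]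
  apply sum_congr rfl
  intro l _
  simp only [Pi.add_apply]
  ring

theorem evl_smul (k : ℤ) (w : Fin (d + 1) → ℤ) (n : ℤ) : evl (k • w) n = k * evl w n := by
  unfold evl
  rw [mul_sum]
  apply sum_congr rfl
  intro l _
  simp only [Pi.smul_apply, smul_eq_mul]
  ring

/-- the coefficients of a polynomial of degree at most `d` -/
noncomputable def cv (q : Polynomial ℤ) : Fin (d + 1) → ℤ := fun l => q.coeff l

theorem evl_cv (q : Polynomial ℤ) (hq : q.natDegree ≤ d) (n : ℤ) : evl (cv q : Fin (d + 1) → ℤ) n = q.eval n := by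
  unfold evl cv
  rw [Polynomial.eval_eq_sum_range' (Nat.lt_succ_of_le hq), Finset.sum_range]

/-- `∏ (X - m)` -/
noncomputable def wp (T : Finset ℕ) : Polynomial ℤ := ∏ m ∈ T, (Polynomial.X - Polynomial.C (m : ℤ))

theorem wp_eval (T : Finset ℕ) (n : ℤ) : (wp T).eval n = ∏ m ∈ T, (n - m) := by
  unfold wp
  rw [Polynomial.eval_prod]
  simp

theorem wp_deg (T : Finset ℕ) : (wp T).natDegree = T.card := by
  unfold wp
  rw [Polynomial.natDegree_prod_of_monic _ _ (fun m _ => Polynomial.monic_X_sub_C _)]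
  simp only [Polynomial.natDegree_X_sub_C, sum_const, smul_eq_mul, mul_one]

theorem wp_coeff (Y : ℕ) (T : Finset ℕ) : (∀ m ∈ T, m ≤ Y) → ∀ l : ℕ, |(wp T).coeff l| ≤ ((1 + Y : ℕ) : ℤ) ^ T.card := by
  classical
  induction T using Finset.induction_on with
  | empty =>
    intro _ l
    unfold wp
    rw [prod_empty, card_empty, pow_zero, Polynomial.coeff_one]
    split_ifs <;> simp
  | insert m T hm ih =>
    intro hT l
    have h1 := ih (fun m' hm' => hT m' (mem_insert_of_mem hm'))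
    have hmY : (m : ℤ) ≤ Y := by exact_mod_cast hT m (mem_insert_self _ _)
    have e : wp (insert m T) = wp T * Polynomial.X - wp T * Polynomial.C (m : ℤ) := by
      unfold wp
      rw [prod_insert hm]
      ring
    rw [e, card_insert_of_notMem hm, Polynomial.coeff_sub, Polynomial.coeff_mul_C, pow_succ]
    have h2 : |(wp T * Polynomial.X).coeff l| ≤ ((1 + Y : ℕ) : ℤ) ^ T.card := by
      rcases l with _ | l
      · rw [Polynomial.mul_coeff_zero, Polynomial.coeff_X_zero, mul_zero, abs_zero]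
        positivity
      · rw [Polynomial.coeff_mul_X]
        exact h1 l
    have h3 : |(wp T).coeff l * (m : ℤ)| ≤ ((1 + Y : ℕ) : ℤ) ^ T.card * Y := by
      rw [abs_mul, Nat.abs_cast]
      exact mul_le_mul (h1 l) hmY (by positivity) (by positivity)
    calc |(wp T * Polynomial.X).coeff l - (wp T).coeff l * (m : ℤ)| ≤ |(wp T * Polynomial.X).coeff l| + |(wp T).coeff l * (m : ℤ)| := abs_sub _ _
      _ ≤ ((1 + Y : ℕ) : ℤ) ^ T.card + ((1 + Y : ℕ) : ℤ) ^ T.card * Y := by linarith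
      _ = ((1 + Y : ℕ) : ℤ) ^ T.card * ((1 + Y : ℕ) : ℤ) := by push_cast; ring

/-- averages -/
noncomputable def avg (B : Finset (Fin (d + 1) → ℤ)) (f : (Fin (d + 1) → ℤ) → ℝ) : ℝ := (∑ b ∈ B, f b) / B.card

theorem avg_mono (B : Finset (Fin (d + 1) → ℤ)) (f g : (Fin (d + 1) → ℤ) → ℝ) (h : ∀ b ∈ B, f b ≤ g b) :
    avg B f ≤ avg B g := by
  unfold avg
  exact div_le_div_of_nonneg_right (sum_le_sum h) (Nat.cast_nonneg _)

theorem avg_add (B : Finset (Fin (d + 1) → ℤ)) (f g : (Fin (d + 1) → ℤ) → ℝ) :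
    avg B (fun b => f b + g b) = avg B f + avg B g := by
  unfold avg
  rw [sum_add_distrib, add_div]

theorem avg_smul (B : Finset (Fin (d + 1) → ℤ)) (c : ℝ) (f : (Fin (d + 1) → ℤ) → ℝ) :
    avg B (fun b => c * f b) = c * avg B f := by
  unfold avg
  rw [← mul_sum, mul_div_assoc]

theorem avg_const (B : Finset (Fin (d + 1) → ℤ)) (hB : B.Nonempty) (c : ℝ) : avg B (fun _ => c) = c := by
  unfold avg
  have : (B.card : ℝ) ≠ 0 := by exact_mod_cast (card_pos.2 hB).ne'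
  rw [sum_const, nsmul_eq_mul]
  field_simp

/-- `B` is nearly invariant under the translations by multiples of `W` of size at most `V` -/
def NI (B : Finset (Fin (d + 1) → ℤ)) (W V : ℕ) (δ : ℝ) : Prop :=
  ∀ v : Fin (d + 1) → ℤ, (∀ l, (W : ℤ) ∣ v l ∧ |v l| ≤ V) → ((B.filter (fun b => b + v ∉ B)).card : ℝ) ≤ δ * B.card

theorem ni_le (B : Finset (Fin (d + 1) → ℤ)) (W V : ℕ) (δ : ℝ) (h : NI B W V δ) (hB : B.Nonempty) (f : (Fin (d + 1) → ℤ) → ℝ)
    (hf : ∀ b, 0 ≤ f b ∧ f b ≤ 1) (v : Fin (d + 1) → ℤ) (hv : ∀ l, (W : ℤ) ∣ v l ∧ |v l| ≤ V) :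
    avg B (fun b => f (b + v)) ≤ avg B f + δ := by
  have hc : (0 : ℝ) < B.card := by exact_mod_cast card_pos.2 hB
  unfold avg
  rw [div_add' _ _ _ hc.ne', div_le_div_iff_of_pos_right hc]
  have h1 : ∑ b ∈ B, f (b + v) = ∑ b ∈ B.filter (fun b => b + v ∉ B), f (b + v) + ∑ b ∈ B.filter (fun b => ¬ b + v ∉ B), f (b + v) := by
    rw [sum_filter_add_sum_filter_not]
  have h2 : ∑ b ∈ B.filter (fun b => b + v ∉ B), f (b + v) ≤ δ * B.card := by
    calc ∑ b ∈ B.filter (fun b => b + v ∉ B), f (b + v) ≤ ∑ b ∈ B.filter (fun b => b + v ∉ B), (1 : ℝ) := sum_le_sum fun b _ => (hf _).2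
      _ = ((B.filter (fun b => b + v ∉ B)).card : ℝ) := by simp
      _ ≤ δ * B.card := h v hv
  have h3 : ∑ b ∈ B.filter (fun b => ¬ b + v ∉ B), f (b + v) ≤ ∑ b ∈ B, f b := by
    rw [← sum_image (s := B.filter (fun b => ¬ b + v ∉ B)) (g := fun b => b + v) (f := f)]
    · apply sum_le_sum_of_subset_of_nonneg
      · intro b hb
        rw [mem_image] at hb
        obtain ⟨b', hb', rfl⟩ := hb
        rw [mem_filter, not_not] at hb'
        exact hb'.2
      · intro b _ _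
        exact (hf b).1
    · intro b _ b' _ h
      simpa using h
  linarith

theorem ni_ge (B : Finset (Fin (d + 1) → ℤ)) (W V : ℕ) (δ : ℝ) (h : NI B W V δ) (hB : B.Nonempty) (f : (Fin (d + 1) → ℤ) → ℝ)
    (hf : ∀ b, 0 ≤ f b ∧ f b ≤ 1) (v : Fin (d + 1) → ℤ) (hv : ∀ l, (W : ℤ) ∣ v l ∧ |v l| ≤ V) :
    avg B f ≤ avg B (fun b => f (b + v)) + δ := by
  have h1 := ni_le B W V δ h hB (fun b => f (b + v)) (fun b => hf _) (-v) (fun l => by
    simp only [Pi.neg_apply, dvd_neg, abs_neg]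
    exact hv l)
  simpa using h1

/-- averages over several translations -/
theorem ni_avg_le (B : Finset (Fin (d + 1) → ℤ)) (W V : ℕ) (δ : ℝ) (h : NI B W V δ) (hB : B.Nonempty) (f : (Fin (d + 1) → ℤ) → ℝ)
    (hf : ∀ b, 0 ≤ f b ∧ f b ≤ 1) (v : ℕ → Fin (d + 1) → ℤ) (S : ℕ) (hS : 1 ≤ S) (hv : ∀ t < S, ∀ l, (W : ℤ) ∣ v t l ∧ |v t l| ≤ V) :
    |avg B f - avg B (fun b => (∑ t ∈ range S, f (b + v t)) / S)| ≤ δ := by
  have hS0 : (0 : ℝ) < S := by exact_mod_cast hS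
  have e : avg B (fun b => (∑ t ∈ range S, f (b + v t)) / S) = (∑ t ∈ range S, avg B (fun b => f (b + v t))) / S := by
    unfold avg
    rw [← sum_div, ← sum_div, sum_comm, div_div, div_div, mul_comm]
  rw [e]
  have h1 : ∑ t ∈ range S, avg B (fun b => f (b + v t)) ≤ ∑ _t ∈ range S, (avg B f + δ) :=
    sum_le_sum fun t ht => ni_le B W V δ h hB f hf (v t) (hv t (mem_range.1 ht))
  have h2 : ∑ _t ∈ range S, (avg B f - δ) ≤ ∑ t ∈ range S, avg B (fun b => f (b + v t)) :=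
    sum_le_sum fun t ht => by
      have := ni_ge B W V δ h hB f hf (v t) (hv t (mem_range.1 ht))
      linarith
  rw [sum_const, card_range, nsmul_eq_mul] at h1 h2
  have h3 : (∑ t ∈ range S, avg B (fun b => f (b + v t))) / S ≤ avg B f + δ := by
    rw [div_le_iff₀ hS0]; linarith
  have h4 : avg B f - δ ≤ (∑ t ∈ range S, avg B (fun b => f (b + v t))) / S := by
    rw [le_div_iff₀ hS0]; linarith
  rw [abs_le]
  constructor <;> linarith

section step

variable (c : ℕ → ℤ)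

/-- the values of the polynomials -/
def fv (b : Fin (d + 1) → ℤ) (n : ℕ) : ℤ := c n + evl b n

open Classical in
/-- all values are primes -/
noncomputable def Phi (T : Finset ℕ) (b : Fin (d + 1) → ℤ) : ℝ := if ∀ n ∈ T, (fv c b n).natAbs.Prime then 1 else 0

open Classical in
/-- all values are coprime to `M0` -/
noncomputable def Psi (M0 : ℕ) (R : Finset ℕ) (b : Fin (d + 1) → ℤ) : ℝ := if ∀ n ∈ R, IsCoprime (fv c b n) (M0 : ℤ) then 1 else 0

theorem Phi_bd (T : Finset ℕ) (b : Fin (d + 1) → ℤ) : 0 ≤ Phi c T b ∧ Phi c T b ≤ 1 := by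
  unfold Phi; split_ifs <;> simp

theorem Psi_bd (M0 : ℕ) (R : Finset ℕ) (b : Fin (d + 1) → ℤ) : 0 ≤ Psi c M0 R b ∧ Psi c M0 R b ≤ 1 := by
  unfold Psi; split_ifs <;> simp

/-- the translation by `M0 t ∏ (X - m)` -/
noncomputable def tr (M0 : ℕ) (T : Finset ℕ) (t : ℕ) : Fin (d + 1) → ℤ := ((M0 : ℤ) * t) • cv (wp T)

theorem fv_tr (M0 : ℕ) (T : Finset ℕ) (hT : T.card ≤ d) (t : ℕ) (b : Fin (d + 1) → ℤ) (n : ℕ) :
    fv c (b + tr M0 T t) n = fv c b n + (M0 : ℤ) * t * ∏ m ∈ T, ((n : ℤ) - m) := by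
  unfold fv tr
  rw [evl_add, evl_smul, evl_cv _ (by rw [wp_deg]; exact hT), wp_eval]
  ring

theorem tr_bd (M0 W : ℕ) (Y : ℕ) (T : Finset ℕ) (hY : ∀ m ∈ T, m ≤ Y) (hW : W ∣ M0) (t S V : ℕ) (ht : t < S)
    (hV : M0 * S * (1 + Y) ^ T.card ≤ V) (l : Fin (d + 1)) :
    (W : ℤ) ∣ (tr M0 T t : Fin (d + 1) → ℤ) l ∧ |(tr M0 T t : Fin (d + 1) → ℤ) l| ≤ V := by
  unfold tr cv
  simp only [Pi.smul_apply, smul_eq_mul]
  constructor
  · exact Dvd.dvd.mul_right (Dvd.dvd.mul_right (by exact_mod_cast hW) _) _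
  · have h1 := wp_coeff Y T hY (l : ℕ)
    rw [abs_mul]
    have h2 : |(M0 : ℤ) * t| ≤ M0 * S := by
      rw [abs_of_nonneg (by positivity)]
      have : (t : ℤ) ≤ S := by exact_mod_cast ht.le
      exact mul_le_mul_of_nonneg_left this (by positivity)
    calc |(M0 : ℤ) * t| * |(wp T).coeff (l : ℕ)| ≤ (M0 * S) * ((1 + Y : ℕ) : ℤ) ^ T.card :=
          mul_le_mul h2 h1 (abs_nonneg _) (by positivity)
      _ = ((M0 * S * (1 + Y) ^ T.card : ℕ) : ℤ) := by push_cast; ring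
      _ ≤ V := by exact_mod_cast hV

theorem Psi_tr (M0 : ℕ) (T R : Finset ℕ) (hT : T.card ≤ d) (t : ℕ) (b : Fin (d + 1) → ℤ) :
    Psi c M0 R (b + tr M0 T t) = Psi c M0 R b := by
  unfold Psi
  have : (∀ n ∈ R, IsCoprime (fv c (b + tr M0 T t) n) (M0 : ℤ)) ↔ ∀ n ∈ R, IsCoprime (fv c b n) (M0 : ℤ) := by
    apply forall₂_congr
    intro n _
    rw [fv_tr c M0 T hT]
    have e : fv c b n + (M0 : ℤ) * t * ∏ m ∈ T, ((n : ℤ) - m) = fv c b n + (M0 : ℤ) * (t * ∏ m ∈ T, ((n : ℤ) - m)) := by ring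
    rw [e]
    exact IsCoprime.add_mul_left_left_iff
  simp only [this]

/-- the integer with the right sign -/
def sg (Δ A : ℤ) : ℤ := if 0 ≤ Δ then A else -A

theorem sg_natAbs (Δ A : ℤ) (M0 t : ℕ) : (A + (M0 : ℤ) * t * Δ).natAbs = (sg Δ A + ((M0 * Δ.natAbs : ℕ) : ℤ) * t).natAbs := by
  unfold sg
  split_ifs with h
  · congr 1
    push_cast
    rw [abs_of_nonneg h]
    ring
  · rw [← Int.natAbs_neg]
    congr 1
    push_cast
    rw [abs_of_neg (not_le.1 h)]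
    ring

open Classical in
theorem Phi_insert (T : Finset ℕ) (n0 : ℕ) (b : Fin (d + 1) → ℤ) :
    Phi c (insert n0 T) b = (if (fv c b n0).natAbs.Prime then 1 else 0) * Phi c T b := by
  unfold Phi
  by_cases h1 : (fv c b n0).natAbs.Prime
  · simp [h1]
  · simp [h1]

open Classical in
theorem Psi_insert (M0 : ℕ) (R : Finset ℕ) (n0 : ℕ) (b : Fin (d + 1) → ℤ) :
    Psi c M0 (insert n0 R) b = (if IsCoprime (fv c b n0) (M0 : ℤ) then 1 else 0) * Psi c M0 R b := by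
  unfold Psi
  by_cases h1 : IsCoprime (fv c b n0) (M0 : ℤ)
  · simp [h1]
  · simp [h1]

theorem sum_tr (M0 : ℕ) (T R : Finset ℕ) (hT : T.card ≤ d) (n0 : ℕ) (S : ℕ) (b : Fin (d + 1) → ℤ) :
    ∑ t ∈ range S, Phi c (insert n0 T) (b + tr M0 T t) * Psi c M0 R (b + tr M0 T t) =
      (cZ (sg (∏ m ∈ T, ((n0 : ℤ) - m)) (fv c b n0)) (M0 * (∏ m ∈ T, ((n0 : ℤ) - m)).natAbs) S : ℝ) *
        (Phi c T b * Psi c M0 R b) := by
  classical
  have h1 : ∀ t, Phi c (insert n0 T) (b + tr M0 T t) * Psi c M0 R (b + tr M0 T t) =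
      (if (sg (∏ m ∈ T, ((n0 : ℤ) - m)) (fv c b n0) + ((M0 * (∏ m ∈ T, ((n0 : ℤ) - m)).natAbs : ℕ) : ℤ) * t).natAbs.Prime then 1 else 0) *
        (Phi c T b * Psi c M0 R b) := by
    intro t
    rw [Phi_insert, Psi_tr c M0 T R hT, fv_tr c M0 T hT, sg_natAbs]
    have h2 : Phi c T (b + tr M0 T t) = Phi c T b := by
      unfold Phi
      have : (∀ n ∈ T, (fv c (b + tr M0 T t) n).natAbs.Prime) ↔ ∀ n ∈ T, (fv c b n).natAbs.Prime := by
        apply forall₂_congr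
        intro n hn
        rw [fv_tr c M0 T hT, prod_eq_zero hn (by ring), mul_zero, add_zero]
      simp only [this]
    rw [h2]
    ring
  rw [sum_congr rfl (fun t _ => h1 t), ← sum_mul]
  congr 1
  unfold cZ
  rw [card_filter]
  push_cast
  rfl

/-- one prime variable is replaced by a coprimality condition -/
theorem step (B : Finset (Fin (d + 1) → ℤ)) (hB : B.Nonempty) (W V : ℕ) (δ : ℝ) (hNI : NI B W V δ) (M0 : ℕ) (hW : W ∣ M0)
    (S Y : ℕ) (hS : 1 ≤ S) (T R : Finset ℕ) (hT : T.card ≤ d) (hY : ∀ m ∈ T, m ≤ Y) (hV : M0 * S * (1 + Y) ^ T.card ≤ V)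
    (n0 : ℕ) (ρ1 ρ2 : ℝ) (hρ2 : 0 ≤ ρ2)
    (h1 : ∀ b ∈ B, IsCoprime (fv c b n0) (M0 : ℤ) →
      ρ1 * S ≤ cZ (sg (∏ m ∈ T, ((n0 : ℤ) - m)) (fv c b n0)) (M0 * (∏ m ∈ T, ((n0 : ℤ) - m)).natAbs) S ∧
      (cZ (sg (∏ m ∈ T, ((n0 : ℤ) - m)) (fv c b n0)) (M0 * (∏ m ∈ T, ((n0 : ℤ) - m)).natAbs) S : ℝ) ≤ ρ2 * S)
    (h2 : ∀ b ∈ B, ¬ IsCoprime (fv c b n0) (M0 : ℤ) →
      cZ (sg (∏ m ∈ T, ((n0 : ℤ) - m)) (fv c b n0)) (M0 * (∏ m ∈ T, ((n0 : ℤ) - m)).natAbs) S ≤ 2) :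
    ρ1 * avg B (fun b => Phi c T b * Psi c M0 (insert n0 R) b) - δ ≤ avg B (fun b => Phi c (insert n0 T) b * Psi c M0 R b) ∧
    avg B (fun b => Phi c (insert n0 T) b * Psi c M0 R b) ≤ ρ2 * avg B (fun b => Phi c T b * Psi c M0 (insert n0 R) b) + 2 / S + δ := by
  classical
  have hS0 : (0 : ℝ) < S := by exact_mod_cast hS
  have key := ni_avg_le B W V δ hNI hB (fun b => Phi c (insert n0 T) b * Psi c M0 R b) (fun b => by
    obtain ⟨a1, a2⟩ := Phi_bd c (insert n0 T) b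
    obtain ⟨a3, a4⟩ := Psi_bd c M0 R b
    exact ⟨mul_nonneg a1 a3, mul_le_one₀ a2 a3 a4⟩) (fun t => tr M0 T t) S hS
    (fun t ht l => tr_bd M0 W Y T hY hW t S V ht hV l)
  simp only [sum_tr c M0 T R hT n0 S] at key
  rw [abs_le] at key
  have hup : avg B (fun b => (cZ (sg (∏ m ∈ T, ((n0 : ℤ) - m)) (fv c b n0)) (M0 * (∏ m ∈ T, ((n0 : ℤ) - m)).natAbs) S : ℝ) *
        (Phi c T b * Psi c M0 R b) / S) ≤ ρ2 * avg B (fun b => Phi c T b * Psi c M0 (insert n0 R) b) + 2 / S := by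
    rw [← avg_smul, ← avg_const B hB (2 / (S : ℝ)), ← avg_add]
    apply avg_mono
    intro b hb
    rw [Psi_insert]
    obtain ⟨a1, a2⟩ := Phi_bd c T b
    obtain ⟨a3, a4⟩ := Psi_bd c M0 R b
    have a5 : 0 ≤ Phi c T b * Psi c M0 R b := mul_nonneg a1 a3
    have a6 : Phi c T b * Psi c M0 R b ≤ 1 := mul_le_one₀ a2 a3 a4
    by_cases hc : IsCoprime (fv c b n0) (M0 : ℤ)
    · rw [if_pos hc, one_mul, div_le_iff₀ hS0]
      have h3 := (h1 b hb hc).2
      have h4 : (ρ2 * (Phi c T b * Psi c M0 R b) + 2 / (S : ℝ)) * S = ρ2 * S * (Phi c T b * Psi c M0 R b) + 2 := by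
        field_simp
      rw [h4]
      have := mul_le_mul_of_nonneg_right h3 a5
      linarith
    · rw [if_neg hc, zero_mul, mul_zero, mul_zero, zero_add]
      apply div_le_div_of_nonneg_right _ hS0.le
      have h3 : (cZ (sg (∏ m ∈ T, ((n0 : ℤ) - m)) (fv c b n0)) (M0 * (∏ m ∈ T, ((n0 : ℤ) - m)).natAbs) S : ℝ) ≤ 2 := by
        exact_mod_cast h2 b hb hc
      have := mul_le_mul h3 a6 a5 (by norm_num)
      linarith
  have hlo : ρ1 * avg B (fun b => Phi c T b * Psi c M0 (insert n0 R) b) ≤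
      avg B (fun b => (cZ (sg (∏ m ∈ T, ((n0 : ℤ) - m)) (fv c b n0)) (M0 * (∏ m ∈ T, ((n0 : ℤ) - m)).natAbs) S : ℝ) *
        (Phi c T b * Psi c M0 R b) / S) := by
    rw [← avg_smul]
    apply avg_mono
    intro b hb
    rw [Psi_insert]
    obtain ⟨a1, a2⟩ := Phi_bd c T b
    obtain ⟨a3, a4⟩ := Psi_bd c M0 R b
    have a5 : 0 ≤ Phi c T b * Psi c M0 R b := mul_nonneg a1 a3
    by_cases hc : IsCoprime (fv c b n0) (M0 : ℤ)
    · rw [if_pos hc, one_mul, le_div_iff₀ hS0]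
      have := mul_le_mul_of_nonneg_right (h1 b hb hc).1 a5
      linarith
    · rw [if_neg hc, zero_mul, mul_zero, mul_zero]
      positivity
  constructor <;> linarith

end step

end Pool.Agent.H11P
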