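import Mathlib
import Pool.Agent.H11P.Corr
import Pool.Agent.H11P.Arith

/-! Correlations of the prime values of one random polynomial. -/

set_option autoImplicit false

namespace Pool.Agent.H11P

open Finset

variable {d : ℕ}

/-- the product of the differences -/
def dif (T : Finset ℕ) (n0 : ℕ) : ℤ := ∏ m ∈ T, ((n0 : ℤ) - m)

theorem corr_ind (c : ℕ → ℤ) (B : Finset (Fin (d + 1) → ℤ)) (hB : B.Nonempty) (W V : ℕ) (δ : ℝ) (hNI : NI B W V δ) (hδ : 0 ≤ δ)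
    (M0 : ℕ) (hW : W ∣ M0) (S Y : ℕ) (hS : 1 ≤ S) (U : Finset ℕ) (hU : U.card ≤ d + 1) (hY : ∀ m ∈ U, m ≤ Y)
    (hV : M0 * S * (1 + Y) ^ d ≤ V) (ρ1 ρ2 : ℝ) (h10 : 0 ≤ ρ1) (h11 : ρ1 ≤ 1) (h20 : 0 ≤ ρ2) (h21 : ρ2 ≤ 1)
    (h1 : ∀ T ⊆ U, ∀ n0 ∈ U, n0 ∉ T → ∀ b ∈ B, IsCoprime (fv c b n0) (M0 : ℤ) →
      ρ1 * S ≤ cZ (sg (dif T n0) (fv c b n0)) (M0 * (dif T n0).natAbs) S ∧
      (cZ (sg (dif T n0) (fv c b n0)) (M0 * (dif T n0).natAbs) S : ℝ) ≤ ρ2 * S)
    (h2 : ∀ T ⊆ U, ∀ n0 ∈ U, n0 ∉ T → ∀ b ∈ B, ¬ IsCoprime (fv c b n0) (M0 : ℤ) →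
      cZ (sg (dif T n0) (fv c b n0)) (M0 * (dif T n0).natAbs) S ≤ 2) (T : Finset ℕ) :
    T ⊆ U → ρ1 ^ T.card * avg B (Psi c M0 U) - T.card * δ ≤ avg B (fun b => Phi c T b * Psi c M0 (U \ T) b) ∧
      avg B (fun b => Phi c T b * Psi c M0 (U \ T) b) ≤ ρ2 ^ T.card * avg B (Psi c M0 U) + T.card * (2 / S + δ) := by
  classical
  have hS0 : (0 : ℝ) < S := by exact_mod_cast hS
  induction T using Finset.induction_on with
  | empty =>
    intro _
    have e : (fun b : Fin (d + 1) → ℤ => Phi c ∅ b * Psi c M0 (U \ ∅) b) = Psi c M0 U := by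
      funext b
      simp [Phi]
    rw [e]
    simp
  | insert n0 T hn0 ih =>
    intro hT
    obtain ⟨i1, i2⟩ := ih ((subset_insert _ _).trans hT)
    have hn0U : n0 ∈ U := hT (mem_insert_self _ _)
    have hTU : T ⊆ U := (subset_insert _ _).trans hT
    have hcard : T.card + 1 ≤ U.card := by
      have := card_le_card hT
      rwa [card_insert_of_notMem hn0] at this
    have hVT : M0 * S * (1 + Y) ^ T.card ≤ V := by
      refine le_trans ?_ hV
      apply Nat.mul_le_mul_left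
      exact Nat.pow_le_pow_right (by omega) (by omega)
    obtain ⟨s1, s2⟩ := step c B hB W V δ hNI M0 hW S Y hS T (U \ insert n0 T) (by omega) (fun m hm => hY m (hTU hm)) hVT n0 ρ1 ρ2 h20
      (h1 T hTU n0 hn0U hn0) (h2 T hTU n0 hn0U hn0)
    have e : insert n0 (U \ insert n0 T) = U \ T := by
      ext x
      simp only [mem_insert, mem_sdiff]
      constructor
      · rintro (rfl | ⟨a, b⟩)
        · exact ⟨hn0U, hn0⟩
        · exact ⟨a, fun h => b (Or.inr h)⟩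
      · rintro ⟨a, b⟩
        by_cases h : x = n0
        · exact Or.inl h
        · exact Or.inr ⟨a, fun h' => by rcases h' with h' | h'; exact h h'; exact b h'⟩
    rw [e] at s1 s2
    rw [card_insert_of_notMem hn0, pow_succ, pow_succ]
    set X := avg B (fun b => Phi c T b * Psi c M0 (U \ T) b)
    set A := avg B (Psi c M0 U)
    push_cast
    constructor
    · have a1 : ρ1 * (ρ1 ^ T.card * A - T.card * δ) ≤ ρ1 * X := by gcongr
      have a2 : ρ1 * (T.card * δ) ≤ 1 * (T.card * δ) := by gcongr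
      linarith
    · have a1 : ρ2 * X ≤ ρ2 * (ρ2 ^ T.card * A + T.card * (2 / S + δ)) := by gcongr
      have a2 : ρ2 * (T.card * (2 / S + δ)) ≤ 1 * (T.card * (2 / S + δ)) := by gcongr
      linarith

theorem dif_dvd (U T : Finset ℕ) (hT : T ⊆ U) (n0 : ℕ) (h0 : n0 ∈ U) (hn : n0 ∉ T) :
    (dif T n0).natAbs ∣ ∏ x ∈ U.offDiag, ((x.1 : ℤ) - x.2).natAbs := by
  classical
  unfold dif
  have e : (∏ m ∈ T, ((n0 : ℤ) - m)).natAbs = ∏ m ∈ T, ((n0 : ℤ) - m).natAbs := by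
    rw [← Int.natAbsHom_apply, map_prod]
    rfl
  rw [e]
  have e2 : ∏ m ∈ T, ((n0 : ℤ) - m).natAbs = ∏ x ∈ T.image (fun m => (n0, m)), ((x.1 : ℤ) - x.2).natAbs := by
    rw [prod_image]
    intro a _ b _ h
    simpa using h
  rw [e2]
  apply prod_dvd_prod_of_subset
  intro x hx
  rw [mem_image] at hx
  obtain ⟨m, hm, rfl⟩ := hx
  rw [mem_offDiag]
  refine ⟨h0, hT hm, fun h => ?_⟩
  simp only at h
  rw [h] at hn
  exact hn hm

/-- the product of all differences -/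
def qU (U : Finset ℕ) : ℕ := ∏ x ∈ U.offDiag, ((x.1 : ℤ) - x.2).natAbs

theorem qU_pos (U : Finset ℕ) : 1 ≤ qU U := by
  unfold qU
  apply Nat.one_le_iff_ne_zero.2
  apply prod_ne_zero_iff.2
  intro x hx
  rw [mem_offDiag] at hx
  rw [Int.natAbs_ne_zero, sub_ne_zero]
  exact_mod_cast hx.2.2

theorem qU_le (U : Finset ℕ) (Y n : ℕ) (hY : ∀ m ∈ U, m ≤ Y) (hY1 : 1 ≤ Y) (hU : U.card ≤ n) : qU U ≤ Y ^ (n * n) := by
  unfold qU
  calc ∏ x ∈ U.offDiag, ((x.1 : ℤ) - x.2).natAbs ≤ ∏ _x ∈ U.offDiag, Y := by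
        apply Finset.prod_le_prod' (N := ℕ)
        intro x hx
        rw [mem_offDiag] at hx
        have a1 := hY _ hx.1
        have a2 := hY _ hx.2.1
        omega
    _ = Y ^ U.offDiag.card := by rw [prod_const]
    _ ≤ Y ^ (n * n) := by
        apply Nat.pow_le_pow_right hY1
        rw [offDiag_card]
        have := Nat.mul_le_mul hU hU
        omega

theorem sg_cop (Δ A : ℤ) (M0 : ℕ) (h : Δ.natAbs ∣ M0) : IsCoprime (sg Δ A) ((M0 * Δ.natAbs : ℕ) : ℤ) ↔ IsCoprime A (M0 : ℤ) := by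
  have h0 : IsCoprime (sg Δ A) ((M0 * Δ.natAbs : ℕ) : ℤ) ↔ IsCoprime A ((M0 * Δ.natAbs : ℕ) : ℤ) := by
    unfold sg
    split_ifs
    · rfl
    · exact IsCoprime.neg_left_iff _ _
  rw [h0]
  constructor
  · intro h1
    push_cast at h1
    exact IsCoprime.of_mul_right_left h1
  · intro h1
    push_cast
    refine IsCoprime.mul_right h1 ?_
    obtain ⟨e, he⟩ := h
    have : (M0 : ℤ) = |Δ| * e := by
      rw [he]; push_cast; rfl
    rw [this] at h1
    exact IsCoprime.of_mul_right_left h1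

theorem sg_abs (Δ A : ℤ) : |((sg Δ A : ℤ) : ℝ)| = |(A : ℝ)| := by
  unfold sg
  split_ifs
  · rfl
  · push_cast; rw [abs_neg]

end Pool.Agent.H11P
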