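import Mathlib
import Pool.Agent.H11P.Ind

/-! The box of coefficients in a residue class. -/

set_option autoImplicit false

namespace Pool.Agent.H11P

open Finset

variable {d : ℕ}

/-- the interval of length `2H` in a residue class -/
noncomputable def cls (H W : ℕ) (a : ℤ) : Finset ℤ := (Icc (-(H : ℤ)) H).filter (fun x => x ≡ a [ZMOD W])

/-- the box -/
noncomputable def bx (H W : ℕ) (α : Fin (d + 1) → ℤ) : Finset (Fin (d + 1) → ℤ) := Fintype.piFinset (fun l => cls H W (α l))

theorem count_mod (a b v : ℤ) (W : ℕ) (hW : 1 ≤ W) (hab : a ≤ b) :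
    (((Ioc a b).filter (fun x => x ≡ v [ZMOD W])).card : ℝ) ≤ ((b : ℝ) - a) / W + 1 ∧
    ((b : ℝ) - a) / W - 1 ≤ (((Ioc a b).filter (fun x => x ≡ v [ZMOD W])).card : ℝ) := by
  have hW0 : (0 : ℤ) < W := by exact_mod_cast hW
  have h1 := Int.Ioc_filter_modEq_card a b hW0 v
  have hWq : (0 : ℚ) < W := by exact_mod_cast hW
  have e : (b : ℚ) / W - a / W = ((b : ℚ) - v) / W - ((a : ℚ) - v) / W := by ring
  have f1 := Int.floor_le (((b : ℚ) - v) / ((W : ℤ) : ℚ))
  have f2 := Int.lt_floor_add_one (((b : ℚ) - v) / ((W : ℤ) : ℚ))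
  have f3 := Int.floor_le (((a : ℚ) - v) / ((W : ℤ) : ℚ))
  have f4 := Int.lt_floor_add_one (((a : ℚ) - v) / ((W : ℤ) : ℚ))
  set F1 := ⌊((b : ℚ) - v) / ((W : ℤ) : ℚ)⌋
  set F2 := ⌊((a : ℚ) - v) / ((W : ℤ) : ℚ)⌋
  have hab' : (a : ℚ) ≤ b := by exact_mod_cast hab
  have h0 : (0 : ℚ) ≤ ((b : ℚ) - a) / W := div_nonneg (by linarith) hWq.le
  have g1 : ((((Ioc a b).filter (fun x => x ≡ v [ZMOD W])).card : ℤ) : ℚ) ≤ ((b : ℚ) - a) / W + 1 := by
    rw [h1]
    push_cast
    apply max_le
    · have e2 : ((b : ℚ) - a) / W = ((b : ℚ) - v) / W - ((a : ℚ) - v) / W := by ring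
      push_cast at f1 f4
      linarith
    · linarith
  have g2 : ((b : ℚ) - a) / W - 1 ≤ ((((Ioc a b).filter (fun x => x ≡ v [ZMOD W])).card : ℤ) : ℚ) := by
    rw [h1]
    push_cast
    apply le_max_of_le_left
    have e2 : ((b : ℚ) - a) / W = ((b : ℚ) - v) / W - ((a : ℚ) - v) / W := by ring
    push_cast at f2 f3
    linarith
  constructor
  · exact_mod_cast g1
  · exact_mod_cast g2

theorem cls_lower (H W : ℕ) (a : ℤ) (hW : 1 ≤ W) (hWH : W ≤ H) : (H : ℝ) / W ≤ ((cls H W a).card : ℝ) := by
  have h1 := (count_mod (-(H : ℤ) - 1) H a W hW (by omega)).2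
  have e : Ioc (-(H : ℤ) - 1) H = Icc (-(H : ℤ)) H := by
    ext x; simp only [mem_Ioc, mem_Icc]; omega
  rw [e] at h1
  have hW0 : (0 : ℝ) < W := by exact_mod_cast hW
  have hWr : (W : ℝ) ≤ H := by exact_mod_cast hWH
  refine le_trans ?_ h1
  push_cast
  rw [div_le_iff₀ hW0]
  have : (((H : ℝ) - (-(H : ℝ) - 1)) / W - 1) * W = 2 * H + 1 - W := by
    field_simp
    ring
  rw [this]
  linarith

theorem cls_bad (H W V : ℕ) (a v : ℤ) (hW : 1 ≤ W) (hv : (W : ℤ) ∣ v) (hV : |v| ≤ V) :
    (((cls H W a).filter (fun x => x + v ∉ cls H W a)).card : ℝ) ≤ (V : ℝ) / W + 1 := by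
  have hW0 : (0 : ℝ) < W := by exact_mod_cast hW
  have hmod : ∀ x : ℤ, x ≡ a [ZMOD W] → x + v ≡ a [ZMOD W] := by
    intro x hx
    have h1 : v ≡ 0 [ZMOD W] := (Int.modEq_zero_iff_dvd).2 hv
    simpa using hx.add h1
  rcases le_or_gt 0 v with h0 | h0
  · have hsub : (cls H W a).filter (fun x => x + v ∉ cls H W a) ⊆ (Ioc ((H : ℤ) - v) H).filter (fun x => x ≡ a [ZMOD W]) := by
      intro x hx
      unfold cls at hx
      rw [mem_filter, mem_filter, mem_Icc] at hx
      rw [mem_filter, mem_Ioc]
      refine ⟨⟨?_, hx.1.1.2⟩, hx.1.2⟩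
      by_contra hcon
      apply hx.2
      rw [mem_filter, mem_Icc]
      exact ⟨⟨by omega, by omega⟩, hmod x hx.1.2⟩
    have h1 := (count_mod ((H : ℤ) - v) H a W hW (by omega)).1
    have h2 : (((cls H W a).filter (fun x => x + v ∉ cls H W a)).card : ℝ) ≤
        (((Ioc ((H : ℤ) - v) H).filter (fun x => x ≡ a [ZMOD W])).card : ℝ) := by exact_mod_cast card_le_card hsub
    refine h2.trans (h1.trans ?_)
    push_cast
    have h3 : (v : ℝ) ≤ V := by
      rw [abs_of_nonneg h0] at hV
      exact_mod_cast hV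
    have : ((H : ℝ) - (H - v)) / W ≤ V / W := by
      apply div_le_div_of_nonneg_right _ hW0.le
      linarith
    linarith
  · have hsub : (cls H W a).filter (fun x => x + v ∉ cls H W a) ⊆ (Ioc (-(H : ℤ) - 1) (-(H : ℤ) - 1 - v)).filter (fun x => x ≡ a [ZMOD W]) := by
      intro x hx
      unfold cls at hx
      rw [mem_filter, mem_filter, mem_Icc] at hx
      rw [mem_filter, mem_Ioc]
      refine ⟨⟨by omega, ?_⟩, hx.1.2⟩
      by_contra hcon
      apply hx.2
      rw [mem_filter, mem_Icc]
      exact ⟨⟨by omega, by omega⟩, hmod x hx.1.2⟩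
    have h1 := (count_mod (-(H : ℤ) - 1) (-(H : ℤ) - 1 - v) a W hW (by omega)).1
    have h2 : (((cls H W a).filter (fun x => x + v ∉ cls H W a)).card : ℝ) ≤
        (((Ioc (-(H : ℤ) - 1) (-(H : ℤ) - 1 - v)).filter (fun x => x ≡ a [ZMOD W])).card : ℝ) := by exact_mod_cast card_le_card hsub
    refine h2.trans (h1.trans ?_)
    push_cast
    have h3 : -(v : ℝ) ≤ V := by
      rw [abs_of_neg h0] at hV
      exact_mod_cast hV
    have : ((-(H : ℝ) - 1 - v) - (-H - 1)) / W ≤ V / W := by
      apply div_le_div_of_nonneg_right _ hW0.le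
      linarith
    linarith

theorem bx_nonempty (H W : ℕ) (α : Fin (d + 1) → ℤ) (hW : 1 ≤ W) (hWH : W ≤ H) : (bx H W α).Nonempty := by
  unfold bx
  rw [Fintype.piFinset_nonempty]
  intro l
  rw [← card_pos]
  have h1 := cls_lower H W (α l) hW hWH
  have h2 : (0 : ℝ) < (H : ℝ) / W := by
    have : (0 : ℝ) < W := by exact_mod_cast hW
    have : (0 : ℝ) < H := by exact_mod_cast (by omega : 0 < H)
    positivity
  exact_mod_cast h2.trans_le h1

theorem bx_NI (H W V : ℕ) (α : Fin (d + 1) → ℤ) (hW : 1 ≤ W) (hWH : W ≤ H) :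
    NI (bx H W α) W V ((d + 1) * ((V : ℝ) + W) / H) := by
  classical
  intro v hv
  have hW0 : (0 : ℝ) < W := by exact_mod_cast hW
  have hH0 : (0 : ℝ) < H := by exact_mod_cast (by omega : 0 < H)
  have hsub : (bx H W α).filter (fun b => b + v ∉ bx H W α) ⊆
      univ.biUnion (fun l : Fin (d + 1) => (bx H W α).filter (fun b => b l + v l ∉ cls H W (α l))) := by
    intro b hb
    rw [mem_filter] at hb
    rw [mem_biUnion]
    have h1 : ¬ ∀ l, (b + v) l ∈ cls H W (α l) := by
      intro h
      exact hb.2 (Fintype.mem_piFinset.2 h)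
    push Not at h1
    obtain ⟨l, hl⟩ := h1
    exact ⟨l, mem_univ _, mem_filter.2 ⟨hb.1, hl⟩⟩
  have hone : ∀ l : Fin (d + 1), (((bx H W α).filter (fun b => b l + v l ∉ cls H W (α l))).card : ℝ) ≤
      ((V : ℝ) + W) / H * (bx H W α).card := by
    intro l
    have e : (bx H W α).filter (fun b => b l + v l ∉ cls H W (α l)) =
        Fintype.piFinset (Function.update (fun l => cls H W (α l)) l ((cls H W (α l)).filter (fun x => x + v l ∉ cls H W (α l)))) := by
      ext b
      rw [mem_filter, Fintype.mem_piFinset]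
      unfold bx
      rw [Fintype.mem_piFinset]
      constructor
      · rintro ⟨h1, h2⟩ l'
        by_cases hl : l' = l
        · subst hl
          rw [Function.update_self, mem_filter]
          exact ⟨h1 _, h2⟩
        · rw [Function.update_of_ne hl]
          exact h1 l'
      · intro h
        constructor
        · intro l'
          by_cases hl : l' = l
          · subst hl
            have := h l'
            rw [Function.update_self, mem_filter] at this
            exact this.1
          · have := h l'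
            rw [Function.update_of_ne hl] at this
            exact this
        · have := h l
          rw [Function.update_self, mem_filter] at this
          exact this.2
    rw [e, Fintype.card_piFinset]
    unfold bx
    rw [Fintype.card_piFinset]
    have e1 : ∏ i, (Function.update (fun l => cls H W (α l)) l ((cls H W (α l)).filter (fun x => x + v l ∉ cls H W (α l))) i).card =
        ((cls H W (α l)).filter (fun x => x + v l ∉ cls H W (α l))).card * ∏ i ∈ univ.erase l, (cls H W (α i)).card := by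
      rw [← mul_prod_erase univ _ (mem_univ l), Function.update_self]
      congr 1
      apply prod_congr rfl
      intro i hi
      rw [Function.update_of_ne (ne_of_mem_erase hi)]
    have e2 : ∏ i, (cls H W (α i)).card = (cls H W (α l)).card * ∏ i ∈ univ.erase l, (cls H W (α i)).card := by
      rw [← mul_prod_erase univ _ (mem_univ l)]
    rw [e1, e2]
    push_cast
    rw [← mul_assoc]
    apply mul_le_mul_of_nonneg_right _ (by positivity)
    have h1 := cls_bad H W V (α l) (v l) hW (hv l).1 (hv l).2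
    have h2 := cls_lower H W (α l) hW hWH
    calc (((cls H W (α l)).filter (fun x => x + v l ∉ cls H W (α l))).card : ℝ) ≤ (V : ℝ) / W + 1 := h1
      _ = ((V : ℝ) + W) / H * (H / W) := by field_simp
      _ ≤ ((V : ℝ) + W) / H * (cls H W (α l)).card := by gcongr
  have h3 : (((bx H W α).filter (fun b => b + v ∉ bx H W α)).card : ℝ) ≤
      ∑ l : Fin (d + 1), (((bx H W α).filter (fun b => b l + v l ∉ cls H W (α l))).card : ℝ) := by
    exact_mod_cast (card_le_card hsub).trans card_biUnion_le
  refine h3.trans ((sum_le_sum fun l _ => hone l).trans ?_)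
  rw [sum_const, card_univ, Fintype.card_fin, nsmul_eq_mul]
  push_cast
  apply le_of_eq
  ring

open Classical in
/-- the probability that a prime divides a value -/
theorem prob_dvd (c : ℕ → ℤ) (B : Finset (Fin (d + 1) → ℤ)) (hB : B.Nonempty) (W V : ℕ) (δ : ℝ) (hNI : NI B W V δ)
    (p : ℕ) (hp : p.Prime) (hpW : ¬ p ∣ W) (hV : W * p ≤ V) (n : ℕ) :
    avg B (fun b => if (p : ℤ) ∣ fv c b n then (1 : ℝ) else 0) ≤ 1 / p + δ := by
  have hp0 : (0 : ℝ) < p := by exact_mod_cast hp.pos
  have key := ni_avg_le B W V δ hNI hB (fun b => if (p : ℤ) ∣ fv c b n then (1 : ℝ) else 0) (fun b => by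
    split_ifs <;> simp) (fun t => tr W ∅ t) p hp.pos
    (fun t ht l => tr_bd W W 0 ∅ (fun m hm => absurd hm (notMem_empty m)) (dvd_refl W) t p V ht (by simpa using hV) l)
  have h1 : avg B (fun b => (∑ t ∈ range p, (if (p : ℤ) ∣ fv c (b + tr W ∅ t) n then (1 : ℝ) else 0)) / p) ≤ 1 / p := by
    rw [← avg_const B hB (1 / (p : ℝ))]
    apply avg_mono
    intro b _
    apply div_le_div_of_nonneg_right _ hp0.le
    rw [← sum_filter, sum_const, nsmul_eq_mul, mul_one]
    have h2 : ((range p).filter (fun t => (p : ℤ) ∣ fv c (b + tr W ∅ t) n)).card ≤ 1 := by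
      rw [card_le_one]
      intro t ht t' ht'
      rw [mem_filter, mem_range, fv_tr c W ∅ (by simp), prod_empty, mul_one] at ht ht'
      have h3 : (p : ℤ) ∣ (W : ℤ) * ((t : ℤ) - t') := by
        have := dvd_sub ht.2 ht'.2
        have e : fv c b n + (W : ℤ) * t - (fv c b n + W * t') = W * ((t : ℤ) - t') := by ring
        rwa [e] at this
      have hpp : Prime (p : ℤ) := Nat.prime_iff_prime_int.1 hp
      rcases hpp.dvd_or_dvd h3 with h4 | h4
      · exact absurd (by exact_mod_cast h4) hpW
      · have h5 : |(t : ℤ) - t'| < p := by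
          rw [abs_lt]
          have := ht.1
          have := ht'.1
          constructor <;> omega
        have h6 := Int.eq_zero_of_abs_lt_dvd h4 h5
        omega
    exact_mod_cast h2
  rw [abs_le] at key
  linarith [key.1, key.2]

end Pool.Agent.H11P
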