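import Mathlib

/-! Definitions for the Poisson law. -/

set_option autoImplicit false

namespace Pool.Agent.H11P.Law

/-- the value at `n` of the polynomial `P + ∑ a_l x^l` -/
def value {d : ℕ} (P : Polynomial ℤ) (a : Fin (d + 1) → ℤ) (n : ℕ) : ℤ :=
  P.eval (n : ℤ) + ∑ l : Fin (d + 1), a l * (n : ℤ) ^ (l : ℕ)

/-- the primes up to `z` -/
def primesTo (z : ℕ) : Finset ℕ := (Finset.range (z + 1)).filter Nat.Prime

/-- the arrays `a` with `|a i l| ≤ H` and `a i l ≡ α i l` modulo the product of the primes up to `z` -/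
noncomputable def box {k d : ℕ} (H z : ℕ) (α : Fin k → Fin (d + 1) → ℤ) : Finset (Fin k → Fin (d + 1) → ℤ) :=
  Fintype.piFinset fun i => Fintype.piFinset fun l =>
    (Finset.Icc (-(H : ℤ)) H).filter fun x => x ≡ α i l [ZMOD ((∏ p ∈ primesTo z, p : ℕ) : ℤ)]

/-- the number of the `n ∈ D` for which all `|f_i(n)|` are primes, `f_i = P_i + ∑ a_il x^l` -/
def hits {k d : ℕ} (P : Fin k → Polynomial ℤ) (D : Finset ℕ) (a : Fin k → Fin (d + 1) → ℤ) : ℕ :=
  (D.filter fun n => ∀ i, (value (P i) (a i) n).natAbs.Prime).card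

/-- the number of the `n ∈ D` for which no `f_i(n)` has a prime factor up to `z` -/
def sifted {k d : ℕ} (P : Fin k → Polynomial ℤ) (D : Finset ℕ) (z : ℕ) (α : Fin k → Fin (d + 1) → ℤ) : ℕ :=
  (D.filter fun n => ∀ p ∈ primesTo z, ∀ i, ¬ (p : ℤ) ∣ value (P i) (α i) n).card

/-- the expected number of the points of `D` where all values are primes -/
noncomputable def mean {k d : ℕ} (P : Fin k → Polynomial ℤ) (D : Finset ℕ) (z H : ℕ) (α : Fin k → Fin (d + 1) → ℤ) : ℝ :=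
  (∏ p ∈ primesTo z, (1 - 1 / (p : ℝ))⁻¹) ^ k * sifted P D z α / Real.log H ^ k

/-- the number of the residue classes `n` modulo `p` with `p ∣ f_1(n) ⋯ f_k(n)` -/
def omega {k d : ℕ} (P : Fin k → Polynomial ℤ) (α : Fin k → Fin (d + 1) → ℤ) (p : ℕ) : ℕ :=
  ((Finset.range p).filter fun n => ∃ i, (p : ℤ) ∣ value (P i) (α i) n).card

/-- the Bateman-Horn constant truncated at `z` -/
noncomputable def bhConst {k d : ℕ} (P : Fin k → Polynomial ℤ) (z : ℕ) (α : Fin k → Fin (d + 1) → ℤ) : ℝ :=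
  ∏ p ∈ primesTo z, (1 - (omega P α p : ℝ) / p) / (1 - 1 / (p : ℝ)) ^ k

end Pool.Agent.H11P.Law
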