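import Mathlib

/-! Bonferroni inequalities and the Poisson distribution from finitely many binomial moments. -/

set_option autoImplicit false

namespace Pool.Agent.H11P

open Finset

theorem bonf0 (n m : ℕ) : 0 ≤ (-1 : ℝ) ^ m * ((if n = 0 then 1 else 0) - ∑ s ∈ range m, (-1 : ℝ) ^ s * (n.choose s)) ∧
    (-1 : ℝ) ^ m * ((if n = 0 then 1 else 0) - ∑ s ∈ range m, (-1 : ℝ) ^ s * (n.choose s)) ≤ n.choose m := by
  rcases m with _ | m
  · rcases n with _ | n
    · simp
    · simp
  · rcases n with _ | n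
    · have h : ∑ s ∈ range (m + 1), (-1 : ℝ) ^ s * ((0 : ℕ).choose s) = 1 := by
        rw [sum_range_succ']
        simp
      rw [h]
      simp
    · have h := @Int.alternating_sum_range_choose_eq_choose n m
      have h' : ∑ s ∈ range (m + 1), (-1 : ℝ) ^ s * ((n + 1).choose s) = (-1 : ℝ) ^ m * n.choose m := by
        exact_mod_cast h
      rw [h', if_neg (Nat.succ_ne_zero n)]
      have e : (-1 : ℝ) ^ (m + 1) * (0 - (-1 : ℝ) ^ m * n.choose m) = ((-1 : ℝ) ^ m * (-1 : ℝ) ^ m) * n.choose m := by ring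
      have e2 : (-1 : ℝ) ^ m * (-1 : ℝ) ^ m = 1 := by rw [← mul_pow]; norm_num
      rw [e, e2, one_mul]
      refine ⟨Nat.cast_nonneg _, ?_⟩
      have : n.choose m ≤ (n + 1).choose (m + 1) := by rw [Nat.choose_succ_succ]; exact Nat.le_add_right _ _
      exact_mod_cast this

theorem bonf (N j R : ℕ) (h : j ≤ R) :
    0 ≤ (-1 : ℝ) ^ (R - j) * ((if N = j then 1 else 0) - ∑ r ∈ Ico j R, (-1 : ℝ) ^ (r - j) * (r.choose j * N.choose r)) ∧
    (-1 : ℝ) ^ (R - j) * ((if N = j then 1 else 0) - ∑ r ∈ Ico j R, (-1 : ℝ) ^ (r - j) * (r.choose j * N.choose r)) ≤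
      R.choose j * N.choose R := by
  rcases lt_or_ge N j with hN | hN
  · have h1 : ∑ r ∈ Ico j R, (-1 : ℝ) ^ (r - j) * ((r.choose j : ℝ) * N.choose r) = 0 := by
      apply sum_eq_zero
      intro r hr
      rw [mem_Ico] at hr
      rw [Nat.choose_eq_zero_of_lt (by omega : N < r)]
      simp
    rw [h1, if_neg (by omega), sub_zero, mul_zero]
    exact ⟨le_rfl, by positivity⟩
  · obtain ⟨n, rfl⟩ := Nat.exists_eq_add_of_le hN
    obtain ⟨m, rfl⟩ := Nat.exists_eq_add_of_le h
    have h1 : ∑ r ∈ Ico j (j + m), (-1 : ℝ) ^ (r - j) * ((r.choose j : ℝ) * (j + n).choose r) =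
        ((j + n).choose j : ℝ) * ∑ s ∈ range m, (-1 : ℝ) ^ s * (n.choose s) := by
      rw [sum_Ico_eq_sum_range, mul_sum, Nat.add_sub_cancel_left]
      apply sum_congr rfl
      intro s _
      have h2 : (j + n).choose (j + s) * (j + s).choose j = (j + n).choose j * n.choose s := by
        rcases le_or_gt (j + s) (j + n) with h3 | h3
        · have := Nat.choose_mul (n := j + n) (k := j + s) (s := j) (by omega)
          rw [this]
          congr 2 <;> omega
        · rw [Nat.choose_eq_zero_of_lt h3, Nat.choose_eq_zero_of_lt (by omega : n < s)]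
          simp
      have h3 : ((j + s).choose j : ℝ) * (j + n).choose (j + s) = ((j + n).choose j : ℝ) * n.choose s := by
        rw [mul_comm]
        exact_mod_cast h2
      rw [Nat.add_sub_cancel_left, h3]
      ring
    have h4 : (if j + n = j then (1 : ℝ) else 0) = ((j + n).choose j : ℝ) * (if n = 0 then 1 else 0) := by
      rcases n with _ | n
      · simp
      · rw [if_neg (by omega), if_neg (by omega), mul_zero]
    have h5 : ((j + m).choose j : ℝ) * (j + n).choose (j + m) = ((j + n).choose j : ℝ) * n.choose m := by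
      have h2 : (j + n).choose (j + m) * (j + m).choose j = (j + n).choose j * n.choose m := by
        rcases le_or_gt (j + m) (j + n) with h3 | h3
        · have := Nat.choose_mul (n := j + n) (k := j + m) (s := j) (by omega)
          rw [this]
          congr 2 <;> omega
        · rw [Nat.choose_eq_zero_of_lt h3, Nat.choose_eq_zero_of_lt (by omega : n < m)]
          simp
      rw [mul_comm]
      exact_mod_cast h2
    rw [h1, h4, h5, Nat.add_sub_cancel_left, ← mul_sub, mul_left_comm]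
    obtain ⟨g1, g2⟩ := bonf0 n m
    exact ⟨mul_nonneg (Nat.cast_nonneg _) g1, mul_le_mul_of_nonneg_left g2 (Nat.cast_nonneg _)⟩

/-- alternating Taylor expansion of `exp (-μ)` -/
theorem exp_alt (m : ℕ) : ∀ μ : ℝ, 0 ≤ μ →
    0 ≤ (-1 : ℝ) ^ m * (Real.exp (-μ) - ∑ s ∈ range m, (-μ) ^ s / s.factorial) := by
  induction m with
  | zero => intro μ _; simp [Real.exp_nonneg]
  | succ m ih =>
    intro μ hμ
    set F : ℝ → ℝ := fun μ => (-1 : ℝ) ^ (m + 1) * (Real.exp (-μ) - ∑ s ∈ range (m + 1), (-μ) ^ s / s.factorial) with hF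
    have hd : ∀ x : ℝ, HasDerivAt F ((-1 : ℝ) ^ m * (Real.exp (-x) - ∑ s ∈ range m, (-x) ^ s / s.factorial)) x := by
      intro x
      have h1 : HasDerivAt (fun x : ℝ => Real.exp (-x)) (-Real.exp (-x)) x := by
        have := (hasDerivAt_neg x).exp
        simpa using this
      have h2 : HasDerivAt (fun x : ℝ => ∑ s ∈ range (m + 1), (-x) ^ s / (s.factorial : ℝ))
          (-∑ s ∈ range m, (-x) ^ s / s.factorial) x := by
        have h3 : HasDerivAt (fun x : ℝ => ∑ s ∈ range (m + 1), (-x) ^ s / (s.factorial : ℝ))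
            (∑ s ∈ range (m + 1), (((s : ℕ) : ℝ) * (-x) ^ (s - 1) * (-1)) / (s.factorial : ℝ)) x := by
          apply HasDerivAt.fun_sum
          intro s _
          exact ((hasDerivAt_neg x).fun_pow s).div_const _
        convert h3 using 1
        rw [sum_range_succ', ← sum_neg_distrib]
        simp only [Nat.cast_zero, zero_mul, zero_div, add_zero, Nat.add_sub_cancel]
        apply sum_congr rfl
        intro s _
        rw [Nat.factorial_succ]
        push_cast
        have h4 : (s.factorial : ℝ) ≠ 0 := by positivity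
        have h5 : ((s : ℝ) + 1) ≠ 0 := by positivity
        field_simp
      have h4 : HasDerivAt F ((-1 : ℝ) ^ (m + 1) * (-Real.exp (-x) - -∑ s ∈ range m, (-x) ^ s / s.factorial)) x :=
        (h1.sub h2).const_mul ((-1 : ℝ) ^ (m + 1))
      refine h4.congr_deriv ?_
      rw [pow_succ]
      ring
    have hmono : MonotoneOn F (Set.Ici 0) := by
      apply monotoneOn_of_deriv_nonneg (convex_Ici 0)
      · exact fun x _ => (hd x).continuousAt.continuousWithinAt
      · exact fun x _ => (hd x).differentiableAt.differentiableWithinAt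
      · intro x hx
        rw [interior_Ici] at hx
        rw [(hd x).deriv]
        exact ih x (le_of_lt hx)
    have h0 : F 0 = 0 := by
      rw [hF]
      simp only [neg_zero, Real.exp_zero]
      rw [sum_range_succ']
      simp
    have := hmono (Set.mem_Ici.2 le_rfl) (Set.mem_Ici.2 hμ) hμ
    rw [h0] at this
    exact this

theorem exp_alt2 (m : ℕ) (μ : ℝ) (hμ : 0 ≤ μ) :
    (-1 : ℝ) ^ m * (Real.exp (-μ) - ∑ s ∈ range m, (-μ) ^ s / s.factorial) ≤ μ ^ m / m.factorial := by
  have h := exp_alt (m + 1) μ hμ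
  rw [sum_range_succ] at h
  have e : (-1 : ℝ) ^ (m + 1) * (Real.exp (-μ) - (∑ s ∈ range m, (-μ) ^ s / s.factorial + (-μ) ^ m / m.factorial)) =
      -((-1 : ℝ) ^ m * (Real.exp (-μ) - ∑ s ∈ range m, (-μ) ^ s / s.factorial)) + ((-1 : ℝ) ^ m * (-1) ^ m) * (μ ^ m / m.factorial) := by
    rw [neg_pow μ m, pow_succ]
    ring
  rw [e] at h
  have e2 : (-1 : ℝ) ^ m * (-1 : ℝ) ^ m = 1 := by rw [← mul_pow]; norm_num
  rw [e2] at h
  linarith

/-- the Poisson distribution from the binomial moments of order at most `R` -/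
theorem poisson_of_moments {Ω : Type*} (S : Finset Ω) (N : Ω → ℕ) (μ ε : ℝ) (hμ : 0 ≤ μ) (hS : 0 < S.card) (j R : ℕ)
    (hj : j ≤ R) (h : ∀ r ≤ R, |(∑ ω ∈ S, ((N ω).choose r : ℝ)) / S.card - μ ^ r / r.factorial| ≤ ε) :
    |((S.filter (fun ω => N ω = j)).card : ℝ) / S.card - Real.exp (-μ) * μ ^ j / j.factorial| ≤
      μ ^ R / (j.factorial * (R - j).factorial) + 2 ^ (R + 1) * ε := by
  have hε : 0 ≤ ε := (abs_nonneg _).trans (h 0 (Nat.zero_le _))
  have hc : (0 : ℝ) < S.card := by exact_mod_cast hS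
  set B : ℕ → ℝ := fun r => (∑ ω ∈ S, ((N ω).choose r : ℝ)) / S.card with hB
  set P : ℝ := ((S.filter (fun ω => N ω = j)).card : ℝ) / S.card with hP
  -- first part
  have key : ∀ c : ℝ → ℝ, c = c → True := fun _ _ => trivial
  have e1 : (-1 : ℝ) ^ (R - j) * (P - ∑ r ∈ Ico j R, (-1 : ℝ) ^ (r - j) * (r.choose j * B r)) =
      (∑ ω ∈ S, (-1 : ℝ) ^ (R - j) * ((if N ω = j then 1 else 0) -
        ∑ r ∈ Ico j R, (-1 : ℝ) ^ (r - j) * (r.choose j * (N ω).choose r))) / S.card := by
    rw [← mul_sum, sum_sub_distrib, sum_comm, mul_div_assoc, sub_div]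
    congr 2
    · rw [hP, card_filter]
      push_cast
      rfl
    · rw [sum_div]
      apply sum_congr rfl
      intro r _
      rw [← mul_sum, ← mul_sum, hB]
      ring
  have a0 : 0 ≤ (-1 : ℝ) ^ (R - j) * (P - ∑ r ∈ Ico j R, (-1 : ℝ) ^ (r - j) * (r.choose j * B r)) := by
    rw [e1]
    exact div_nonneg (sum_nonneg fun ω _ => (bonf (N ω) j R hj).1) hc.le
  have a1 : (-1 : ℝ) ^ (R - j) * (P - ∑ r ∈ Ico j R, (-1 : ℝ) ^ (r - j) * (r.choose j * B r)) ≤ R.choose j * B R := by
    rw [e1, hB]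
    simp only
    rw [← mul_div_assoc, mul_sum]
    exact div_le_div_of_nonneg_right (sum_le_sum fun ω _ => (bonf (N ω) j R hj).2) hc.le
  -- second part
  set Q : ℝ := Real.exp (-μ) * μ ^ j / j.factorial with hQ
  have hjf : (0 : ℝ) < j.factorial := by positivity
  have e2 : ∀ r, j ≤ r → (r.choose j : ℝ) * (μ ^ r / r.factorial) = μ ^ j / j.factorial * (μ ^ (r - j) / (r - j).factorial) := by
    intro r hr
    rw [Nat.cast_choose ℝ hr]
    have h1 : (r.factorial : ℝ) ≠ 0 := by positivity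
    have h2 : ((r - j).factorial : ℝ) ≠ 0 := by positivity
    have h3 : (j.factorial : ℝ) ≠ 0 := by positivity
    have h4 : μ ^ r = μ ^ j * μ ^ (r - j) := by rw [← pow_add]; congr 1; omega
    rw [h4]
    field_simp
  have e3 : (-1 : ℝ) ^ (R - j) * (Q - ∑ r ∈ Ico j R, (-1 : ℝ) ^ (r - j) * (r.choose j * (μ ^ r / r.factorial))) =
      μ ^ j / j.factorial * ((-1 : ℝ) ^ (R - j) * (Real.exp (-μ) - ∑ s ∈ range (R - j), (-μ) ^ s / s.factorial)) := by
    have h1 : ∑ r ∈ Ico j R, (-1 : ℝ) ^ (r - j) * ((r.choose j : ℝ) * (μ ^ r / r.factorial)) =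
        μ ^ j / j.factorial * ∑ s ∈ range (R - j), (-μ) ^ s / s.factorial := by
      rw [sum_Ico_eq_sum_range, mul_sum]
      apply sum_congr rfl
      intro s _
      rw [e2 (j + s) (Nat.le_add_right _ _), Nat.add_sub_cancel_left, neg_pow μ s]
      ring
    rw [h1, hQ]
    ring
  have hμj : 0 ≤ μ ^ j / j.factorial := by positivity
  have b0 : 0 ≤ (-1 : ℝ) ^ (R - j) * (Q - ∑ r ∈ Ico j R, (-1 : ℝ) ^ (r - j) * (r.choose j * (μ ^ r / r.factorial))) := by
    rw [e3]
    exact mul_nonneg hμj (exp_alt _ μ hμ)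
  have b1 : (-1 : ℝ) ^ (R - j) * (Q - ∑ r ∈ Ico j R, (-1 : ℝ) ^ (r - j) * (r.choose j * (μ ^ r / r.factorial))) ≤
      R.choose j * (μ ^ R / R.factorial) := by
    rw [e3, e2 R hj]
    exact mul_le_mul_of_nonneg_left (exp_alt2 _ μ hμ) hμj
  -- the difference of the sums
  have hsum : |∑ r ∈ Ico j R, (-1 : ℝ) ^ (r - j) * (r.choose j * B r) -
      ∑ r ∈ Ico j R, (-1 : ℝ) ^ (r - j) * (r.choose j * (μ ^ r / r.factorial))| ≤ ∑ r ∈ Ico j R, (2 : ℝ) ^ r * ε := by
    rw [← sum_sub_distrib]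
    refine (abs_sum_le_sum_abs _ _).trans (sum_le_sum fun r hr => ?_)
    rw [mem_Ico] at hr
    have e : (-1 : ℝ) ^ (r - j) * (r.choose j * B r) - (-1 : ℝ) ^ (r - j) * (r.choose j * (μ ^ r / r.factorial)) =
        (-1 : ℝ) ^ (r - j) * (r.choose j * (B r - μ ^ r / r.factorial)) := by ring
    rw [e, abs_mul, abs_pow, abs_neg, abs_one, one_pow, one_mul, abs_mul, Nat.abs_cast]
    have h1 : (r.choose j : ℝ) ≤ 2 ^ r := by exact_mod_cast Nat.choose_le_two_pow r j
    exact mul_le_mul h1 (h r (by omega)) (abs_nonneg _) (by positivity)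
  have hR := h R le_rfl
  have hRc : (R.choose j : ℝ) ≤ 2 ^ R := by exact_mod_cast Nat.choose_le_two_pow R j
  have hBR : (R.choose j : ℝ) * B R ≤ R.choose j * (μ ^ R / R.factorial) + 2 ^ R * ε := by
    have h1 : B R ≤ μ ^ R / R.factorial + ε := by
      have := (abs_le.1 hR).2
      linarith
    calc (R.choose j : ℝ) * B R ≤ R.choose j * (μ ^ R / R.factorial + ε) := by gcongr
      _ = R.choose j * (μ ^ R / R.factorial) + R.choose j * ε := by ring
      _ ≤ _ := by gcongr
  have hfin : (R.choose j : ℝ) * (μ ^ R / R.factorial) = μ ^ R / (j.factorial * (R - j).factorial) := by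
    rw [Nat.cast_choose ℝ hj]
    have h1 : (R.factorial : ℝ) ≠ 0 := by positivity
    have h2 : ((R - j).factorial : ℝ) ≠ 0 := by positivity
    have h3 : (j.factorial : ℝ) ≠ 0 := by positivity
    field_simp
  have hgeo : ∑ r ∈ Ico j R, (2 : ℝ) ^ r * ε + 2 ^ R * ε ≤ 2 ^ (R + 1) * ε := by
    rw [← sum_mul, ← add_mul]
    apply mul_le_mul_of_nonneg_right _ hε
    have h1 : ∑ r ∈ Ico j R, (2 : ℝ) ^ r ≤ ∑ r ∈ range R, (2 : ℝ) ^ r := by
      apply sum_le_sum_of_subset_of_nonneg
      · intro x hx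
        rw [mem_Ico] at hx
        exact mem_range.2 hx.2
      · intro i _ _; positivity
    have h2 : ∑ r ∈ range R, (2 : ℝ) ^ r ≤ 2 ^ R := by
      rw [geom_sum_eq (by norm_num)]
      norm_num
    rw [pow_succ]
    linarith
  have hσ : ((-1 : ℝ) ^ (R - j)) * ((-1 : ℝ) ^ (R - j)) = 1 := by rw [← mul_pow]; norm_num
  set σ : ℝ := (-1 : ℝ) ^ (R - j)
  set SB := ∑ r ∈ Ico j R, (-1 : ℝ) ^ (r - j) * (r.choose j * B r)
  set SM := ∑ r ∈ Ico j R, (-1 : ℝ) ^ (r - j) * (r.choose j * (μ ^ r / r.factorial))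
  have hPQ : P - Q = σ * (σ * (P - SB) - σ * (Q - SM)) + (SB - SM) := by
    have : σ * (σ * (P - SB) - σ * (Q - SM)) = (σ * σ) * ((P - SB) - (Q - SM)) := by ring
    rw [this, hσ]
    ring
  have hσa : |σ| = 1 := by
    simp [σ]
  rw [hPQ]
  refine (abs_add_le _ _).trans ?_
  rw [abs_mul, hσa, one_mul]
  have h3 : |σ * (P - SB) - σ * (Q - SM)| ≤ R.choose j * (μ ^ R / R.factorial) + 2 ^ R * ε := by
    rw [abs_le]
    have : 0 ≤ (2 : ℝ) ^ R * ε := by positivity
    constructor
    · linarith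
    · linarith
  rw [← hfin]
  linarith

end Pool.Agent.H11P
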