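import Mathlib

/-! The von Mangoldt function in progressions: definitions. -/

set_option autoImplicit false

namespace Pool.Agent.H11P
open Finset Filter

theorem ev_pow (k : ℕ) (c s : ℝ) (hs : 0 < s) : ∀ᶠ H : ℕ in atTop, c * Real.log H ^ k ≤ (H : ℝ) ^ s := by
  have h1 : (fun x : ℝ => Real.log x ^ (k : ℝ)) =o[atTop] fun x => x ^ s := isLittleO_log_rpow_rpow_atTop (k : ℝ) hs
  have h2 : (0 : ℝ) < 1 / (|c| + 1) := by positivity
  have h3 := (h1.bound h2).and (eventually_ge_atTop (1 : ℝ))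
  have h4 := tendsto_natCast_atTop_atTop (R := ℝ) |>.eventually h3
  filter_upwards [h4] with H hH
  obtain ⟨h5, h6⟩ := hH
  have hL : 0 ≤ Real.log H := Real.log_nonneg h6
  rw [Real.rpow_natCast, Real.norm_of_nonneg (by positivity), Real.norm_of_nonneg (by positivity)] at h5
  have h7 : 0 ≤ Real.log (H : ℝ) ^ k := by positivity
  calc c * Real.log H ^ k ≤ (|c| + 1) * Real.log H ^ k := by
        apply mul_le_mul_of_nonneg_right _ h7
        have := le_abs_self c
        linarith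
    _ ≤ (|c| + 1) * (1 / (|c| + 1) * (H : ℝ) ^ s) := by gcongr
    _ = (H : ℝ) ^ s := by field_simp

theorem ev_log (c : ℝ) : ∀ᶠ H : ℕ in atTop, c ≤ Real.log H :=
  (Real.tendsto_log_atTop.comp (tendsto_natCast_atTop_atTop (R := ℝ))).eventually_ge_atTop c

/-- sums over progressions -/
noncomputable def lamAP (y q c : ℕ) : ℝ := ∑ n ∈ (Icc 1 y).filter (fun n => n ≡ c [MOD q]), ArithmeticFunction.vonMangoldt n

noncomputable def lam1 (y : ℕ) : ℝ := ∑ n ∈ Icc 1 y, ArithmeticFunction.vonMangoldt n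

/-- the Siegel-Walfisz theorem, uniformly up to `x` -/
def SWU : Prop := ∀ U K : ℕ, ∀ᶠ x : ℕ in atTop, ∀ y : ℕ, y ≤ x → ∀ q : ℕ, 1 ≤ q → (q : ℝ) ≤ Real.log x ^ K →
    ∀ c : ℕ, c.Coprime q → |lamAP y q c - y / (Nat.totient q : ℝ)| ≤ x / Real.log x ^ U

end Pool.Agent.H11P
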