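import Mathlib
import Pool.Agent.H11P.LamDef
import Pool.Agent.H11P.CzDef

/-! Primes in a progression of integers. -/

set_option autoImplicit false

namespace Pool.Agent.H11P

open Finset Filter
open ArithmeticFunction (vonMangoldt)

def cN (a M S : ℕ) : ℕ := ((range S).filter (fun t => (a + M * t).Prime)).card

noncomputable def wN (a M S : ℕ) : ℝ := ∑ t ∈ range S, vonMangoldt (a + M * t)

theorem lam_step (N0 M a : ℕ) (hM : 1 ≤ M) (h : N0 ≡ a [MOD M]) :
    lamAP (N0 + M - 1) M a = lamAP (N0 - 1) M a + vonMangoldt N0 := by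
  have key : ∀ n, N0 ≤ n → n ≤ N0 + M - 1 → n ≡ a [MOD M] → n = N0 := by
    intro n h1 h2 h3
    have h4 : N0 ≡ n [MOD M] := h.trans h3.symm
    have h5 := (Nat.modEq_iff_dvd' h1).1 h4
    have h6 := Nat.eq_zero_of_dvd_of_lt h5 (by omega)
    omega
  unfold lamAP
  rcases Nat.eq_zero_or_pos N0 with h0 | h0
  · subst h0
    have e : (Icc 1 (0 + M - 1)).filter (fun n => n ≡ a [MOD M]) = ∅ := by
      apply filter_eq_empty_iff.2
      intro n hn h3
      rw [mem_Icc] at hn
      have := key n (Nat.zero_le _) hn.2 h3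
      omega
    rw [e]
    simp
  · have e : (Icc 1 (N0 + M - 1)).filter (fun n => n ≡ a [MOD M]) =
        insert N0 ((Icc 1 (N0 - 1)).filter (fun n => n ≡ a [MOD M])) := by
      ext n
      rw [mem_insert, mem_filter, mem_filter, mem_Icc, mem_Icc]
      constructor
      · rintro ⟨⟨h1, h2⟩, h3⟩
        rcases lt_or_ge n N0 with h4 | h4
        · right; exact ⟨⟨h1, by omega⟩, h3⟩
        · left; exact key n h4 h2 h3
      · rintro (rfl | ⟨⟨h1, h2⟩, h3⟩)
        · exact ⟨⟨h0, by omega⟩, h⟩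
        · exact ⟨⟨h1, by omega⟩, h3⟩
    rw [e, sum_insert, add_comm]
    rw [mem_filter, mem_Icc]
    omega

theorem wN_eq (a M S : ℕ) (hM : 1 ≤ M) : wN a M S = lamAP (a + M * S - 1) M a - lamAP (a - 1) M a := by
  induction S with
  | zero => simp [wN]
  | succ S ih =>
    unfold wN at ih ⊢
    rw [sum_range_succ, ih]
    have h : a + M * S ≡ a [MOD M] := by
      unfold Nat.ModEq
      rw [Nat.add_mul_mod_self_left]
    have h2 := lam_step (a + M * S) M a hM h
    have e : a + M * (S + 1) - 1 = a + M * S + M - 1 := by ring_nf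
    rw [e, h2]
    ring

/-- the part of the sum over the prime powers which are no primes -/
theorem wN_np (a M S x : ℕ) (hM : 1 ≤ M) (hx : a + M * S ≤ x + 1) (hx1 : 1 ≤ x) :
    ∑ t ∈ (range S).filter (fun t => ¬ (a + M * t).Prime), vonMangoldt (a + M * t) ≤ 2 * √(x : ℝ) * Real.log x := by
  have h1 := Chebyshev.psi_sub_theta_le (x := (x : ℝ)) (by exact_mod_cast hx1)
  rw [Chebyshev.psi_sub_theta_eq_sum_not_prime, Nat.floor_natCast] at h1
  refine le_trans ?_ h1
  have h2 : ∑ t ∈ (range S).filter (fun t => ¬ (a + M * t).Prime), vonMangoldt (a + M * t) =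
      ∑ n ∈ ((range S).filter (fun t => ¬ (a + M * t).Prime)).image (fun t => a + M * t), vonMangoldt n := by
    rw [sum_image]
    intro t _ t' _ h
    simp only at h
    exact Nat.eq_of_mul_eq_mul_left hM (by omega)
  rw [h2]
  have h3 : ∑ n ∈ ((range S).filter (fun t => ¬ (a + M * t).Prime)).image (fun t => a + M * t), vonMangoldt n =
      ∑ n ∈ (((range S).filter (fun t => ¬ (a + M * t).Prime)).image (fun t => a + M * t)).filter (fun n => n ≠ 0), vonMangoldt n := by
    rw [sum_filter]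
    apply sum_congr rfl
    intro n _
    by_cases hn : n = 0
    · simp [hn]
    · simp [hn]
  rw [h3]
  apply sum_le_sum_of_subset_of_nonneg
  · intro n hn
    rw [mem_filter, mem_image] at hn
    obtain ⟨⟨t, ht, rfl⟩, hn0⟩ := hn
    rw [mem_filter, mem_range] at ht
    rw [mem_filter, mem_Ioc]
    refine ⟨⟨by omega, ?_⟩, ht.2⟩
    have h5 : M * t + M ≤ M * S := by
      calc M * t + M = M * (t + 1) := by ring
        _ ≤ M * S := Nat.mul_le_mul_left _ ht.1
    omega
  · intro i _ _
    exact ArithmeticFunction.vonMangoldt_nonneg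

theorem cN_lower (a M S x : ℕ) (hM : 1 ≤ M) (hx : a + M * S ≤ x + 1) (hx1 : 2 ≤ x) :
    wN a M S - 2 * √(x : ℝ) * Real.log x ≤ cN a M S * Real.log x := by
  have h1 := wN_np a M S x hM hx (by omega)
  have h2 : wN a M S = ∑ t ∈ (range S).filter (fun t => (a + M * t).Prime), vonMangoldt (a + M * t) +
      ∑ t ∈ (range S).filter (fun t => ¬ (a + M * t).Prime), vonMangoldt (a + M * t) := by
    unfold wN
    rw [sum_filter_add_sum_filter_not]
  have h3 : ∑ t ∈ (range S).filter (fun t => (a + M * t).Prime), vonMangoldt (a + M * t) ≤ cN a M S * Real.log x := by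
    have : ∑ t ∈ (range S).filter (fun t => (a + M * t).Prime), vonMangoldt (a + M * t) ≤
        ∑ _t ∈ (range S).filter (fun t => (a + M * t).Prime), Real.log x := by
      apply sum_le_sum
      intro t ht
      rw [mem_filter, mem_range] at ht
      refine ArithmeticFunction.vonMangoldt_le_log.trans ?_
      apply Real.log_le_log
      · exact_mod_cast ht.2.pos
      · have h5 : M * t + M ≤ M * S := by
          calc M * t + M = M * (t + 1) := by ring
            _ ≤ M * S := Nat.mul_le_mul_left _ ht.1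
        have : a + M * t ≤ x := by omega
        exact_mod_cast this
    rw [sum_const, nsmul_eq_mul] at this
    exact this
  linarith

theorem cN_upper (a M S : ℕ) (Z : ℝ) (hM : 1 ≤ M) (hZ : 2 ≤ Z) :
    (cN a M S : ℝ) ≤ Z + 1 + wN a M S / Real.log Z := by
  have hlZ : 0 < Real.log Z := Real.log_pos (by linarith)
  have h1 : (cN a M S : ℝ) = (((range S).filter (fun t => (a + M * t).Prime)).filter (fun t => ((a + M * t : ℕ) : ℝ) ≤ Z)).card +
      (((range S).filter (fun t => (a + M * t).Prime)).filter (fun t => ¬ ((a + M * t : ℕ) : ℝ) ≤ Z)).card := by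
    unfold cN
    rw [← Finset.card_filter_add_card_filter_not (s := (range S).filter (fun t => (a + M * t).Prime)) (p := fun t => ((a + M * t : ℕ) : ℝ) ≤ Z)]
    push_cast
    rfl
  have h2 : ((((range S).filter (fun t => (a + M * t).Prime)).filter (fun t => ((a + M * t : ℕ) : ℝ) ≤ Z)).card : ℝ) ≤ Z + 1 := by
    have h3 : (((range S).filter (fun t => (a + M * t).Prime)).filter (fun t => ((a + M * t : ℕ) : ℝ) ≤ Z)) ⊆ range (⌊Z⌋₊ + 1) := by
      intro t ht
      rw [mem_filter] at ht
      rw [mem_range]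
      have h4 : a + M * t ≤ ⌊Z⌋₊ := Nat.le_floor ht.2
      have h5 : t ≤ M * t := Nat.le_mul_of_pos_left _ hM
      omega
    have h4 := card_le_card h3
    rw [card_range] at h4
    have h5 : ((((range S).filter (fun t => (a + M * t).Prime)).filter (fun t => ((a + M * t : ℕ) : ℝ) ≤ Z)).card : ℝ) ≤ ((⌊Z⌋₊ + 1 : ℕ) : ℝ) := by
      exact_mod_cast h4
    rw [Nat.cast_add, Nat.cast_one] at h5
    have := Nat.floor_le (by linarith : 0 ≤ Z)
    linarith
  have h3 : ((((range S).filter (fun t => (a + M * t).Prime)).filter (fun t => ¬ ((a + M * t : ℕ) : ℝ) ≤ Z)).card : ℝ) ≤ wN a M S / Real.log Z := by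
    rw [le_div_iff₀ hlZ, ← nsmul_eq_mul, ← sum_const]
    unfold wN
    refine le_trans (sum_le_sum (g := fun t => vonMangoldt (a + M * t)) ?_) ?_
    · intro t ht
      rw [mem_filter, mem_filter] at ht
      rw [ArithmeticFunction.vonMangoldt_apply_prime ht.1.2]
      apply Real.log_le_log (by linarith)
      exact le_of_lt (not_le.1 ht.2)
    · apply sum_le_sum_of_subset_of_nonneg
      · intro t ht
        exact (mem_filter.1 (mem_filter.1 ht).1).1
      · intro i _ _
        exact ArithmeticFunction.vonMangoldt_nonneg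
  linarith

/-- natural numbers in a progression -/
theorem cN_bounds (a M S x : ℕ) (E Z : ℝ) (hM : 1 ≤ M) (hx : a + M * S ≤ x + 1) (hx1 : 2 ≤ x) (ha : a.Coprime M)
    (hE : ∀ y : ℕ, y ≤ x → |lamAP y M a - y / (Nat.totient M : ℝ)| ≤ E) (hZ : 2 ≤ Z) :
    (M : ℝ) * S / Nat.totient M - 1 - 2 * E - 2 * √(x : ℝ) * Real.log x ≤ cN a M S * Real.log x ∧
    (cN a M S : ℝ) ≤ Z + 1 + ((M : ℝ) * S / Nat.totient M + 1 + 2 * E) / Real.log Z := by
  have hφ0 : 1 ≤ Nat.totient M := Nat.totient_pos.2 hM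
  have hφ : (1 : ℝ) ≤ Nat.totient M := by exact_mod_cast hφ0
  have hw : |wN a M S - (M : ℝ) * S / Nat.totient M| ≤ 1 + 2 * E := by
    rcases Nat.eq_zero_or_pos S with hS | hS
    · subst hS
      have : 0 ≤ E := (abs_nonneg _).trans (hE 0 (Nat.zero_le _))
      unfold wN
      simp
      linarith
    rw [wN_eq a M S hM]
    have h1 := hE (a + M * S - 1) (by omega)
    have h2 := hE (a - 1) (by
      have : 1 ≤ M * S := Nat.mul_pos hM hS
      omega)
    have h3 : |((a + M * S - 1 : ℕ) : ℝ) / (Nat.totient M : ℝ) - ((a - 1 : ℕ) : ℝ) / (Nat.totient M : ℝ) - (M : ℝ) * S / Nat.totient M| ≤ 1 := by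
      rw [← sub_div, ← sub_div, abs_div, abs_of_pos (by linarith : (0 : ℝ) < Nat.totient M), div_le_one (by linarith)]
      have hMS : 1 ≤ M * S := Nat.mul_pos hM hS
      rcases Nat.eq_zero_or_pos a with h | h
      · subst h
        have e : ((0 + M * S - 1 : ℕ) : ℝ) = (M : ℝ) * S - 1 := by
          rw [zero_add, Nat.cast_sub hMS]; push_cast; ring
        rw [e]
        have : (M : ℝ) * S - 1 - ((0 - 1 : ℕ) : ℝ) - M * S = -1 := by simp
        rw [this, abs_neg, abs_one]
        exact hφ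
      · have e : ((a + M * S - 1 : ℕ) : ℝ) = (a : ℝ) + (M : ℝ) * S - 1 := by
          rw [Nat.cast_sub (by omega)]; push_cast; ring
        have e2 : ((a - 1 : ℕ) : ℝ) = (a : ℝ) - 1 := by
          rw [Nat.cast_sub h]; simp
        rw [e, e2]
        have : (a : ℝ) + M * S - 1 - (a - 1) - M * S = 0 := by ring
        rw [this]
        simp
    rw [abs_le] at h1 h2 h3 ⊢
    constructor <;> linarith
  have hl := cN_lower a M S x hM hx hx1
  have hu := cN_upper a M S Z hM hZ
  rw [abs_le] at hw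
  refine ⟨by linarith, hu.trans ?_⟩
  have : wN a M S / Real.log Z ≤ ((M : ℝ) * S / Nat.totient M + 1 + 2 * E) / Real.log Z := by
    apply div_le_div_of_nonneg_right _ (Real.log_nonneg (by linarith))
    linarith
  linarith

theorem cZ_pos (A : ℤ) (M S : ℕ) (hA : 0 ≤ A) : cZ A M S = cN A.toNat M S := by
  unfold cZ cN
  congr 1
  apply filter_congr
  intro t _
  have : (A + M * t).natAbs = A.toNat + M * t := by
    have h1 : (0 : ℤ) ≤ (M : ℤ) * t := by positivity
    zify
    rw [abs_of_nonneg (by linarith), Int.toNat_of_nonneg hA]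
  rw [this]

theorem cZ_neg (A : ℤ) (M S : ℕ) (hA : ∀ t : ℕ, t < S → A + M * t < 0) (hS : 1 ≤ S) :
    cZ A M S = cN (-(A + M * (S - 1 : ℕ))).toNat M S := by
  unfold cZ cN
  apply card_bij' (fun t _ => S - 1 - t) (fun t _ => S - 1 - t)
  · intro t ht
    rw [mem_filter, mem_range] at ht ⊢
    refine ⟨by omega, ?_⟩
    have h1 := hA (S - 1) (by omega)
    have e : (-(A + M * (S - 1 : ℕ))).toNat + M * (S - 1 - t) = (A + M * t).natAbs := by
      have h2 := hA t ht.1
      zify
      rw [abs_of_neg h2, Int.toNat_of_nonneg (by linarith), Nat.cast_sub (by omega : t ≤ S - 1)]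
      ring
    rw [e]
    exact ht.2
  · intro t ht
    rw [mem_filter, mem_range] at ht ⊢
    refine ⟨by omega, ?_⟩
    have h1 := hA (S - 1) (by omega)
    have e : (A + M * ((S - 1 - t : ℕ) : ℤ)).natAbs = (-(A + M * (S - 1 : ℕ))).toNat + M * t := by
      have h2 := hA (S - 1 - t) (by omega)
      zify
      rw [abs_of_neg h2, Int.toNat_of_nonneg (by linarith), Nat.cast_sub (by omega : t ≤ S - 1)]
      ring
    rw [e]
    exact ht.2
  · intro t ht
    rw [mem_filter, mem_range] at ht
    omega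
  · intro t ht
    rw [mem_filter, mem_range] at ht
    omega

theorem cZ_split (A : ℤ) (M S1 S2 : ℕ) : cZ A M (S1 + S2) = cZ A M S1 + cZ (A + M * S1) M S2 := by
  unfold cZ
  rw [range_eq_Ico, ← Finset.Ico_union_Ico_eq_Ico (Nat.zero_le S1) (Nat.le_add_right S1 S2), filter_union, card_union_of_disjoint]
  · congr 1
    · rw [range_eq_Ico]
    apply card_bij' (fun t _ => t - S1) (fun t _ => t + S1)
    · intro t ht
      simp only [mem_filter, mem_Ico, mem_range] at ht ⊢
      refine ⟨by omega, ?_⟩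
      have e : A + M * S1 + M * ((t - S1 : ℕ) : ℤ) = A + M * t := by
        rw [Nat.cast_sub (by omega)]; ring
      rw [e]
      exact ht.2
    · intro t ht
      simp only [mem_filter, mem_Ico, mem_range] at ht ⊢
      refine ⟨by omega, ?_⟩
      have e : A + M * ((t + S1 : ℕ) : ℤ) = A + M * S1 + M * t := by
        push_cast; ring
      rw [e]
      exact ht.2
    · intro t ht
      simp only [mem_filter, mem_Ico, mem_range] at ht
      omega
    · intro t ht
      simp only [mem_filter, mem_Ico, mem_range] at ht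
      omega
  · rw [Finset.disjoint_left]
    intro t h1 h2
    simp only [mem_filter, mem_Ico] at h1 h2
    omega

theorem cop_toNat (A : ℤ) (M : ℕ) (h : IsCoprime A (M : ℤ)) (hA : 0 ≤ A) : A.toNat.Coprime M := by
  rw [← Nat.isCoprime_iff_coprime, Int.toNat_of_nonneg hA]
  exact h

theorem cZ_bounds (A : ℤ) (M S x : ℕ) (E Z : ℝ) (hM : 1 ≤ M) (hx : A.natAbs + M * S ≤ x) (hx1 : 2 ≤ x)
    (hA : IsCoprime A (M : ℤ))
    (hE : ∀ a : ℕ, a.Coprime M → ∀ y : ℕ, y ≤ x → |lamAP y M a - y / (Nat.totient M : ℝ)| ≤ E) (hZ : 2 ≤ Z) :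
    (M : ℝ) * S / Nat.totient M - 2 - 4 * E - 4 * √(x : ℝ) * Real.log x ≤ cZ A M S * Real.log x ∧
    (cZ A M S : ℝ) ≤ 2 * Z + 2 + ((M : ℝ) * S / Nat.totient M + 2 + 4 * E) / Real.log Z := by
  have hlZ : 0 < Real.log Z := Real.log_pos (by linarith)
  have hE0 : 0 ≤ E := (abs_nonneg _).trans (hE 1 (Nat.coprime_one_left M) 0 (Nat.zero_le _))
  have hlx : 0 ≤ Real.log (x : ℝ) := Real.log_natCast_nonneg x
  have hsx : 0 ≤ √(x : ℝ) * Real.log x := by positivity
  have hdz : 0 ≤ (1 + 2 * E) / Real.log Z := by positivity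
  -- the two pure cases
  have pos : ∀ (A : ℤ) (S : ℕ), A.natAbs + M * S ≤ x → IsCoprime A (M : ℤ) → 0 ≤ A →
      (M : ℝ) * S / Nat.totient M - 1 - 2 * E - 2 * √(x : ℝ) * Real.log x ≤ cZ A M S * Real.log x ∧
      (cZ A M S : ℝ) ≤ Z + 1 + ((M : ℝ) * S / Nat.totient M + 1 + 2 * E) / Real.log Z := by
    intro A S hx hA hA0
    rw [cZ_pos A M S hA0]
    have hc := cop_toNat A M hA hA0
    exact cN_bounds A.toNat M S x E Z hM (by omega) hx1 hc (hE _ hc) hZ
  have neg : ∀ (A : ℤ) (S : ℕ), A.natAbs + M * S ≤ x → IsCoprime A (M : ℤ) → 1 ≤ S → (∀ t : ℕ, t < S → A + M * t < 0) →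
      (M : ℝ) * S / Nat.totient M - 1 - 2 * E - 2 * √(x : ℝ) * Real.log x ≤ cZ A M S * Real.log x ∧
      (cZ A M S : ℝ) ≤ Z + 1 + ((M : ℝ) * S / Nat.totient M + 1 + 2 * E) / Real.log Z := by
    intro A S hx hA hS hneg
    rw [cZ_neg A M S hneg hS]
    have h1 := hneg (S - 1) (by omega)
    have hco : IsCoprime (-(A + M * (S - 1 : ℕ))) (M : ℤ) := (IsCoprime.add_mul_left_left hA _).neg_left
    have hc := cop_toNat _ M hco (by linarith)
    refine cN_bounds _ M S x E Z hM ?_ hx1 hc (hE _ hc) hZ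
    have h2 := hneg 0 (by omega)
    have h3 : (0 : ℤ) ≤ (M : ℤ) * ((S - 1 : ℕ) : ℤ) := by positivity
    have h4 : (-(A + M * (S - 1 : ℕ))).toNat ≤ A.natAbs := by
      zify
      rw [Int.toNat_of_nonneg (by linarith)]
      have := neg_le_abs A
      linarith
    omega
  rcases le_or_gt 0 A with h0 | h0
  · obtain ⟨h1, h2⟩ := pos A S hx hA h0
    refine ⟨by linarith, h2.trans ?_⟩
    have : ((M : ℝ) * S / Nat.totient M + 1 + 2 * E) / Real.log Z ≤ ((M : ℝ) * S / Nat.totient M + 2 + 4 * E) / Real.log Z := by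
      apply div_le_div_of_nonneg_right _ hlZ.le
      linarith
    linarith
  · -- the number of negative terms
    obtain ⟨n0, hn0⟩ : ∃ n0 : ℕ, ∀ t : ℕ, t < n0 ↔ A + M * t < 0 := by
      refine ⟨((-A).toNat + M - 1) / M, fun t => ?_⟩
      rw [Nat.lt_iff_add_one_le, Nat.le_div_iff_mul_le hM]
      have hAn : ((-A).toNat : ℤ) = -A := Int.toNat_of_nonneg (by linarith)
      constructor
      · intro h
        have h1 : (t + 1) * M + 1 ≤ (-A).toNat + M := by omega
        have h2 : (((t + 1) * M + 1 : ℕ) : ℤ) ≤ (((-A).toNat + M : ℕ) : ℤ) := by exact_mod_cast h1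
        push_cast at h2
        rw [Int.toNat_of_nonneg (by linarith)] at h2
        linarith
      · intro h
        have h1 : (((t + 1) * M + 1 : ℕ) : ℤ) ≤ (((-A).toNat + M : ℕ) : ℤ) := by
          push_cast
          rw [Int.toNat_of_nonneg (by linarith)]
          linarith
        have h2 : (t + 1) * M + 1 ≤ (-A).toNat + M := by exact_mod_cast h1
        omega
    have hn0p : 1 ≤ n0 := (hn0 0).2 (by simpa using h0)
    rcases le_or_gt S n0 with hS | hS
    · rcases Nat.eq_zero_or_pos S with hS0 | hS0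
      · subst hS0
        have : (0 : ℝ) ≤ (2 + 4 * E) / Real.log Z := by positivity
        unfold cZ
        simp
        constructor <;> nlinarith
      obtain ⟨h1, h2⟩ := neg A S hx hA hS0 (fun t ht => (hn0 t).1 (by omega))
      refine ⟨by linarith, h2.trans ?_⟩
      have : ((M : ℝ) * S / Nat.totient M + 1 + 2 * E) / Real.log Z ≤ ((M : ℝ) * S / Nat.totient M + 2 + 4 * E) / Real.log Z := by
        apply div_le_div_of_nonneg_right _ hlZ.le
        linarith
      linarith
    · obtain ⟨S2, rfl⟩ := Nat.exists_eq_add_of_le hS.le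
      rw [cZ_split]
      have hb : (A + M * n0).natAbs + M * S2 ≤ A.natAbs + M * (n0 + S2) := by
        have := Int.natAbs_add_le A (M * n0 : ℤ)
        have h2 : (M * n0 : ℤ).natAbs = M * n0 := by
          rw [Int.natAbs_mul, Int.natAbs_natCast, Int.natAbs_natCast]
        rw [h2] at this
        calc (A + M * n0).natAbs + M * S2 ≤ A.natAbs + M * n0 + M * S2 := by omega
          _ = A.natAbs + M * (n0 + S2) := by ring
      have hb2 : A.natAbs + M * n0 ≤ A.natAbs + M * (n0 + S2) := by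
        have : M * n0 ≤ M * (n0 + S2) := Nat.mul_le_mul_left _ (by omega)
        omega
      obtain ⟨h1, h2⟩ := neg A n0 (hb2.trans hx) hA hn0p (fun t ht => (hn0 t).1 ht)
      have hn00 : ¬ (A + M * n0 < 0) := fun h => lt_irrefl n0 ((hn0 n0).2 h)
      obtain ⟨h3, h4⟩ := pos (A + M * n0) S2 (hb.trans hx) (IsCoprime.add_mul_left_left hA _) (not_lt.1 hn00)
      have e : (M : ℝ) * ((n0 + S2 : ℕ) : ℝ) / Nat.totient M = (M : ℝ) * n0 / Nat.totient M + (M : ℝ) * S2 / Nat.totient M := by
        push_cast; ring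
      have e2 : ((M : ℝ) * n0 / Nat.totient M + (M : ℝ) * S2 / Nat.totient M + 2 + 4 * E) / Real.log Z =
          ((M : ℝ) * n0 / Nat.totient M + 1 + 2 * E) / Real.log Z + ((M : ℝ) * S2 / Nat.totient M + 1 + 2 * E) / Real.log Z := by
        ring
      rw [e, e2]
      push_cast
      constructor <;> nlinarith

end Pool.Agent.H11P
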