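import Mathlib
import Pool.Agent.H11P.One

/-! Primes in a progression of integers: the asymptotic formula. -/

set_option autoImplicit false

namespace Pool.Agent.H11P

open Finset Filter

theorem one_dim (hSW : SWU) (K : ℕ) (ε : ℝ) (hε : 0 < ε) (hε1 : ε ≤ 1 / 2) : ∀ᶠ H : ℕ in atTop, ∀ (A : ℤ) (M S : ℕ), 1 ≤ M →
    (M : ℝ) ≤ Real.log H ^ K → |(A : ℝ)| ≤ H * Real.log H ^ K → (H : ℝ) ≤ S * Real.log H ^ K → S ≤ H →
    IsCoprime A (M : ℤ) →
    (1 - ε) * (S * ((M : ℝ) / Nat.totient M) / Real.log H) ≤ cZ A M S ∧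
    (cZ A M S : ℝ) ≤ (1 + ε) * (S * ((M : ℝ) / Nat.totient M) / Real.log H) := by
  obtain ⟨x0, hsw⟩ := (hSW (2 * K + 4) K).exists_forall_of_atTop
  filter_upwards [eventually_ge_atTop (max x0 2), ev_log 2, ev_log (32 / ε), ev_pow (K + 3) 1 (ε / 4) (by positivity),
    ev_pow (K + 3) 8 (1 / 4) (by norm_num), ev_pow (K + 3) 1 (1 / 2) (by norm_num)] with H g1 g2 g3 g4 g5 g6
  intro A M S hM hMK hA hHS hSH hco
  set ℓ := Real.log H with hℓ
  have hℓ0 : 0 < ℓ := by linarith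
  have hH2 : 2 ≤ H := (le_max_right _ _).trans g1
  have hH : (2 : ℝ) ≤ H := by exact_mod_cast hH2
  have hH0 : (0 : ℝ) < H := by linarith
  have hφ : (0 : ℝ) < Nat.totient M := by exact_mod_cast Nat.totient_pos.2 hM
  have hM0 : (1 : ℝ) ≤ M := by exact_mod_cast hM
  have hW : 1 ≤ (M : ℝ) / Nat.totient M := by
    rw [one_le_div hφ]
    exact_mod_cast Nat.totient_le M
  obtain ⟨W, hWdef⟩ : ∃ W : ℝ, W = (M : ℝ) / Nat.totient M := ⟨_, rfl⟩
  rw [← hWdef] at hW ⊢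
  have hℓK : 1 ≤ ℓ ^ K := one_le_pow₀ (by linarith)
  have hℓK0 : 0 < ℓ ^ K := by positivity
  have hS0 : (0 : ℝ) < S := by
    by_contra hcon
    push Not at hcon
    have : (S : ℝ) * ℓ ^ K ≤ 0 := mul_nonpos_of_nonpos_of_nonneg hcon hℓK0.le
    linarith
  have hSHr : (S : ℝ) ≤ H := by exact_mod_cast hSH
  -- x
  obtain ⟨x, hx⟩ : ∃ x : ℕ, x = ⌊(H : ℝ) * ℓ ^ (K + 1)⌋₊ := ⟨_, rfl⟩
  have hxle : (x : ℝ) ≤ H * ℓ ^ (K + 1) := by rw [hx]; exact Nat.floor_le (by positivity)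
  have hsum : A.natAbs + M * S ≤ x := by
    rw [hx]
    apply Nat.le_floor
    push_cast
    have h1 : ((A.natAbs : ℕ) : ℝ) = |(A : ℝ)| := by
      rw [Nat.cast_natAbs]; simp
    rw [h1]
    have h2 : (M : ℝ) * S ≤ ℓ ^ K * H := by gcongr
    calc |(A : ℝ)| + M * S ≤ H * ℓ ^ K + ℓ ^ K * H := by linarith
      _ = H * ℓ ^ K * 2 := by ring
      _ ≤ H * ℓ ^ K * ℓ := by gcongr
      _ = H * ℓ ^ (K + 1) := by ring
  have hHx : H ≤ x := by
    rw [hx]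
    apply Nat.le_floor
    have : 1 ≤ ℓ ^ (K + 1) := one_le_pow₀ (by linarith)
    exact le_mul_of_one_le_right hH0.le this
  have hHxr : (H : ℝ) ≤ x := by exact_mod_cast hHx
  have hx2 : 2 ≤ x := by omega
  have hx0 : (0 : ℝ) < x := by linarith
  have hlx : ℓ ≤ Real.log x := Real.log_le_log hH0 hHxr
  have hlx0 : 0 < Real.log (x : ℝ) := by linarith
  have hxη : (x : ℝ) ≤ (H : ℝ) ^ (1 + ε / 4) := by
    rw [Real.rpow_add hH0, Real.rpow_one]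
    refine hxle.trans ?_
    apply mul_le_mul_of_nonneg_left _ hH0.le
    refine le_trans ?_ g4
    rw [one_mul]
    exact pow_le_pow_right₀ (by linarith) (by omega)
  have hlx2 : Real.log x ≤ (1 + ε / 4) * ℓ := by
    have := Real.log_le_log hx0 hxη
    rwa [Real.log_rpow hH0] at this
  -- E
  obtain ⟨E, hE⟩ : ∃ E : ℝ, E = x / Real.log x ^ (2 * K + 4) := ⟨_, rfl⟩
  have hE0 : 0 ≤ E := by rw [hE]; positivity
  have hES : E ≤ S / ℓ ^ 3 := by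
    rw [hE, div_le_div_iff₀ (by positivity) (by positivity)]
    calc (x : ℝ) * ℓ ^ 3 ≤ (H * ℓ ^ (K + 1)) * ℓ ^ 3 := by gcongr
      _ ≤ (S * ℓ ^ K * ℓ ^ (K + 1)) * ℓ ^ 3 := by gcongr
      _ = S * ℓ ^ (2 * K + 4) := by ring
      _ ≤ S * Real.log x ^ (2 * K + 4) := by gcongr
  have hEall : ∀ a : ℕ, a.Coprime M → ∀ y : ℕ, y ≤ x → |lamAP y M a - y / (Nat.totient M : ℝ)| ≤ E := by
    intro a ha y hy
    rw [hE]
    refine hsw x (((le_max_left _ _).trans g1).trans hHx) y hy M hM (hMK.trans ?_) a ha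
    gcongr
  -- Z
  obtain ⟨Z, hZ⟩ : ∃ Z : ℝ, Z = (H : ℝ) ^ (1 - ε / 4) := ⟨_, rfl⟩
  have hHh : (H : ℝ) ^ (1 / 2 : ℝ) ≤ Z := by
    rw [hZ]
    apply Real.rpow_le_rpow_of_exponent_le (by linarith)
    linarith
  have hHh2 : 2 ≤ (H : ℝ) ^ (1 / 2 : ℝ) := by
    refine le_trans ?_ g6
    rw [one_mul]
    calc (2 : ℝ) ≤ ℓ := g2
      _ = ℓ ^ 1 := (pow_one _).symm
      _ ≤ ℓ ^ (K + 3) := pow_le_pow_right₀ (by linarith) (by omega)
  have hZ2 : 2 ≤ Z := hHh2.trans hHh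
  have hlZ : Real.log Z = (1 - ε / 4) * ℓ := by rw [hZ, Real.log_rpow hH0]
  have hlZ0 : 0 < Real.log Z := by rw [hlZ]; apply mul_pos _ hℓ0; linarith
  have hZS : Z ≤ S / ℓ ^ 3 := by
    have e : Z * (H : ℝ) ^ (ε / 4) = H := by
      rw [hZ, ← Real.rpow_add hH0]; norm_num
    rw [le_div_iff₀ (by positivity)]
    have h1 : Z * ℓ ^ 3 * ℓ ^ K ≤ S * ℓ ^ K := by
      calc Z * ℓ ^ 3 * ℓ ^ K = Z * (1 * ℓ ^ (K + 3)) := by ring
        _ ≤ Z * (H : ℝ) ^ (ε / 4) := by gcongr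
        _ = H := e
        _ ≤ S * ℓ ^ K := hHS
    exact le_of_mul_le_mul_right h1 hℓK0
  -- square root
  have hsq : √(x : ℝ) * Real.log x ≤ S / (4 * ℓ) := by
    have h1 : √(x : ℝ) ≤ (H : ℝ) ^ (3 / 4 : ℝ) := by
      rw [Real.sqrt_eq_rpow]
      calc (x : ℝ) ^ (1 / 2 : ℝ) ≤ ((H : ℝ) ^ (1 + ε / 4)) ^ (1 / 2 : ℝ) := by
            apply Real.rpow_le_rpow hx0.le hxη (by norm_num)
        _ = (H : ℝ) ^ ((1 + ε / 4) * (1 / 2)) := by rw [← Real.rpow_mul hH0.le]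
        _ ≤ (H : ℝ) ^ (3 / 4 : ℝ) := by
            apply Real.rpow_le_rpow_of_exponent_le (by linarith)
            linarith
    have h2 : Real.log x ≤ 2 * ℓ := by
      refine hlx2.trans ?_
      apply mul_le_mul_of_nonneg_right _ hℓ0.le
      linarith
    rw [le_div_iff₀ (by positivity)]
    have h3 : (√(x : ℝ) * Real.log x * (4 * ℓ)) * ℓ ^ K ≤ S * ℓ ^ K := by
      calc (√(x : ℝ) * Real.log x * (4 * ℓ)) * ℓ ^ K ≤ ((H : ℝ) ^ (3 / 4 : ℝ) * (2 * ℓ) * (4 * ℓ)) * ℓ ^ K := by gcongr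
        _ = (H : ℝ) ^ (3 / 4 : ℝ) * (8 * ℓ ^ (K + 2)) := by ring
        _ ≤ (H : ℝ) ^ (3 / 4 : ℝ) * (8 * ℓ ^ (K + 3)) := by
            have : ℓ ^ (K + 2) ≤ ℓ ^ (K + 3) := pow_le_pow_right₀ (by linarith) (by omega)
            gcongr
        _ ≤ (H : ℝ) ^ (3 / 4 : ℝ) * (H : ℝ) ^ (1 / 4 : ℝ) := by gcongr
        _ = H := by rw [← Real.rpow_add hH0]; norm_num
        _ ≤ S * ℓ ^ K := hHS
    exact le_of_mul_le_mul_right h3 hℓK0
  have hS2 : 2 ≤ S / (4 * ℓ) := by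
    refine le_trans ?_ hsq
    have h1 : 1 ≤ √(x : ℝ) := by
      rw [Real.one_le_sqrt]; linarith
    have h2 : 2 ≤ Real.log (x : ℝ) := g2.trans hlx
    calc (2 : ℝ) = 1 * 2 := by norm_num
      _ ≤ √(x : ℝ) * Real.log x := by gcongr
  obtain ⟨hlow, hupp⟩ := cZ_bounds A M S x E Z hM hsum hx2 hco hEall hZ2
  have hmain : (M : ℝ) * S / Nat.totient M = S * W := by rw [hWdef]; ring
  rw [hmain] at hlow hupp
  have hSW : (S : ℝ) ≤ S * W := le_mul_of_one_le_right hS0.le hW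
  have hSW0 : 0 < (S : ℝ) * W := by linarith
  -- small quantities
  have hℓε : 1 / ℓ ≤ ε / 32 := by
    rw [div_le_div_iff₀ hℓ0 (by norm_num)]
    rw [div_le_iff₀ hε] at g3
    linarith
  have hSℓ : (S : ℝ) / ℓ ≤ ε / 32 * S := by
    calc (S : ℝ) / ℓ = 1 / ℓ * S := by ring
      _ ≤ ε / 32 * S := by gcongr
  have hS3 : (S : ℝ) / ℓ ^ 3 ≤ S / (4 * ℓ) := by
    apply div_le_div_of_nonneg_left hS0.le (by positivity)
    have h1 : (2 : ℝ) ^ 2 ≤ ℓ ^ 2 := by gcongr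
    calc 4 * ℓ = 2 ^ 2 * ℓ := by norm_num
      _ ≤ ℓ ^ 2 * ℓ := by gcongr
      _ = ℓ ^ 3 := by ring
  have hS4 : (S : ℝ) / (4 * ℓ) = 1 / 4 * (S / ℓ) := by field_simp
  have hS5 : (S : ℝ) / ℓ ^ 3 ≤ (1 / 4 * (S / ℓ)) * (1 / ℓ) * 4 := by
    rw [div_le_iff₀ (by positivity)]
    have : 1 / 4 * ((S : ℝ) / ℓ) * (1 / ℓ) * 4 * ℓ ^ 3 = S * ℓ := by field_simp
    rw [this]
    exact le_mul_of_one_le_right hS0.le (by linarith)
  have hE4 : E ≤ 1 / 4 * ((S : ℝ) / ℓ) := by rw [← hS4]; exact hES.trans hS3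
  have h24 : 2 ≤ 1 / 4 * ((S : ℝ) / ℓ) := by rw [← hS4]; exact hS2
  have hq4 : √(x : ℝ) * Real.log x ≤ 1 / 4 * ((S : ℝ) / ℓ) := by rw [← hS4]; exact hsq
  have hεSW : ε * S ≤ ε * (S * W) := mul_le_mul_of_nonneg_left hSW hε.le
  have hεSW0 : 0 ≤ ε * (S * W) := by positivity
  constructor
  · have h1 : (1 - ε / 4) * (S * W) ≤ cZ A M S * Real.log x := by
      refine le_trans ?_ hlow
      linarith
    have h2 : (cZ A M S : ℝ) * Real.log x ≤ cZ A M S * ((1 + ε / 4) * ℓ) := by gcongr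
    have h3 : (1 - ε / 4) * (S * W) ≤ cZ A M S * ((1 + ε / 4) * ℓ) := h1.trans h2
    have e : (1 - ε) * (S * W / ℓ) = ((1 - ε) * (S * W)) / ℓ := by ring
    rw [e, div_le_iff₀ hℓ0]
    have h4 : (1 - ε) * (S * W) * (1 + ε / 4) ≤ (1 - ε / 4) * (S * W) := by
      have h8 : 0 ≤ ε * ε := by positivity
      have h7 : (1 - ε) * (1 + ε / 4) ≤ 1 - ε / 4 := by linarith
      calc (1 - ε) * (S * W) * (1 + ε / 4) = ((1 - ε) * (1 + ε / 4)) * (S * W) := by ring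
        _ ≤ (1 - ε / 4) * (S * W) := by gcongr
    have h5 : ((1 - ε) * (S * W)) * (1 + ε / 4) ≤ (cZ A M S * ℓ) * (1 + ε / 4) := by
      calc ((1 - ε) * (S * W)) * (1 + ε / 4) ≤ (1 - ε / 4) * (S * W) := h4
        _ ≤ cZ A M S * ((1 + ε / 4) * ℓ) := h3
        _ = (cZ A M S * ℓ) * (1 + ε / 4) := by ring
    exact le_of_mul_le_mul_right h5 (by linarith)
  · refine hupp.trans ?_
    have h1 : (S : ℝ) * W + 2 + 4 * E ≤ (1 + ε / 16) * (S * W) := by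
      linarith
    have h2 : ((S : ℝ) * W + 2 + 4 * E) / Real.log Z ≤ (1 + ε / 16) * (S * W) / ((1 - ε / 4) * ℓ) := by
      rw [hlZ]
      apply div_le_div_of_nonneg_right h1
      rw [← hlZ]; exact hlZ0.le
    have h3 : (1 + ε / 16) * (S * W) / ((1 - ε / 4) * ℓ) ≤ (1 + ε / 2) * (S * W / ℓ) := by
      have e1 : (1 + ε / 2) * (S * W / ℓ) = (1 + ε / 2) * (S * W) / ℓ := by ring
      rw [e1, div_le_div_iff₀ (mul_pos (by linarith) hℓ0) hℓ0]
      have h8 : ε * ε ≤ ε * (1 / 2) := mul_le_mul_of_nonneg_left hε1 hε.le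
      have h4 : 1 + ε / 16 ≤ (1 + ε / 2) * (1 - ε / 4) := by linarith
      calc (1 + ε / 16) * (S * W) * ℓ ≤ ((1 + ε / 2) * (1 - ε / 4)) * (S * W) * ℓ := by gcongr
        _ = (1 + ε / 2) * (S * W) * ((1 - ε / 4) * ℓ) := by ring
    have h4 : 2 * Z + 2 ≤ ε / 2 * (S * W / ℓ) := by
      have h5 : Z ≤ ε / 32 * (S / ℓ) := by
        refine hZS.trans (hS5.trans ?_)
        calc 1 / 4 * ((S : ℝ) / ℓ) * (1 / ℓ) * 4 = (S / ℓ) * (1 / ℓ) := by ring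
          _ ≤ (S / ℓ) * (ε / 32) := by gcongr
          _ = ε / 32 * (S / ℓ) := by ring
      have h6 : (S : ℝ) / ℓ ≤ S * W / ℓ := by gcongr
      have h7 : 2 * Z + 2 ≤ 4 * Z := by linarith
      have h8 : (0 : ℝ) ≤ S * W / ℓ := by positivity
      have h9 : ε * (S / ℓ) ≤ ε * (S * W / ℓ) := mul_le_mul_of_nonneg_left h6 hε.le
      have h10 : 0 ≤ ε * (S * W / ℓ) := by positivity
      linarith
    linarith

/-- integers in a progression which are not coprime to the modulus -/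
theorem cZ_noncop (A : ℤ) (M S : ℕ) (hM : 1 ≤ M) (h : ¬ IsCoprime A (M : ℤ)) : cZ A M S ≤ 2 := by
  obtain ⟨g, hg⟩ : ∃ g : ℕ, g = Int.gcd A M := ⟨_, rfl⟩
  have hg1 : g ≠ 1 := fun h1 => h (Int.isCoprime_iff_gcd_eq_one.2 (hg ▸ h1))
  have key : ∀ t : ℕ, (A + M * t).natAbs.Prime → (A + M * t) = g ∨ (A + M * t) = -g := by
    intro t ht
    have h1 : (g : ℤ) ∣ A + M * t := by
      rw [hg]
      exact dvd_add (Int.gcd_dvd_left _ _) (Dvd.dvd.mul_right (Int.gcd_dvd_right _ _) _)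
    have h2 : g ∣ (A + M * t).natAbs := Int.natCast_dvd.1 h1
    have h3 : g = (A + M * t).natAbs := by
      rcases (Nat.dvd_prime ht).1 h2 with h4 | h4
      · exact absurd h4 hg1
      · exact h4
    rcases Int.natAbs_eq (A + M * t) with h4 | h4
    · left; rw [h3]; exact h4
    · right; rw [h3]; exact h4
  have hsub : ((range S).filter (fun t : ℕ => (A + M * t).natAbs.Prime)).image (fun t : ℕ => A + M * t) ⊆ {(g : ℤ), -(g : ℤ)} := by
    intro y hy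
    rw [mem_image] at hy
    obtain ⟨t, ht, rfl⟩ := hy
    rw [mem_filter] at ht
    rw [mem_insert, mem_singleton]
    exact key t ht.2
  have h5 := card_le_card hsub
  rw [card_image_of_injective] at h5
  · unfold cZ
    exact h5.trans (card_le_two)
  · intro t t' ht
    simp only at ht
    have hM0 : (M : ℤ) ≠ 0 := by exact_mod_cast (by omega : M ≠ 0)
    have : (M : ℤ) * t = M * t' := by linarith
    exact_mod_cast mul_left_cancel₀ hM0 this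

end Pool.Agent.H11P
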