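import Mathlib
import Pool.Agent.H11P.Box

/-! The coprimality conditions. -/

set_option autoImplicit false

namespace Pool.Agent.H11P

open Finset

variable {d : ℕ}

theorem evl_mod (b α : Fin (d + 1) → ℤ) (W : ℕ) (h : ∀ l, b l ≡ α l [ZMOD W]) (n : ℤ) : evl b n ≡ evl α n [ZMOD W] := by
  unfold evl
  have key : ∀ s : Finset (Fin (d + 1)), ∑ l ∈ s, b l * n ^ (l : ℕ) ≡ ∑ l ∈ s, α l * n ^ (l : ℕ) [ZMOD W] := by
    classical
    intro s
    induction s using Finset.induction_on with
    | empty => simp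
    | insert l s hl ih =>
      rw [sum_insert hl, sum_insert hl]
      exact Int.ModEq.add (Int.ModEq.mul_right _ (h l)) ih
  exact key univ

theorem cop_mod (x y : ℤ) (W : ℕ) (h : x ≡ y [ZMOD W]) : IsCoprime x (W : ℤ) ↔ IsCoprime y (W : ℤ) := by
  have key : ∀ x y : ℤ, x ≡ y [ZMOD W] → IsCoprime x (W : ℤ) → IsCoprime y (W : ℤ) := by
    intro x y h hx
    obtain ⟨k, hk⟩ := (Int.modEq_iff_dvd.1 h)
    have : y = x + W * k := by linarith
    rw [this]
    exact IsCoprime.add_mul_left_left hx k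
  exact ⟨key x y h, key y x h.symm⟩

theorem fv_mod (c : ℕ → ℤ) (H W : ℕ) (α b : Fin (d + 1) → ℤ) (hb : b ∈ bx H W α) (n : ℕ) : fv c b n ≡ fv c α n [ZMOD W] := by
  unfold fv
  apply Int.ModEq.add_left
  apply evl_mod
  intro l
  unfold bx at hb
  rw [Fintype.mem_piFinset] at hb
  have := hb l
  unfold cls at this
  exact (mem_filter.1 this).2

theorem fv_bound (c : ℕ → ℤ) (H W : ℕ) (α b : Fin (d + 1) → ℤ) (hb : b ∈ bx H W α) (n Y : ℕ) (hn : n ≤ Y) :
    |(fv c b n : ℝ)| ≤ |(c n : ℝ)| + (d + 1) * H * (1 + Y) ^ d := by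
  unfold fv evl
  push_cast
  have h1 : |∑ l : Fin (d + 1), (b l : ℝ) * (n : ℝ) ^ (l : ℕ)| ≤ ∑ _l : Fin (d + 1), (H : ℝ) * (1 + Y) ^ d := by
    refine (abs_sum_le_sum_abs _ _).trans (sum_le_sum fun l _ => ?_)
    unfold bx at hb
    rw [Fintype.mem_piFinset] at hb
    have h2 := hb l
    unfold cls at h2
    rw [mem_filter, mem_Icc] at h2
    have h3 : |(b l : ℝ)| ≤ H := by
      rw [abs_le]
      exact ⟨by exact_mod_cast h2.1.1, by exact_mod_cast h2.1.2⟩
    rw [abs_mul, abs_of_nonneg (by positivity : (0 : ℝ) ≤ (n : ℝ) ^ (l : ℕ))]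
    have h4 : (n : ℝ) ^ (l : ℕ) ≤ (1 + Y) ^ d := by
      have a1 : (n : ℝ) ≤ 1 + Y := by
        have : (n : ℝ) ≤ Y := by exact_mod_cast hn
        linarith
      calc (n : ℝ) ^ (l : ℕ) ≤ (1 + Y) ^ (l : ℕ) := by gcongr
        _ ≤ (1 + Y) ^ d := by
            apply pow_le_pow_right₀
            · have : (0 : ℝ) ≤ Y := Nat.cast_nonneg _
              linarith
            · have := l.2; omega
    gcongr
  rw [sum_const, card_univ, Fintype.card_fin, nsmul_eq_mul] at h1
  push_cast at h1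
  refine (abs_add_le _ _).trans ?_
  linarith

open Classical in
theorem Psi_upper (c : ℕ → ℤ) (H W q : ℕ) (α : Fin (d + 1) → ℤ) (hB : (bx H W α).Nonempty) (U : Finset ℕ) :
    avg (bx H W α) (Psi c (W * q) U) ≤ Psi c W U α := by
  rw [← avg_const (bx H W α) hB (Psi c W U α)]
  apply avg_mono
  intro b hb
  unfold Psi
  by_cases h : ∀ n ∈ U, IsCoprime (fv c α n) (W : ℤ)
  · rw [if_pos h]
    split_ifs <;> simp
  · rw [if_neg h, if_neg]
    intro h2
    apply h
    intro n hn
    rw [← cop_mod _ _ W (fv_mod c H W α b hb n)]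
    have := h2 n hn
    push_cast at this
    exact this.of_mul_right_left

theorem avg_sum {ι : Type*} (B : Finset (Fin (d + 1) → ℤ)) (s : Finset ι) (f : ι → (Fin (d + 1) → ℤ) → ℝ) :
    avg B (fun b => ∑ i ∈ s, f i b) = ∑ i ∈ s, avg B (f i) := by
  unfold avg
  rw [sum_comm, sum_div]

open Classical in
theorem Psi_lower (c : ℕ → ℤ) (H z q V : ℕ) (α : Fin (d + 1) → ℤ) (hB : (bx H (primorial z) α).Nonempty) (U : Finset ℕ)
    (δ : ℝ) (hδ : 0 ≤ δ) (hNI : NI (bx H (primorial z) α) (primorial z) V δ) (hq : 1 ≤ q) (hV : primorial z * q ≤ V) :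
    Psi c (primorial z) U α * (1 - U.card * (hz z q - 1)) - U.card * q * δ ≤ avg (bx H (primorial z) α) (Psi c (primorial z * q) U) := by
  have hnn : 0 ≤ avg (bx H (primorial z) α) (Psi c (primorial z * q) U) := by
    unfold avg
    apply div_nonneg (sum_nonneg fun b _ => (Psi_bd c _ U b).1) (Nat.cast_nonneg _)
  by_cases h : ∀ n ∈ U, IsCoprime (fv c α n) ((primorial z : ℕ) : ℤ)
  swap
  · have : Psi c (primorial z) U α = 0 := by unfold Psi; rw [if_neg h]
    rw [this, zero_mul]
    have : (0 : ℝ) ≤ U.card * q * δ := by positivity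
    linarith
  have hG : Psi c (primorial z) U α = 1 := by unfold Psi; rw [if_pos h]
  rw [hG, one_mul]
  -- pointwise bound
  have h1 : ∀ b ∈ bx H (primorial z) α, 1 - ∑ n ∈ U, ∑ p ∈ q.primeFactors.filter (fun p => z < p),
      (if (p : ℤ) ∣ fv c b n then (1 : ℝ) else 0) ≤ Psi c (primorial z * q) U b := by
    intro b hb
    have hnn2 : ∀ n ∈ U, 0 ≤ ∑ p ∈ q.primeFactors.filter (fun p => z < p), (if (p : ℤ) ∣ fv c b n then (1 : ℝ) else 0) := by
      intro n _
      apply sum_nonneg
      intro p _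
      split_ifs <;> simp
    by_cases h2 : ∀ n ∈ U, IsCoprime (fv c b n) ((primorial z * q : ℕ) : ℤ)
    · have : Psi c (primorial z * q) U b = 1 := by unfold Psi; rw [if_pos h2]
      rw [this]
      have := sum_nonneg hnn2
      linarith
    · have : Psi c (primorial z * q) U b = 0 := by unfold Psi; rw [if_neg h2]
      rw [this]
      push Not at h2
      obtain ⟨n, hn, h3⟩ := h2
      have h4 : IsCoprime (fv c b n) ((primorial z : ℕ) : ℤ) := (cop_mod _ _ _ (fv_mod c H _ α b hb n)).2 (h n hn)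
      have h5 : ¬ IsCoprime (fv c b n) (q : ℤ) := by
        intro h6
        apply h3
        push_cast
        exact h4.mul_right h6
      have h6 : Int.gcd (fv c b n) q ≠ 1 := fun h7 => h5 (Int.isCoprime_iff_gcd_eq_one.2 h7)
      obtain ⟨p, hp, hpd⟩ := Nat.exists_prime_and_dvd h6
      have h7 : (p : ℤ) ∣ fv c b n := (Int.natCast_dvd_natCast.2 hpd).trans (Int.gcd_dvd_left _ _)
      have h8 : p ∣ q := Int.natCast_dvd_natCast.1 ((Int.natCast_dvd_natCast.2 hpd).trans (Int.gcd_dvd_right _ _))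
      have h9 : z < p := by
        by_contra hcon
        have h10 : p ∣ primorial z := hp.dvd_primorial_iff.2 (by omega)
        have h11 : (p : ℤ) ∣ ((primorial z : ℕ) : ℤ) := Int.natCast_dvd_natCast.2 h10
        have h12 := h4.isUnit_of_dvd' h7 h11
        exact (Nat.prime_iff_prime_int.1 hp).not_unit h12
      have h10 : p ∈ q.primeFactors.filter (fun p => z < p) := mem_filter.2 ⟨Nat.mem_primeFactors.2 ⟨hp, h8, by omega⟩, h9⟩
      have h11 : (1 : ℝ) ≤ ∑ p ∈ q.primeFactors.filter (fun p => z < p), (if (p : ℤ) ∣ fv c b n then (1 : ℝ) else 0) := by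
        have := single_le_sum (f := fun p : ℕ => if (p : ℤ) ∣ fv c b n then (1 : ℝ) else 0) (fun p _ => by
          split_ifs <;> simp) h10
        simp only [if_pos h7] at this
        exact this
      have h12 := single_le_sum hnn2 hn
      linarith
  have h2 := avg_mono (bx H (primorial z) α) _ _ h1
  refine le_trans ?_ h2
  have e : avg (bx H (primorial z) α) (fun b => 1 - ∑ n ∈ U, ∑ p ∈ q.primeFactors.filter (fun p => z < p),
      (if (p : ℤ) ∣ fv c b n then (1 : ℝ) else 0)) = 1 - ∑ n ∈ U, ∑ p ∈ q.primeFactors.filter (fun p => z < p),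
      avg (bx H (primorial z) α) (fun b => if (p : ℤ) ∣ fv c b n then (1 : ℝ) else 0) := by
    have e1 : (fun b : Fin (d + 1) → ℤ => 1 - ∑ n ∈ U, ∑ p ∈ q.primeFactors.filter (fun p => z < p), (if (p : ℤ) ∣ fv c b n then (1 : ℝ) else 0)) =
        fun b => 1 + (-1) * ∑ n ∈ U, ∑ p ∈ q.primeFactors.filter (fun p => z < p), (if (p : ℤ) ∣ fv c b n then (1 : ℝ) else 0) := by
      funext b; ring
    rw [e1, avg_add, avg_const _ hB, avg_smul, avg_sum]
    have e2 : ∀ n ∈ U, avg (bx H (primorial z) α) (fun b => ∑ p ∈ q.primeFactors.filter (fun p => z < p), (if (p : ℤ) ∣ fv c b n then (1 : ℝ) else 0)) =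
        ∑ p ∈ q.primeFactors.filter (fun p => z < p), avg (bx H (primorial z) α) (fun b => if (p : ℤ) ∣ fv c b n then (1 : ℝ) else 0) := by
      intro n _
      rw [avg_sum]
    rw [sum_congr rfl e2]
    ring
  rw [e]
  have h3 : ∑ n ∈ U, ∑ p ∈ q.primeFactors.filter (fun p => z < p),
      avg (bx H (primorial z) α) (fun b => if (p : ℤ) ∣ fv c b n then (1 : ℝ) else 0) ≤
      ∑ n ∈ U, ∑ p ∈ q.primeFactors.filter (fun p => z < p), (1 / (p : ℝ) + δ) := by
    apply sum_le_sum
    intro n _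
    apply sum_le_sum
    intro p hp
    rw [mem_filter] at hp
    have hpp := Nat.prime_of_mem_primeFactors hp.1
    have hpq := Nat.dvd_of_mem_primeFactors hp.1
    apply prob_dvd c _ hB (primorial z) V δ hNI p hpp
    · intro h4
      have := hpp.dvd_primorial_iff.1 h4
      omega
    · refine le_trans ?_ hV
      apply Nat.mul_le_mul_left
      exact Nat.le_of_dvd hq hpq
  have h4 := sum_inv_le_hz z q
  have h5 : ((q.primeFactors.filter (fun p => z < p)).card : ℝ) ≤ q := by
    have a1 : (q.primeFactors.filter (fun p => z < p)).card ≤ q.primeFactors.card := card_le_card (filter_subset _ _)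
    have a2 : q.primeFactors.card ≤ q := by
      have : q.primeFactors ⊆ Icc 1 q := by
        intro p hp
        rw [mem_Icc]
        exact ⟨(Nat.prime_of_mem_primeFactors hp).one_lt.le, Nat.le_of_dvd hq (Nat.dvd_of_mem_primeFactors hp)⟩
      have := card_le_card this
      rw [Nat.card_Icc] at this
      omega
    exact_mod_cast a1.trans a2
  have h6 : ∑ n ∈ U, ∑ p ∈ q.primeFactors.filter (fun p => z < p), (1 / (p : ℝ) + δ) ≤ U.card * ((hz z q - 1) + q * δ) := by
    rw [sum_const, nsmul_eq_mul]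
    apply mul_le_mul_of_nonneg_left _ (Nat.cast_nonneg _)
    rw [sum_add_distrib, sum_const, nsmul_eq_mul]
    have : ((q.primeFactors.filter (fun p => z < p)).card : ℝ) * δ ≤ q * δ := by gcongr
    linarith
  linarith

end Pool.Agent.H11P
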