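import Mathlib
import Pool.Agent.H11P.PsiB
import Pool.Agent.H11P.One2

/-! Correlations of the prime values of one random polynomial: the asymptotic bounds. -/

set_option autoImplicit false

namespace Pool.Agent.H11P

open Finset Filter

variable {d : ℕ}

theorem kap_le (m : ℕ) (hm : 1 ≤ m) : kap m ≤ m := by
  unfold kap
  apply div_le_self (Nat.cast_nonneg _)
  have : 1 ≤ Nat.totient m := Nat.totient_pos.2 hm
  exact_mod_cast this

theorem avg_nonneg (B : Finset (Fin (d + 1) → ℤ)) (f : (Fin (d + 1) → ℤ) → ℝ) (h : ∀ b, 0 ≤ f b) : 0 ≤ avg B f := by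
  unfold avg
  exact div_nonneg (sum_nonneg fun b _ => h b) (Nat.cast_nonneg _)

theorem poly_one (hSW : SWU) (d A z E : ℕ) (ε : ℝ) (hε : 0 < ε) (hε1 : ε ≤ 1 / 2) : ∀ᶠ H : ℕ in atTop,
    ∀ (c : ℕ → ℤ) (α : Fin (d + 1) → ℤ) (U : Finset ℕ) (Y : ℕ), U.card ≤ d + 1 → (∀ m ∈ U, m ≤ Y) → (Y : ℝ) ≤ Real.log H ^ A →
    (∀ n ∈ U, |(c n : ℝ)| ≤ H * Real.log H ^ A) →
    ((1 - ε) * kap (primorial z) / Real.log H) ^ U.card * (Psi c (primorial z) U α * (1 - U.card * (hz z (qU U) - 1))) -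
      1 / Real.log H ^ E ≤ avg (bx H (primorial z) α) (Phi c U) ∧
    avg (bx H (primorial z) α) (Phi c U) ≤
      ((1 + ε) * kap (primorial z) * hz z (qU U) / Real.log H) ^ U.card * Psi c (primorial z) U α + 1 / Real.log H ^ E := by
  obtain ⟨A', hA'⟩ : ∃ A', A' = A + 1 := ⟨_, rfl⟩
  obtain ⟨K1, hK1⟩ : ∃ K1, K1 = 1 + A' * ((d + 1) * (d + 1)) := ⟨_, rfl⟩
  obtain ⟨K3, hK3⟩ : ∃ K3, K3 = K1 + E + 2 := ⟨_, rfl⟩
  obtain ⟨K2, hK2⟩ : ∃ K2, K2 = K1 + A' * d + K3 := ⟨_, rfl⟩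
  obtain ⟨K, hK⟩ : ∃ K, K = 2 * K1 + K2 + A' * (d + 1) + 2 := ⟨_, rfl⟩
  filter_upwards [one_dim hSW K ε hε hε1, ev_log 2, ev_log (primorial z : ℝ), ev_log (4 * ((d : ℝ) + 1) ^ 2), ev_log ((d : ℝ) + 2),
    ev_pow (K2 + K3) 4 1 one_pos, ev_pow (K1 + K3) 1 1 one_pos, ev_pow (K3 + 1) 1 1 one_pos,
    eventually_ge_atTop (primorial z), eventually_ge_atTop 1] with H hone g1 g2 g3 g4 g5 g6 g7 g8 g9
  intro c α U Y hU hY hYA hc
  rw [Real.rpow_one] at g5 g6 g7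
  obtain ⟨ℓ, hℓ⟩ : ∃ ℓ : ℝ, ℓ = Real.log H := ⟨_, rfl⟩
  rw [← hℓ] at g1 g2 g3 g4 g5 g6 g7 hYA hc hone ⊢
  have hℓ0 : 0 < ℓ := by linarith
  have hℓ1 : 1 ≤ ℓ := by linarith
  have hH0 : (0 : ℝ) < H := by exact_mod_cast (by omega : 0 < H)
  have hW1 : 1 ≤ primorial z := primorial_pos z
  have hd0 : (0 : ℝ) ≤ d := Nat.cast_nonneg _
  -- sizes
  have hY1 : (1 + Y : ℝ) ≤ ℓ ^ A' := by
    have h1 : 1 ≤ ℓ ^ A := one_le_pow₀ hℓ1
    calc (1 + Y : ℝ) ≤ ℓ ^ A + ℓ ^ A := by linarith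
      _ = ℓ ^ A * 2 := by ring
      _ ≤ ℓ ^ A * ℓ := by gcongr
      _ = ℓ ^ A' := by rw [hA']; ring
  have hq1 := qU_pos U
  have hq : (qU U : ℝ) ≤ ℓ ^ (A' * ((d + 1) * (d + 1))) := by
    have h1 := qU_le U (1 + Y) (d + 1) (fun m hm => (hY m hm).trans (by omega)) (by omega) hU
    calc (qU U : ℝ) ≤ ((1 + Y : ℕ) : ℝ) ^ ((d + 1) * (d + 1)) := by exact_mod_cast h1
      _ = (1 + Y : ℝ) ^ ((d + 1) * (d + 1)) := by push_cast; rfl
      _ ≤ (ℓ ^ A') ^ ((d + 1) * (d + 1)) := by gcongr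
      _ = ℓ ^ (A' * ((d + 1) * (d + 1))) := by rw [← pow_mul]
  obtain ⟨M0, hM0⟩ : ∃ M0, M0 = primorial z * qU U := ⟨_, rfl⟩
  have hM01 : 1 ≤ M0 := by rw [hM0]; exact Nat.mul_pos hW1 hq1
  have hM0K : (M0 : ℝ) ≤ ℓ ^ K1 := by
    rw [hM0]
    push_cast
    calc (primorial z : ℝ) * (qU U : ℝ) ≤ ℓ * ℓ ^ (A' * ((d + 1) * (d + 1))) := by gcongr
      _ = ℓ ^ K1 := by rw [hK1, pow_add, pow_one]
  obtain ⟨V, hV⟩ : ∃ V : ℕ, V = ⌊(H : ℝ) / ℓ ^ K3⌋₊ := ⟨_, rfl⟩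
  obtain ⟨S, hS⟩ : ∃ S : ℕ, S = ⌊(H : ℝ) / ℓ ^ K2⌋₊ := ⟨_, rfl⟩
  have hVle : (V : ℝ) ≤ H / ℓ ^ K3 := by rw [hV]; exact Nat.floor_le (by positivity)
  have hSle : (S : ℝ) ≤ H / ℓ ^ K2 := by rw [hS]; exact Nat.floor_le (by positivity)
  have hSge : (H : ℝ) / ℓ ^ K2 / 2 ≤ S := by
    have h1 := Nat.lt_floor_add_one ((H : ℝ) / ℓ ^ K2)
    rw [← hS] at h1
    have h2 : 2 ≤ (H : ℝ) / ℓ ^ K2 := by
      rw [le_div_iff₀ (by positivity)]
      have : ℓ ^ K2 ≤ ℓ ^ (K2 + K3) := pow_le_pow_right₀ hℓ1 (by omega)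
      have : 0 < ℓ ^ K2 := by positivity
      linarith
    linarith
  have hSpos : (0 : ℝ) < S := by
    have : (0 : ℝ) < (H : ℝ) / ℓ ^ K2 / 2 := by positivity
    linarith
  have hS1 : 1 ≤ S := by exact_mod_cast hSpos
  have hVS : M0 * S * (1 + Y) ^ d ≤ V := by
    rw [hV]
    apply Nat.le_floor
    push_cast
    have e : ℓ ^ K2 = ℓ ^ K1 * (ℓ ^ A') ^ d * ℓ ^ K3 := by
      rw [hK2, pow_add, pow_add, pow_mul]
    calc (M0 : ℝ) * S * (1 + Y) ^ d ≤ ℓ ^ K1 * (H / ℓ ^ K2) * (ℓ ^ A') ^ d := by gcongr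
      _ = H / ℓ ^ K3 := by
        rw [e]
        have h1 : 0 < ℓ ^ K1 := by positivity
        have h2 : 0 < (ℓ ^ A') ^ d := by positivity
        have h3 : 0 < ℓ ^ K3 := by positivity
        field_simp
  have hMV : primorial z * qU U ≤ V := by
    rw [← hM0, hV]
    apply Nat.le_floor
    rw [le_div_iff₀ (by positivity)]
    calc (M0 : ℝ) * ℓ ^ K3 ≤ ℓ ^ K1 * ℓ ^ K3 := by gcongr
      _ = 1 * ℓ ^ (K1 + K3) := by rw [pow_add, one_mul]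
      _ ≤ H := g6
  -- the parameters of the near invariance
  obtain ⟨δ, hδ⟩ : ∃ δ : ℝ, δ = ((d : ℝ) + 1) * ((V : ℝ) + primorial z) / H := ⟨_, rfl⟩
  have hNI : NI (bx H (primorial z) α) (primorial z) V δ := by
    rw [hδ]; exact bx_NI H (primorial z) V α hW1 g8
  have hB := bx_nonempty H (primorial z) α hW1 g8
  have hδ0 : 0 ≤ δ := by rw [hδ]; positivity
  have hδle : δ ≤ 2 * ((d : ℝ) + 1) / ℓ ^ K3 := by
    rw [hδ, div_le_div_iff₀ hH0 (by positivity)]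
    have h1 : (primorial z : ℝ) * ℓ ^ K3 ≤ H := by
      calc (primorial z : ℝ) * ℓ ^ K3 ≤ ℓ * ℓ ^ K3 := by gcongr
        _ = 1 * ℓ ^ (K3 + 1) := by ring
        _ ≤ H := g7
    have h2 : (V : ℝ) * ℓ ^ K3 ≤ H := by
      rw [le_div_iff₀ (by positivity)] at hVle
      exact hVle
    calc ((d : ℝ) + 1) * ((V : ℝ) + primorial z) * ℓ ^ K3 = ((d : ℝ) + 1) * (V * ℓ ^ K3 + primorial z * ℓ ^ K3) := by ring
      _ ≤ ((d : ℝ) + 1) * (H + H) := by gcongr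
      _ = 2 * ((d : ℝ) + 1) * H := by ring
  -- the densities
  have hk1 := kap_ge (primorial z) hW1
  have hh1 := hz_ge z (qU U)
  obtain ⟨ρ1, hρ1⟩ : ∃ ρ1 : ℝ, ρ1 = (1 - ε) * kap (primorial z) / ℓ := ⟨_, rfl⟩
  obtain ⟨ρ2, hρ2⟩ : ∃ ρ2 : ℝ, ρ2 = (1 + ε) * kap (primorial z) * hz z (qU U) / ℓ := ⟨_, rfl⟩
  have hρ10 : 0 ≤ ρ1 := by
    rw [hρ1]
    apply div_nonneg (mul_nonneg (by linarith) (by linarith)) hℓ0.le
  have hρ11 : ρ1 ≤ 1 := by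
    rw [hρ1, div_le_one hℓ0]
    have h1 := kap_le (primorial z) hW1
    have h2 : (1 - ε) * kap (primorial z) ≤ 1 * kap (primorial z) := mul_le_mul_of_nonneg_right (by linarith) (by linarith)
    linarith
  have hρ20 : 0 ≤ ρ2 := by
    rw [hρ2]
    have : 0 ≤ hz z (qU U) := by linarith
    have : 0 ≤ kap (primorial z) := by linarith
    positivity
  have hkM : kap M0 = kap (primorial z) * hz z (qU U) := by rw [hM0, kap_split z _ hq1]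
  have hqM0 : qU U ∣ M0 := by rw [hM0]; exact Dvd.intro_left _ rfl
  have cond1 : ∀ T ⊆ U, ∀ n0 ∈ U, n0 ∉ T → ∀ b ∈ bx H (primorial z) α, IsCoprime (fv c b n0) (M0 : ℤ) →
      ρ1 * S ≤ cZ (sg (dif T n0) (fv c b n0)) (M0 * (dif T n0).natAbs) S ∧
      (cZ (sg (dif T n0) (fv c b n0)) (M0 * (dif T n0).natAbs) S : ℝ) ≤ min ρ2 1 * S := by
    intro T hT n0 hn0 hnT b hb hcop
    have hdd : (dif T n0).natAbs ∣ qU U := dif_dvd U T hT n0 hn0 hnT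
    have hdM : (dif T n0).natAbs ∣ M0 := hdd.trans hqM0
    have hd1 : 1 ≤ (dif T n0).natAbs := Nat.pos_of_dvd_of_pos hdM hM01
    have hdle : (dif T n0).natAbs ≤ M0 := Nat.le_of_dvd hM01 hdM
    have c1 : 1 ≤ M0 * (dif T n0).natAbs := Nat.mul_pos hM01 hd1
    have c2 : ((M0 * (dif T n0).natAbs : ℕ) : ℝ) ≤ ℓ ^ K := by
      have h1 : ((dif T n0).natAbs : ℝ) ≤ M0 := by exact_mod_cast hdle
      calc ((M0 * (dif T n0).natAbs : ℕ) : ℝ) = (M0 : ℝ) * ((dif T n0).natAbs : ℝ) := by push_cast; rfl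
        _ ≤ ℓ ^ K1 * ℓ ^ K1 := by
            apply mul_le_mul hM0K (h1.trans hM0K) (Nat.cast_nonneg _) (by positivity)
        _ = ℓ ^ (K1 + K1) := by rw [pow_add]
        _ ≤ ℓ ^ K := pow_le_pow_right₀ hℓ1 (by omega)
    have c3 : |((sg (dif T n0) (fv c b n0) : ℤ) : ℝ)| ≤ H * ℓ ^ K := by
      rw [sg_abs]
      have h1 := fv_bound c H (primorial z) α b hb n0 Y (hY n0 hn0)
      have h2 := hc n0 hn0
      have h3 : ((1 : ℝ) + Y) ^ d ≤ ℓ ^ (A' * (d + 1)) := by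
        calc ((1 : ℝ) + Y) ^ d ≤ (ℓ ^ A') ^ d := by gcongr
          _ = ℓ ^ (A' * d) := by rw [← pow_mul]
          _ ≤ ℓ ^ (A' * (d + 1)) := pow_le_pow_right₀ hℓ1 (Nat.mul_le_mul_left _ (by omega))
      have h4 : ℓ ^ A ≤ ℓ ^ (A' * (d + 1)) := by
        apply pow_le_pow_right₀ hℓ1
        rw [hA']
        exact (Nat.le_succ A).trans (Nat.le_mul_of_pos_right _ (Nat.succ_pos d))
      calc |(fv c b n0 : ℝ)| ≤ H * ℓ ^ A + (d + 1) * H * (1 + Y) ^ d := by linarith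
        _ ≤ H * ℓ ^ (A' * (d + 1)) + (d + 1) * H * ℓ ^ (A' * (d + 1)) := by gcongr
        _ = H * (ℓ ^ (A' * (d + 1)) * ((d : ℝ) + 2)) := by ring
        _ ≤ H * (ℓ ^ (A' * (d + 1)) * ℓ) := by gcongr
        _ = H * ℓ ^ (A' * (d + 1) + 1) := by rw [pow_succ]
        _ ≤ H * ℓ ^ K := by
            apply mul_le_mul_of_nonneg_left _ hH0.le
            exact pow_le_pow_right₀ hℓ1 (by omega)
    have c4 : (H : ℝ) ≤ S * ℓ ^ K := by
      have h1 : (H : ℝ) ≤ S * (2 * ℓ ^ K2) := by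
        have h2 : (H : ℝ) / ℓ ^ K2 / 2 * (2 * ℓ ^ K2) = H := by field_simp
        calc (H : ℝ) = (H : ℝ) / ℓ ^ K2 / 2 * (2 * ℓ ^ K2) := h2.symm
          _ ≤ S * (2 * ℓ ^ K2) := by gcongr
      refine h1.trans ?_
      apply mul_le_mul_of_nonneg_left _ hSpos.le
      calc 2 * ℓ ^ K2 ≤ ℓ * ℓ ^ K2 := by gcongr
        _ = ℓ ^ (K2 + 1) := by ring
        _ ≤ ℓ ^ K := pow_le_pow_right₀ hℓ1 (by omega)
    have c5 : S ≤ H := by
      have h1 : (H : ℝ) / ℓ ^ K2 ≤ H := div_le_self hH0.le (one_le_pow₀ hℓ1)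
      exact_mod_cast hSle.trans h1
    have c6 : IsCoprime (sg (dif T n0) (fv c b n0)) ((M0 * (dif T n0).natAbs : ℕ) : ℤ) := (sg_cop _ _ _ hdM).2 hcop
    obtain ⟨o1, o2⟩ := hone _ _ S c1 c2 c3 c4 c5 c6
    have hkk : ((M0 * (dif T n0).natAbs : ℕ) : ℝ) / Nat.totient (M0 * (dif T n0).natAbs) = kap (primorial z) * hz z (qU U) := by
      have := kap_mul_dvd M0 _ hM01 hdM
      unfold kap at this
      rw [this]
      exact hkM
    rw [hkk] at o1 o2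
    constructor
    · refine le_trans ?_ o1
      rw [hρ1]
      have h1 : kap (primorial z) ≤ kap (primorial z) * hz z (qU U) := le_mul_of_one_le_right (by linarith) hh1
      calc (1 - ε) * kap (primorial z) / ℓ * S = (1 - ε) * (S * kap (primorial z) / ℓ) := by ring
        _ ≤ (1 - ε) * (S * (kap (primorial z) * hz z (qU U)) / ℓ) := by
            apply mul_le_mul_of_nonneg_left _ (by linarith)
            gcongr
    · rcases min_choice ρ2 1 with h | h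
      · rw [h, hρ2]
        refine o2.trans (le_of_eq ?_)
        ring
      · rw [h, one_mul]
        unfold cZ
        have := card_filter_le (range S) (fun t : ℕ => (sg (dif T n0) (fv c b n0) + ((M0 * (dif T n0).natAbs : ℕ) : ℤ) * t).natAbs.Prime)
        rw [card_range] at this
        exact_mod_cast this
  have cond2 : ∀ T ⊆ U, ∀ n0 ∈ U, n0 ∉ T → ∀ b ∈ bx H (primorial z) α, ¬ IsCoprime (fv c b n0) (M0 : ℤ) →
      cZ (sg (dif T n0) (fv c b n0)) (M0 * (dif T n0).natAbs) S ≤ 2 := by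
    intro T hT n0 hn0 hnT b hb hcop
    have hdd : (dif T n0).natAbs ∣ qU U := dif_dvd U T hT n0 hn0 hnT
    have hdM : (dif T n0).natAbs ∣ M0 := hdd.trans hqM0
    have hd1 : 1 ≤ (dif T n0).natAbs := Nat.pos_of_dvd_of_pos hdM hM01
    apply cZ_noncop _ _ _ (Nat.mul_pos hM01 hd1)
    intro h
    exact hcop ((sg_cop _ _ _ hdM).1 h)
  obtain ⟨r1, r2⟩ := corr_ind c (bx H (primorial z) α) hB (primorial z) V δ hNI hδ0 M0 (by rw [hM0]; exact Dvd.intro _ rfl) S Y hS1 U hU hY hVS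
    ρ1 (min ρ2 1) hρ10 hρ11 (le_min hρ20 zero_le_one) (min_le_right _ _) cond1 cond2 U (Subset.refl _)
  have eU : (fun b : Fin (d + 1) → ℤ => Phi c U b * Psi c M0 (U \ U) b) = Phi c U := by
    funext b
    rw [Finset.sdiff_self]
    simp [Psi]
  rw [eU] at r1 r2
  have hPl := Psi_lower c H z (qU U) V α hB U δ hδ0 hNI hq1 hMV
  have hPu := Psi_upper c H (primorial z) (qU U) α hB U
  rw [← hM0] at hPl hPu
  have hPs0 : 0 ≤ avg (bx H (primorial z) α) (Psi c M0 U) := avg_nonneg _ _ (fun b => (Psi_bd c _ U b).1)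
  have hUr : (U.card : ℝ) ≤ d + 1 := by exact_mod_cast hU
  have hK3e : ℓ ^ K3 = ℓ ^ K1 * ℓ ^ E * ℓ ^ 2 := by rw [hK3, pow_add, pow_add]
  have h42 : 4 * ((d : ℝ) + 1) ^ 2 ≤ ℓ ^ 2 := by
    calc 4 * ((d : ℝ) + 1) ^ 2 ≤ ℓ := g3
      _ = ℓ ^ 1 := (pow_one ℓ).symm
      _ ≤ ℓ ^ 2 := pow_le_pow_right₀ hℓ1 (by norm_num)
  have hqK : (qU U : ℝ) ≤ ℓ ^ K1 := by
    refine hq.trans (pow_le_pow_right₀ hℓ1 (by omega))
  constructor
  · have h1 : ρ1 ^ U.card * (Psi c (primorial z) U α * (1 - U.card * (hz z (qU U) - 1)) - U.card * qU U * δ) ≤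
        ρ1 ^ U.card * avg (bx H (primorial z) α) (Psi c M0 U) := by
      apply mul_le_mul_of_nonneg_left hPl (by positivity)
    have h2 : ρ1 ^ U.card * (U.card * qU U * δ) ≤ 1 * (U.card * qU U * δ) := by
      apply mul_le_mul_of_nonneg_right (pow_le_one₀ hρ10 hρ11) (by positivity)
    have h3 : U.card * qU U * δ + U.card * δ ≤ 1 / ℓ ^ E := by
      have hq1r : (1 : ℝ) ≤ ℓ ^ K1 := one_le_pow₀ hℓ1
      calc U.card * qU U * δ + U.card * δ = U.card * ((qU U : ℝ) + 1) * δ := by ring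
        _ ≤ ((d : ℝ) + 1) * (ℓ ^ K1 + ℓ ^ K1) * (2 * ((d : ℝ) + 1) / ℓ ^ K3) := by gcongr
        _ = 4 * ((d : ℝ) + 1) ^ 2 / (ℓ ^ E * ℓ ^ 2) := by
            rw [hK3e]
            field_simp
            ring
        _ ≤ ℓ ^ 2 / (ℓ ^ E * ℓ ^ 2) := by gcongr
        _ = 1 / ℓ ^ E := by field_simp
    rw [← hρ1]
    linarith
  · have h1 : (min ρ2 1) ^ U.card * avg (bx H (primorial z) α) (Psi c M0 U) ≤ ρ2 ^ U.card * Psi c (primorial z) U α := by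
      have : 0 ≤ min ρ2 1 := le_min hρ20 zero_le_one
      have : min ρ2 1 ≤ ρ2 := min_le_left _ _
      gcongr
    have h2 : (U.card : ℝ) * (2 / S + δ) ≤ 1 / ℓ ^ E := by
      have h3 : 2 / (S : ℝ) ≤ 1 / ℓ ^ K3 := by
        rw [div_le_div_iff₀ hSpos (by positivity), one_mul]
        have h4 : 2 * ℓ ^ K3 ≤ (H : ℝ) / ℓ ^ K2 / 2 := by
          rw [div_div, le_div_iff₀ (by positivity)]
          calc 2 * ℓ ^ K3 * (ℓ ^ K2 * 2) = 4 * ℓ ^ (K2 + K3) := by rw [pow_add]; ring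
            _ ≤ H := g5
        exact h4.trans hSge
      calc (U.card : ℝ) * (2 / S + δ) ≤ ((d : ℝ) + 1) * (1 / ℓ ^ K3 + 2 * ((d : ℝ) + 1) / ℓ ^ K3) := by gcongr
        _ = ((d : ℝ) + 1) * (1 + 2 * ((d : ℝ) + 1)) / ℓ ^ K3 := by ring
        _ ≤ 4 * ((d : ℝ) + 1) ^ 2 / ℓ ^ K3 := by
            apply div_le_div_of_nonneg_right _ (by positivity)
            have h6 : ((d : ℝ) + 1) * 1 ≤ (d + 1) * (d + 1) := mul_le_mul_of_nonneg_left (by linarith) (by linarith)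
            linarith
        _ ≤ ℓ ^ 2 / ℓ ^ K3 := by gcongr
        _ ≤ ℓ ^ 2 / (ℓ ^ E * ℓ ^ 2) := by
            apply div_le_div_of_nonneg_left (by positivity) (by positivity)
            rw [hK3e]
            have : 1 ≤ ℓ ^ K1 := one_le_pow₀ hℓ1
            have h5 : 0 ≤ ℓ ^ E * ℓ ^ 2 := by positivity
            calc ℓ ^ E * ℓ ^ 2 = 1 * (ℓ ^ E * ℓ ^ 2) := by ring
              _ ≤ ℓ ^ K1 * (ℓ ^ E * ℓ ^ 2) := by gcongr
              _ = ℓ ^ K1 * ℓ ^ E * ℓ ^ 2 := by ring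
        _ = 1 / ℓ ^ E := by field_simp
    rw [← hρ2]
    linarith

end Pool.Agent.H11P
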