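import Mathlib
import Pool.Agent.H11P.Ind

/-! Sums over subsets of a window. -/

set_option autoImplicit false

namespace Pool.Agent.H11P

open Finset

theorem card_sub (D : Finset ℕ) (r : ℕ) (hr : 2 ≤ r) (x : ℕ × ℕ) :
    ((powersetCard r D).filter (fun U => x ∈ U.offDiag)).card ≤ D.card ^ (r - 2) := by
  classical
  refine le_trans ?_ (Nat.choose_le_pow D.card (r - 2))
  rw [← card_powersetCard]
  apply card_le_card_of_injOn (fun U => (U.erase x.1).erase x.2)
  · intro U hU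
    rw [mem_coe, mem_filter, mem_powersetCard, mem_offDiag] at hU
    obtain ⟨⟨h1, h2⟩, h3, h4, h5⟩ := hU
    rw [mem_coe, mem_powersetCard]
    refine ⟨((erase_subset _ _).trans (erase_subset _ _)).trans h1, ?_⟩
    rw [card_erase_of_mem (mem_erase.2 ⟨fun h => h5 h.symm, h4⟩), card_erase_of_mem h3, h2]
    omega
  · intro U hU U' hU' h
    rw [mem_coe, mem_filter, mem_powersetCard, mem_offDiag] at hU hU'
    simp only at h
    have e : ∀ U : Finset ℕ, x.1 ∈ U → x.2 ∈ U → x.1 ≠ x.2 → U = insert x.1 (insert x.2 ((U.erase x.1).erase x.2)) := by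
      intro U h3 h4 h5
      rw [insert_erase (mem_erase.2 ⟨fun h => h5 h.symm, h4⟩), insert_erase h3]
    rw [e U hU.2.1 hU.2.2.1 hU.2.2.2, e U' hU'.2.1 hU'.2.2.1 hU'.2.2.2, h]

theorem sum_pairs (D : Finset ℕ) (r : ℕ) (hr : 2 ≤ r) (F : ℕ × ℕ → ℝ) (hF : ∀ x, 0 ≤ F x) :
    ∑ U ∈ powersetCard r D, ∑ x ∈ U.offDiag, F x ≤ D.card ^ (r - 2) * ∑ x ∈ D.offDiag, F x := by
  classical
  rw [sum_comm' (t' := D.offDiag) (s' := fun x => (powersetCard r D).filter (fun U => x ∈ U.offDiag)), mul_sum]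
  · apply sum_le_sum
    intro x _
    rw [sum_const, nsmul_eq_mul]
    apply mul_le_mul_of_nonneg_right _ (hF x)
    exact_mod_cast card_sub D r hr x
  · intro U x
    constructor
    · rintro ⟨h1, h2⟩
      refine ⟨mem_filter.2 ⟨h1, h2⟩, ?_⟩
      exact Finset.offDiag_mono (mem_powersetCard.1 h1).1 h2
    · rintro ⟨h1, h2⟩
      exact ⟨(mem_filter.1 h1).1, (mem_filter.1 h1).2⟩

theorem sum_window (J L : ℕ) (f : ℕ → ℝ) (hf : ∀ u, 0 ≤ f u) :
    ∑ x ∈ (Ioc J (J + L)).offDiag, f ((x.1 : ℤ) - x.2).natAbs ≤ 2 * L * ∑ u ∈ Icc 1 L, f u := by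
  classical
  have h0 : ∑ x ∈ (Ioc J (J + L)).offDiag, f ((x.1 : ℤ) - x.2).natAbs =
      ∑ a ∈ Ioc J (J + L), ∑ b ∈ (Ioc J (J + L)).filter (fun b => a ≠ b), f ((a : ℤ) - b).natAbs := by
    have e0 : (Ioc J (J + L)).offDiag = ((Ioc J (J + L)) ×ˢ (Ioc J (J + L))).filter (fun x => x.1 ≠ x.2) := by
      ext x
      rw [mem_offDiag, mem_filter, mem_product]
      tauto
    rw [e0, sum_filter, sum_product]
    apply sum_congr rfl
    intro a _
    rw [sum_filter]
  rw [h0]
  have h1 : ∀ a ∈ Ioc J (J + L), ∑ b ∈ (Ioc J (J + L)).filter (fun b => a ≠ b), f ((a : ℤ) - b).natAbs ≤ 2 * ∑ u ∈ Icc 1 L, f u := by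
    intro a ha
    rw [mem_Ioc] at ha
    have e : (Ioc J (J + L)).filter (fun b => a ≠ b) = (Ioc J (J + L)).filter (fun b => b < a) ∪ (Ioc J (J + L)).filter (fun b => a < b) := by
      ext b
      simp only [mem_filter, mem_union, mem_Ioc]
      constructor
      · rintro ⟨h1, h2⟩
        rcases lt_or_gt_of_ne h2 with h3 | h3
        · exact Or.inr ⟨h1, h3⟩
        · exact Or.inl ⟨h1, h3⟩
      · rintro (⟨h1, h2⟩ | ⟨h1, h2⟩)
        · exact ⟨h1, by omega⟩
        · exact ⟨h1, by omega⟩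
    rw [e, sum_union, two_mul]
    · apply add_le_add
      · have e1 : ∑ b ∈ (Ioc J (J + L)).filter (fun b => b < a), f ((a : ℤ) - b).natAbs =
            ∑ u ∈ ((Ioc J (J + L)).filter (fun b => b < a)).image (fun b => a - b), f u := by
          rw [sum_image]
          · apply sum_congr rfl
            intro b hb
            rw [mem_filter] at hb
            congr 1
            omega
          · intro b hb b' hb' h
            rw [mem_coe, mem_filter] at hb hb'
            simp only at h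
            omega
        rw [e1]
        apply sum_le_sum_of_subset_of_nonneg
        · intro u hu
          rw [mem_image] at hu
          obtain ⟨b, hb, rfl⟩ := hu
          rw [mem_filter, mem_Ioc] at hb
          rw [mem_Icc]
          omega
        · intro u _ _
          exact hf u
      · have e1 : ∑ b ∈ (Ioc J (J + L)).filter (fun b => a < b), f ((a : ℤ) - b).natAbs =
            ∑ u ∈ ((Ioc J (J + L)).filter (fun b => a < b)).image (fun b => b - a), f u := by
          rw [sum_image]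
          · apply sum_congr rfl
            intro b hb
            rw [mem_filter] at hb
            congr 1
            omega
          · intro b hb b' hb' h
            rw [mem_coe, mem_filter] at hb hb'
            simp only at h
            omega
        rw [e1]
        apply sum_le_sum_of_subset_of_nonneg
        · intro u hu
          rw [mem_image] at hu
          obtain ⟨b, hb, rfl⟩ := hu
          rw [mem_filter, mem_Ioc] at hb
          rw [mem_Icc]
          omega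
        · intro u _ _
          exact hf u
    · rw [Finset.disjoint_left]
      intro b h1 h2
      rw [mem_filter] at h1 h2
      omega
  refine (sum_le_sum h1).trans ?_
  rw [sum_const, Nat.card_Ioc, nsmul_eq_mul]
  have : ((J + L - J : ℕ) : ℝ) = L := by simp
  rw [this]
  apply le_of_eq
  ring

theorem hz_qU (z : ℕ) (U : Finset ℕ) (K0 N : ℕ) (hN : U.offDiag.card ≤ N) :
    hz z (qU U) ^ K0 - 1 ≤ ∑ x ∈ U.offDiag, (hz z ((x.1 : ℤ) - x.2).natAbs ^ (K0 * N) - 1) := by
  have h1 : hz z (qU U) ^ K0 ≤ ∏ x ∈ U.offDiag, hz z ((x.1 : ℤ) - x.2).natAbs ^ K0 := by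
    rw [prod_pow]
    have h2 : hz z (qU U) ≤ ∏ x ∈ U.offDiag, hz z ((x.1 : ℤ) - x.2).natAbs := by
      unfold qU
      apply hz_prod_le
      intro x hx
      rw [mem_offDiag] at hx
      have : ((x.1 : ℤ) - x.2).natAbs ≠ 0 := by
        rw [Int.natAbs_ne_zero, sub_ne_zero]
        exact_mod_cast hx.2.2
      omega
    have := hz_ge z (qU U)
    gcongr
  have h2 := prod_pow_le U.offDiag (fun x => hz z ((x.1 : ℤ) - x.2).natAbs ^ K0) (fun x _ => one_le_pow₀ (hz_ge z _)) N hN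
  simp only [← pow_mul] at h2
  linarith

theorem sum_T (k d : ℕ) : ∃ C : ℝ, 0 < C ∧ ∀ (z r L J : ℕ) (D : Finset ℕ), 1 ≤ z → D ⊆ Ioc J (J + L) → r ≤ d + 1 →
    ∑ U ∈ powersetCard r D, (hz z (qU U) ^ (k * (d + 1)) - 1) ≤ 2 * C * (L : ℝ) ^ r / z := by
  classical
  obtain ⟨C, hC0, hC⟩ := mean_hz (k * (d + 1) * ((d + 1) * (d + 1)))
  refine ⟨C, hC0, fun z r L J D hz1 hD hr => ?_⟩
  have hcardD : D.card ≤ L := by
    have := card_le_card hD
    rw [Nat.card_Ioc] at this
    omega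
  rcases Nat.lt_or_ge r 2 with hr2 | hr2
  · have : ∑ U ∈ powersetCard r D, (hz z (qU U) ^ (k * (d + 1)) - 1) = 0 := by
      apply sum_eq_zero
      intro U hU
      rw [mem_powersetCard] at hU
      have hU1 : U.card ≤ 1 := by omega
      have e : U.offDiag = ∅ := by
        rw [eq_empty_iff_forall_notMem]
        intro x hx
        rw [mem_offDiag] at hx
        exact hx.2.2 (card_le_one.1 hU1 _ hx.1 _ hx.2.1)
      have e2 : qU U = 1 := by unfold qU; rw [e, prod_empty]
      rw [e2]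
      simp [hz]
    rw [this]
    positivity
  · set F : ℕ × ℕ → ℝ := fun x => hz z ((x.1 : ℤ) - x.2).natAbs ^ (k * (d + 1) * ((d + 1) * (d + 1))) - 1 with hF
    have hF0 : ∀ x, 0 ≤ F x := by
      intro x
      rw [hF]
      have := one_le_pow₀ (n := k * (d + 1) * ((d + 1) * (d + 1))) (hz_ge z ((x.1 : ℤ) - x.2).natAbs)
      simp only
      linarith
    have h1 : ∑ U ∈ powersetCard r D, (hz z (qU U) ^ (k * (d + 1)) - 1) ≤ ∑ U ∈ powersetCard r D, ∑ x ∈ U.offDiag, F x := by
      apply sum_le_sum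
      intro U hU
      rw [mem_powersetCard] at hU
      apply hz_qU
      rw [offDiag_card, hU.2]
      have := Nat.mul_le_mul hr hr
      omega
    have h2 := sum_pairs D r hr2 F hF0
    have h3 : ∑ x ∈ D.offDiag, F x ≤ ∑ x ∈ (Ioc J (J + L)).offDiag, F x := by
      apply sum_le_sum_of_subset_of_nonneg (Finset.offDiag_mono hD)
      intro x _ _
      exact hF0 x
    have h4 := sum_window J L (fun u => hz z u ^ (k * (d + 1) * ((d + 1) * (d + 1))) - 1) (fun u => by
      have := one_le_pow₀ (n := k * (d + 1) * ((d + 1) * (d + 1))) (hz_ge z u)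
      linarith)
    have h5 := hC z L hz1
    have hzr : (1 : ℝ) ≤ z := by exact_mod_cast hz1
    have h6 : ∑ x ∈ D.offDiag, F x ≤ 2 * L * (C * L / z) := by
      refine h3.trans (h4.trans ?_)
      apply mul_le_mul_of_nonneg_left h5 (by positivity)
    have h7 : (D.card : ℝ) ≤ L := by exact_mod_cast hcardD
    calc ∑ U ∈ powersetCard r D, (hz z (qU U) ^ (k * (d + 1)) - 1) ≤ (D.card : ℝ) ^ (r - 2) * ∑ x ∈ D.offDiag, F x := h1.trans h2
      _ ≤ (D.card : ℝ) ^ (r - 2) * (2 * L * (C * L / z)) := by gcongr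
      _ ≤ (L : ℝ) ^ (r - 2) * (2 * L * (C * L / z)) := by gcongr
      _ = 2 * C * ((L : ℝ) ^ (r - 2) * L ^ 2) / z := by ring
      _ = 2 * C * (L : ℝ) ^ r / z := by
          rw [← pow_add]
          congr 3
          omega

/-- binomial coefficients as sums over subsets -/
theorem choose_sum (D : Finset ℕ) (P : ℕ → Prop) [DecidablePred P] (r : ℕ) :
    (((D.filter P).card.choose r : ℕ) : ℝ) = ∑ U ∈ powersetCard r D, (if ∀ n ∈ U, P n then (1 : ℝ) else 0) := by
  classical
  rw [← card_powersetCard, ← sum_filter, sum_const, nsmul_eq_mul, mul_one]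
  congr 2
  ext U
  rw [mem_powersetCard, mem_filter, mem_powersetCard]
  constructor
  · rintro ⟨h1, h2⟩
    exact ⟨⟨h1.trans (filter_subset _ _), h2⟩, fun n hn => (mem_filter.1 (h1 hn)).2⟩
  · rintro ⟨⟨h1, h2⟩, h3⟩
    exact ⟨fun n hn => mem_filter.2 ⟨h1 hn, h3 n hn⟩, h2⟩

theorem desc_bound (X r : ℕ) : (X : ℝ) ^ r - (X.descFactorial r : ℝ) ≤ (r : ℝ) ^ 2 * (X : ℝ) ^ (r - 1) ∧
    ((X.descFactorial r : ℕ) : ℝ) ≤ (X : ℝ) ^ r := by
  refine ⟨?_, by exact_mod_cast Nat.descFactorial_le_pow X r⟩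
  induction r with
  | zero => simp
  | succ r ih =>
    rw [Nat.descFactorial_succ]
    push_cast
    have h1 : ((X.descFactorial r : ℕ) : ℝ) ≤ (X : ℝ) ^ r := by exact_mod_cast Nat.descFactorial_le_pow X r
    have h2 : (X : ℝ) - r ≤ ((X - r : ℕ) : ℝ) := by
      rw [sub_le_iff_le_add]
      exact_mod_cast (by omega : X ≤ X - r + r)
    have h3 : (0 : ℝ) ≤ ((X.descFactorial r : ℕ) : ℝ) := Nat.cast_nonneg _
    have hX : (0 : ℝ) ≤ X := Nat.cast_nonneg _
    have h4 : ((X : ℝ) - r) * X.descFactorial r ≤ ((X - r : ℕ) : ℝ) * X.descFactorial r := by gcongr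
    have h5 : (X : ℝ) * ((X : ℝ) ^ r - X.descFactorial r) ≤ X * ((r : ℝ) ^ 2 * (X : ℝ) ^ (r - 1)) := by gcongr
    have h6 : (X : ℝ) * ((r : ℝ) ^ 2 * (X : ℝ) ^ (r - 1)) ≤ (r : ℝ) ^ 2 * (X : ℝ) ^ r := by
      rcases r with _ | r
      · simp
      · simp only [Nat.add_sub_cancel]
        apply le_of_eq
        ring
    have h7 : (r : ℝ) * X.descFactorial r ≤ r * (X : ℝ) ^ r := by gcongr
    have h8 : (0 : ℝ) ≤ (X : ℝ) ^ r := by positivity
    have h9 : (0 : ℝ) ≤ (r : ℝ) := Nat.cast_nonneg _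
    have e9 : (r + 1 - 1 : ℕ) = r := by omega
    rw [pow_succ]
    nlinarith

theorem choose_lower (X r : ℕ) : (X : ℝ) ^ r / r.factorial - (r : ℝ) ^ 2 * (X : ℝ) ^ (r - 1) ≤ ((X.choose r : ℕ) : ℝ) := by
  have h1 := (desc_bound X r).1
  have hf : (1 : ℝ) ≤ r.factorial := by exact_mod_cast Nat.factorial_pos r
  have h2 : ((X.descFactorial r : ℕ) : ℝ) = r.factorial * X.choose r := by
    exact_mod_cast Nat.descFactorial_eq_factorial_mul_choose X r
  rw [sub_le_iff_le_add, div_le_iff₀ (by linarith)]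
  have h3 : (0 : ℝ) ≤ (r : ℝ) ^ 2 * (X : ℝ) ^ (r - 1) := by positivity
  rw [h2] at h1
  nlinarith

theorem choose_upper (X r : ℕ) : ((X.choose r : ℕ) : ℝ) ≤ (X : ℝ) ^ r / r.factorial := by
  have h1 := (desc_bound X r).2
  have hf : (0 : ℝ) < r.factorial := by exact_mod_cast Nat.factorial_pos r
  have h2 : ((X.descFactorial r : ℕ) : ℝ) = r.factorial * X.choose r := by
    exact_mod_cast Nat.descFactorial_eq_factorial_mul_choose X r
  rw [le_div_iff₀ hf]
  rw [h2] at h1
  linarith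

theorem prod_upper {ι : Type*} (s : Finset ι) (a u : ι → ℝ) (e : ℝ) (he : 0 ≤ e) (ha : ∀ i ∈ s, 0 ≤ a i ∧ a i ≤ 1)
    (hu : ∀ i ∈ s, 0 ≤ u i) (h : ∀ i ∈ s, a i ≤ u i + e) : ∏ i ∈ s, a i ≤ ∏ i ∈ s, u i + s.card * e := by
  classical
  have key : ∏ i ∈ s, a i ≤ ∏ i ∈ s, min (u i) 1 + s.card * e ∧ ∏ i ∈ s, min (u i) 1 ≤ 1 ∧ 0 ≤ ∏ i ∈ s, min (u i) 1 ∧ 0 ≤ ∏ i ∈ s, a i ∧
      ∏ i ∈ s, a i ≤ 1 := by
    induction s using Finset.induction_on with
    | empty => simp
    | insert i s hi ih =>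
      obtain ⟨h1, h2, h3, h4, h5⟩ := ih (fun j hj => ha j (mem_insert_of_mem hj)) (fun j hj => hu j (mem_insert_of_mem hj))
        (fun j hj => h j (mem_insert_of_mem hj))
      obtain ⟨b1, b2⟩ := ha i (mem_insert_self _ _)
      have b3 := hu i (mem_insert_self _ _)
      have b4 := h i (mem_insert_self _ _)
      rw [prod_insert hi, prod_insert hi, card_insert_of_notMem hi]
      have b5 : a i ≤ min (u i) 1 + e := by
        rcases min_choice (u i) 1 with h' | h'
        · rw [h']; exact b4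
        · rw [h']; linarith
      have b6 : 0 ≤ min (u i) 1 := le_min b3 zero_le_one
      have b7 : min (u i) 1 ≤ 1 := min_le_right _ _
      set P := ∏ j ∈ s, a j
      set Q := ∏ j ∈ s, min (u j) 1
      set m := min (u i) 1
      refine ⟨?_, mul_le_one₀ b7 h3 h2, mul_nonneg b6 h3, mul_nonneg b1 h4, mul_le_one₀ b2 h4 h5⟩
      push_cast
      have c1 : a i * P ≤ a i * (Q + s.card * e) := by gcongr
      have c2 : a i * (s.card * e) ≤ 1 * (s.card * e) := by gcongr
      have c3 : a i * Q ≤ (m + e) * Q := by gcongr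
      have c4 : e * Q ≤ e * 1 := by gcongr
      linarith
  refine key.1.trans ?_
  have : ∏ i ∈ s, min (u i) 1 ≤ ∏ i ∈ s, u i :=
    prod_le_prod (fun i hi => le_min (hu i hi) zero_le_one) (fun i _ => min_le_left _ _)
  linarith

theorem prod_lower {ι : Type*} (s : Finset ι) (a l : ι → ℝ) (e : ℝ) (he : 0 ≤ e) (ha : ∀ i ∈ s, 0 ≤ a i ∧ a i ≤ 1)
    (hl : ∀ i ∈ s, 0 ≤ l i ∧ l i ≤ 1) (h : ∀ i ∈ s, l i - e ≤ a i) : ∏ i ∈ s, l i - s.card * e ≤ ∏ i ∈ s, a i := by
  classical
  have key : ∏ i ∈ s, l i - s.card * e ≤ ∏ i ∈ s, a i ∧ ∏ i ∈ s, l i ≤ 1 ∧ 0 ≤ ∏ i ∈ s, l i ∧ 0 ≤ ∏ i ∈ s, a i := by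
    induction s using Finset.induction_on with
    | empty => simp
    | insert i s hi ih =>
      obtain ⟨h1, h2, h3, h4⟩ := ih (fun j hj => ha j (mem_insert_of_mem hj)) (fun j hj => hl j (mem_insert_of_mem hj))
        (fun j hj => h j (mem_insert_of_mem hj))
      obtain ⟨b1, b2⟩ := ha i (mem_insert_self _ _)
      obtain ⟨b3, b3'⟩ := hl i (mem_insert_self _ _)
      have b4 := h i (mem_insert_self _ _)
      rw [prod_insert hi, prod_insert hi, card_insert_of_notMem hi]
      set P := ∏ j ∈ s, a j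
      set Q := ∏ j ∈ s, l j
      refine ⟨?_, mul_le_one₀ b3' h3 h2, mul_nonneg b3 h3, mul_nonneg b1 h4⟩
      push_cast
      have c1 : a i * (Q - s.card * e) ≤ a i * P := by gcongr
      have c2 : a i * (s.card * e) ≤ 1 * (s.card * e) := by gcongr
      have c3 : (l i - e) * Q ≤ a i * Q := by gcongr
      have c4 : e * Q ≤ e * 1 := by gcongr
      linarith
  exact key.1

end Pool.Agent.H11P
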