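import Mathlib
import Pool.Agent.H11P.Poly1
import Pool.Agent.H11P.SumU

/-! The binomial moments for systems of random polynomials. -/

set_option autoImplicit false

namespace Pool.Agent.H11P

open Finset Filter

variable {k d : ℕ}

/-- the systems of coefficients -/
noncomputable def bxk (H W : ℕ) (α : Fin k → Fin (d + 1) → ℤ) : Finset (Fin k → Fin (d + 1) → ℤ) :=
  Fintype.piFinset fun i => bx H W (α i)

/-- the number of the points where all values are primes -/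
def cntk (c : Fin k → ℕ → ℤ) (a : Fin k → Fin (d + 1) → ℤ) (D : Finset ℕ) : ℕ :=
  (D.filter (fun n => ∀ i, (fv (c i) (a i) n).natAbs.Prime)).card

open Classical in
/-- the number of the points where all values are coprime to `W` -/
noncomputable def copk (c : Fin k → ℕ → ℤ) (W : ℕ) (α : Fin k → Fin (d + 1) → ℤ) (D : Finset ℕ) : ℕ :=
  (D.filter (fun n => ∀ i, IsCoprime (fv (c i) (α i) n) (W : ℤ))).card

theorem mom_eq (c : Fin k → ℕ → ℤ) (H W : ℕ) (α : Fin k → Fin (d + 1) → ℤ) (D : Finset ℕ) (r : ℕ) :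
    (∑ a ∈ bxk H W α, ((cntk c a D).choose r : ℝ)) / (bxk H W α).card =
      ∑ U ∈ powersetCard r D, ∏ i, avg (bx H W (α i)) (Phi (c i) U) := by
  classical
  have h1 : ∀ a ∈ bxk H W α, ((cntk c a D).choose r : ℝ) = ∑ U ∈ powersetCard r D, ∏ i, Phi (c i) U (a i) := by
    intro a _
    unfold cntk
    rw [choose_sum]
    apply sum_congr rfl
    intro U _
    by_cases h : ∀ n ∈ U, ∀ i, (fv (c i) (a i) n).natAbs.Prime
    · rw [if_pos h, prod_eq_one]
      intro i _
      unfold Phi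
      rw [if_pos (fun n hn => h n hn i)]
    · rw [if_neg h]
      push Not at h
      obtain ⟨n, hn, i, hi⟩ := h
      rw [prod_eq_zero (mem_univ i)]
      unfold Phi
      rw [if_neg (fun h' => hi (h' n hn))]
  rw [sum_congr rfl h1, sum_comm, sum_div]
  apply sum_congr rfl
  intro U _
  have h2 : ∑ a ∈ bxk H W α, ∏ i, Phi (c i) U (a i) = ∏ i, ∑ b ∈ bx H W (α i), Phi (c i) U b := by
    unfold bxk
    rw [prod_univ_sum]
  have h3 : ((bxk H W α).card : ℝ) = ∏ i, ((bx H W (α i)).card : ℝ) := by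
    unfold bxk
    rw [Fintype.card_piFinset]
    push_cast
    rfl
  rw [h2, h3, ← prod_div_distrib]
  rfl

theorem cop_eq (c : Fin k → ℕ → ℤ) (W : ℕ) (α : Fin k → Fin (d + 1) → ℤ) (D : Finset ℕ) (r : ℕ) :
    ((copk c W α D).choose r : ℝ) = ∑ U ∈ powersetCard r D, ∏ i, Psi (c i) W U (α i) := by
  classical
  unfold copk
  rw [choose_sum]
  apply sum_congr rfl
  intro U _
  by_cases h : ∀ n ∈ U, ∀ i, IsCoprime (fv (c i) (α i) n) (W : ℤ)
  · rw [if_pos h, prod_eq_one]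
    intro i _
    unfold Psi
    rw [if_pos (fun n hn => h n hn i)]
  · rw [if_neg h]
    push Not at h
    obtain ⟨n, hn, i, hi⟩ := h
    rw [prod_eq_zero (mem_univ i)]
    unfold Psi
    rw [if_neg (fun h' => hi (h' n hn))]

theorem avg_Phi_bd (c : ℕ → ℤ) (B : Finset (Fin (d + 1) → ℤ)) (U : Finset ℕ) : 0 ≤ avg B (Phi c U) ∧ avg B (Phi c U) ≤ 1 := by
  refine ⟨avg_nonneg _ _ fun b => (Phi_bd c U b).1, ?_⟩
  unfold avg
  apply div_le_one_of_le₀ _ (Nat.cast_nonneg _)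
  calc ∑ b ∈ B, Phi c U b ≤ ∑ _b ∈ B, (1 : ℝ) := sum_le_sum fun b _ => (Phi_bd c U b).2
    _ = B.card := by simp

/-- the bounds for one set -/
theorem prodB (hSW : SWU) (hk : 1 ≤ k) (A z E : ℕ) (ε : ℝ) (hε : 0 < ε) (hε1 : ε ≤ 1 / 2) : ∀ᶠ H : ℕ in atTop,
    ∀ (c : Fin k → ℕ → ℤ) (α : Fin k → Fin (d + 1) → ℤ) (U : Finset ℕ) (Y : ℕ), U.card ≤ d + 1 → (∀ m ∈ U, m ≤ Y) → (Y : ℝ) ≤ Real.log H ^ A →
    (∀ i, ∀ n ∈ U, |(c i n : ℝ)| ≤ H * Real.log H ^ A) →
    ((1 - ε) * kap (primorial z) / Real.log H) ^ (U.card * k) * (∏ i, Psi (c i) (primorial z) U (α i) -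
      k * (d + 1) * (hz z (qU U) ^ (k * (d + 1)) - 1)) - k * (1 / Real.log H ^ E) ≤
      ∏ i, avg (bx H (primorial z) (α i)) (Phi (c i) U) ∧
    ∏ i, avg (bx H (primorial z) (α i)) (Phi (c i) U) ≤
      ((1 + ε) * kap (primorial z) / Real.log H) ^ (U.card * k) * (∏ i, Psi (c i) (primorial z) U (α i) +
        (hz z (qU U) ^ (k * (d + 1)) - 1)) + k * (1 / Real.log H ^ E) := by
  filter_upwards [poly_one hSW d A z E ε hε hε1, ev_log 1, ev_log (primorial z : ℝ)] with H h1 g1 g2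
  intro c α U Y hU hY hYA hc
  obtain ⟨ℓ, hℓ⟩ : ∃ ℓ : ℝ, ℓ = Real.log H := ⟨_, rfl⟩
  rw [← hℓ] at g1 g2 hYA hc h1 ⊢
  have hℓ0 : 0 < ℓ := by linarith
  have hb := fun i => h1 (c i) (α i) U Y hU hY hYA (hc i)
  have hk1 := kap_ge (primorial z) (primorial_pos z)
  have hkW := kap_le (primorial z) (primorial_pos z)
  obtain ⟨κ, hκ⟩ : ∃ κ, κ = kap (primorial z) := ⟨_, rfl⟩
  obtain ⟨h, hh⟩ : ∃ h, h = hz z (qU U) := ⟨_, rfl⟩
  have hh1 : 1 ≤ h := by rw [hh]; exact hz_ge z _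
  rw [← hκ] at hb hk1 hkW ⊢
  rw [← hh] at hb ⊢
  obtain ⟨G, hG⟩ : ∃ G, G = ∏ i, Psi (c i) (primorial z) U (α i) := ⟨_, rfl⟩
  have hG0 : 0 ≤ G := by rw [hG]; exact prod_nonneg fun i _ => (Psi_bd _ _ _ _).1
  have hG1 : G ≤ 1 := by
    rw [hG]
    exact prod_le_one (fun i _ => (Psi_bd _ _ _ _).1) (fun i _ => (Psi_bd _ _ _ _).2)
  rw [← hG]
  have he : 0 ≤ 1 / ℓ ^ E := by positivity
  have hpow : h ^ (U.card * k) ≤ h ^ (k * (d + 1)) := by
    apply pow_le_pow_right₀ hh1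
    rw [mul_comm]
    exact Nat.mul_le_mul_left _ hU
  have hpow1 : h ≤ h ^ (k * (d + 1)) := by
    calc h = h ^ 1 := (pow_one h).symm
      _ ≤ h ^ (k * (d + 1)) := pow_le_pow_right₀ hh1 (Nat.mul_pos hk (by omega))
  have hcard : ((univ : Finset (Fin k)).card : ℝ) = k := by simp
  constructor
  · -- lower bound
    obtain ⟨σ, hσ⟩ : ∃ σ : ℝ, σ = U.card * (h - 1) := ⟨_, rfl⟩
    have hσ0 : 0 ≤ σ := by rw [hσ]; apply mul_nonneg (Nat.cast_nonneg _); linarith
    have hσle : σ ≤ (d + 1) * (h ^ (k * (d + 1)) - 1) := by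
      rw [hσ]
      have : (U.card : ℝ) ≤ d + 1 := by exact_mod_cast hU
      apply mul_le_mul this _ (by linarith) (by positivity)
      linarith
    obtain ⟨ρ, hρ⟩ : ∃ ρ : ℝ, ρ = (1 - ε) * κ / ℓ := ⟨_, rfl⟩
    have hρ0 : 0 ≤ ρ := by
      rw [hρ]
      apply div_nonneg (mul_nonneg (by linarith) (by linarith)) hℓ0.le
    have hρ1 : ρ ≤ 1 := by
      rw [hρ, div_le_one hℓ0]
      nlinarith
    rw [← hρ]
    have hkr : (1 : ℝ) ≤ k := by exact_mod_cast hk
    have hpos : 0 ≤ ρ ^ (U.card * k) := by positivity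
    have hfin : ρ ^ (U.card * k) * (G - k * (d + 1) * (h ^ (k * (d + 1)) - 1)) ≤ ρ ^ (U.card * k) * (G - k * σ) := by
      apply mul_le_mul_of_nonneg_left _ hpos
      have : (k : ℝ) * σ ≤ k * ((d + 1) * (h ^ (k * (d + 1)) - 1)) := by gcongr
      linarith
    refine le_trans (sub_le_sub_right hfin _) ?_
    rcases le_or_gt 1 σ with hs | hs
    · have h2 : G - k * σ ≤ 0 := by nlinarith
      have h3 : ρ ^ (U.card * k) * (G - k * σ) ≤ 0 := mul_nonpos_of_nonneg_of_nonpos hpos h2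
      have h4 : 0 ≤ ∏ i, avg (bx H (primorial z) (α i)) (Phi (c i) U) := prod_nonneg fun i _ => (avg_Phi_bd _ _ _).1
      have h5 : 0 ≤ (k : ℝ) * (1 / ℓ ^ E) := by positivity
      linarith
    · have h2 := prod_lower univ (fun i => avg (bx H (primorial z) (α i)) (Phi (c i) U))
        (fun i => ρ ^ U.card * (Psi (c i) (primorial z) U (α i) * (1 - σ))) (1 / ℓ ^ E) he (fun i _ => avg_Phi_bd _ _ _)
        (fun i _ => by
          obtain ⟨b1, b2⟩ := Psi_bd (c i) (primorial z) U (α i)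
          have b3 : 0 ≤ 1 - σ := by linarith
          refine ⟨by positivity, ?_⟩
          apply mul_le_one₀ (pow_le_one₀ hρ0 hρ1) (by positivity)
          apply mul_le_one₀ b2 b3 (by linarith))
        (fun i _ => by
          rw [hρ, hσ]
          exact (hb i).1)
      rw [hcard] at h2
      refine le_trans ?_ h2
      apply sub_le_sub_right
      rw [prod_mul_distrib, prod_mul_distrib, ← hG, prod_const, prod_const, card_univ, Fintype.card_fin, ← pow_mul]
      apply mul_le_mul_of_nonneg_left _ hpos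
      have h3 := one_add_mul_le_pow (show (-2 : ℝ) ≤ -σ by linarith) k
      have e : (1 + -σ) = 1 - σ := by ring
      rw [e] at h3
      calc G - k * σ ≤ G * (1 + k * -σ) := by
            have : G * (k * σ) ≤ 1 * (k * σ) := by gcongr
            linarith
        _ ≤ G * (1 - σ) ^ k := by gcongr
  · have h2 := prod_upper univ (fun i => avg (bx H (primorial z) (α i)) (Phi (c i) U))
      (fun i => ((1 + ε) * κ * h / ℓ) ^ U.card * Psi (c i) (primorial z) U (α i)) (1 / ℓ ^ E) he (fun i _ => avg_Phi_bd _ _ _)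
      (fun i _ => by
        obtain ⟨b1, b2⟩ := Psi_bd (c i) (primorial z) U (α i)
        have : 0 ≤ κ := by linarith
        have : 0 ≤ h := by linarith
        positivity) (fun i _ => (hb i).2)
    rw [hcard] at h2
    refine h2.trans ?_
    apply add_le_add _ le_rfl
    rw [prod_mul_distrib, ← hG, prod_const, card_univ, Fintype.card_fin, ← pow_mul]
    have e : (1 + ε) * κ * h / ℓ = ((1 + ε) * κ / ℓ) * h := by ring
    rw [e, mul_pow, mul_assoc]
    have : 0 ≤ κ := by linarith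
    apply mul_le_mul_of_nonneg_left _ (by positivity)
    have h3 : 1 ≤ h ^ (U.card * k) := one_le_pow₀ hh1
    nlinarith

end Pool.Agent.H11P
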