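import Mathlib
import Pool.Agent.H11P.Sys

/-! The mean density of the coprimality condition on an interval. -/

set_option autoImplicit false

namespace Pool.Agent.H11P

open Finset Filter

theorem crt_two (p M : ℕ) (hp : 0 < p) (hM : 0 < M) (hc : Nat.Coprime p M) (P Q : ℕ → Prop) [DecidablePred P] [DecidablePred Q]
    (hP : ∀ n, P (n % p) ↔ P n) (hQ : ∀ n, Q (n % M) ↔ Q n) :
    ((range (p * M)).filter (fun n => P n ∧ Q n)).card = ((range p).filter P).card * ((range M).filter Q).card := by
  rw [← card_product]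
  apply card_bij (fun n _ => (n % p, n % M))
  · intro n hn
    rw [mem_filter, mem_range] at hn
    rw [mem_product, mem_filter, mem_filter, mem_range, mem_range]
    exact ⟨⟨Nat.mod_lt _ hp, (hP n).2 hn.2.1⟩, Nat.mod_lt _ hM, (hQ n).2 hn.2.2⟩
  · intro n hn n' hn' h
    rw [mem_filter, mem_range] at hn hn'
    rw [Prod.mk.injEq] at h
    have h1 : n ≡ n' [MOD p * M] := (Nat.modEq_and_modEq_iff_modEq_mul hc).1 ⟨h.1, h.2⟩
    exact Nat.ModEq.eq_of_lt_of_lt h1 hn.1 hn'.1
  · intro y hy
    rw [mem_product, mem_filter, mem_filter, mem_range, mem_range] at hy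
    obtain ⟨⟨h1, h2⟩, h3, h4⟩ := hy
    obtain ⟨x, hx1, hx2⟩ := Nat.chineseRemainder hc y.1 y.2
    refine ⟨x % (p * M), ?_, ?_⟩
    · rw [mem_filter, mem_range]
      refine ⟨Nat.mod_lt _ (Nat.mul_pos hp hM), ?_, ?_⟩
      · rw [← hP, Nat.mod_mul_right_mod]
        have : x % p = y.1 := by rw [hx1, Nat.mod_eq_of_lt h1]
        rw [this]
        exact h2
      · rw [← hQ, Nat.mod_mul_left_mod]
        have : x % M = y.2 := by rw [hx2, Nat.mod_eq_of_lt h3]
        rw [this]
        exact h4
    · rw [Nat.mod_mul_right_mod, Nat.mod_mul_left_mod]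
      have e1 : x % p = y.1 := by rw [hx1, Nat.mod_eq_of_lt h1]
      have e2 : x % M = y.2 := by rw [hx2, Nat.mod_eq_of_lt h3]
      rw [e1, e2]

theorem crt_prod (S : Finset ℕ) (hS : ∀ p ∈ S, p.Prime) (P : ℕ → ℕ → Prop) [∀ p, DecidablePred (P p)]
    (hP : ∀ p ∈ S, ∀ n, P p (n % p) ↔ P p n) :
    ((range (∏ p ∈ S, p)).filter (fun n => ∀ p ∈ S, P p n)).card = ∏ p ∈ S, ((range p).filter (P p)).card := by
  classical
  induction S using Finset.induction_on with
  | empty => simp
  | insert p S hp ih =>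
    have hpp := hS p (mem_insert_self _ _)
    have h1 := ih (fun q hq => hS q (mem_insert_of_mem hq)) (fun q hq => hP q (mem_insert_of_mem hq))
    rw [prod_insert hp, prod_insert hp, ← h1]
    have hM : 0 < ∏ q ∈ S, q := by
      apply Nat.pos_of_ne_zero
      apply prod_ne_zero_iff.2
      intro q hq
      exact (hS q (mem_insert_of_mem hq)).ne_zero
    have hc : Nat.Coprime p (∏ q ∈ S, q) := by
      apply Nat.Coprime.prod_right
      intro q hq
      rw [Nat.coprime_primes hpp (hS q (mem_insert_of_mem hq))]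
      rintro rfl
      exact hp hq
    rw [← crt_two p (∏ q ∈ S, q) hpp.pos hM hc (P p) (fun n => ∀ q ∈ S, P q n) (hP p (mem_insert_self _ _))]
    · congr 1
      apply filter_congr
      intro n _
      rw [forall_mem_insert]
    · intro n
      apply forall₂_congr
      intro q hq
      have hqM : q ∣ ∏ q ∈ S, q := dvd_prod_of_mem _ hq
      rw [← hP q (mem_insert_of_mem hq), Nat.mod_mod_of_dvd _ hqM, hP q (mem_insert_of_mem hq)]

/-- a periodic condition on an interval -/
theorem periodic_count (W : ℕ) (hW : 1 ≤ W) (g : ℕ → Prop) [DecidablePred g] (hg : ∀ n, g (n % W) ↔ g n) (J L : ℕ) :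
    |(((Ioc J (J + L)).filter g).card : ℝ) - L * (((range W).filter g).card / W)| ≤ W := by
  have hper : Function.Periodic g W := by
    intro n
    apply propext
    rw [← hg (n + W), Nat.add_mod_right, hg]
  have hblock : ∀ n q : ℕ, ((Ico n (n + q * W)).filter g).card = q * ((range W).filter g).card := by
    intro n q
    induction q with
    | zero => simp
    | succ q ih =>
      have e : Ico n (n + (q + 1) * W) = Ico n (n + q * W) ∪ Ico (n + q * W) (n + q * W + W) := by
        rw [Finset.Ico_union_Ico_eq_Ico (by omega) (by omega)]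
        congr 1
        ring
      rw [e, filter_union, card_union_of_disjoint, ih, Nat.filter_Ico_card_eq_of_periodic _ _ g hper, Nat.count_eq_card_filter_range]
      · ring
      · rw [Finset.disjoint_left]
        intro x h1 h2
        rw [mem_filter, mem_Ico] at h1 h2
        omega
  obtain ⟨c, hc⟩ : ∃ c, c = ((range W).filter g).card := ⟨_, rfl⟩
  rw [← hc] at hblock ⊢
  have hcW : c ≤ W := by
    rw [hc]
    have := card_filter_le (range W) g
    rwa [card_range] at this
  have eI : Ioc J (J + L) = Ico (J + 1) (J + 1 + L) := by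
    ext x; simp only [mem_Ioc, mem_Ico]; omega
  rw [eI]
  have hdm := Nat.div_add_mod L W
  have hml : L % W < W := Nat.mod_lt _ hW
  have hlow : L / W * c ≤ ((Ico (J + 1) (J + 1 + L)).filter g).card := by
    rw [← hblock (J + 1) (L / W)]
    apply card_le_card
    apply filter_subset_filter
    apply Ico_subset_Ico le_rfl
    have : L / W * W = W * (L / W) := Nat.mul_comm _ _
    omega
  have hupp : ((Ico (J + 1) (J + 1 + L)).filter g).card ≤ (L / W + 1) * c := by
    rw [← hblock (J + 1) (L / W + 1)]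
    apply card_le_card
    apply filter_subset_filter
    apply Ico_subset_Ico le_rfl
    have : (L / W + 1) * W = W * (L / W) + W := by ring
    omega
  have hW0 : (0 : ℝ) < W := by exact_mod_cast hW
  have hlr : ((L / W : ℕ) : ℝ) * c ≤ (((Ico (J + 1) (J + 1 + L)).filter g).card : ℝ) := by exact_mod_cast hlow
  have hur : (((Ico (J + 1) (J + 1 + L)).filter g).card : ℝ) ≤ (((L / W : ℕ) : ℝ) + 1) * c := by exact_mod_cast hupp
  have hL : (L : ℝ) = W * ((L / W : ℕ) : ℝ) + ((L % W : ℕ) : ℝ) := by exact_mod_cast hdm.symm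
  have hm0 : (0 : ℝ) ≤ ((L % W : ℕ) : ℝ) := Nat.cast_nonneg _
  have hm1 : ((L % W : ℕ) : ℝ) ≤ W := by exact_mod_cast hml.le
  have hc0 : (0 : ℝ) ≤ c := Nat.cast_nonneg _
  have hcW' : (c : ℝ) ≤ W := by exact_mod_cast hcW
  have e : (L : ℝ) * (c / W) = ((L / W : ℕ) : ℝ) * c + ((L % W : ℕ) : ℝ) / W * c := by
    rw [hL]
    field_simp
  have hq0 : 0 ≤ ((L % W : ℕ) : ℝ) / W * c := by positivity
  have hq1 : ((L % W : ℕ) : ℝ) / W * c ≤ 1 * c := by
    apply mul_le_mul_of_nonneg_right _ hc0
    rw [div_le_one hW0]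
    exact hm1
  rw [e, abs_le]
  constructor <;> linarith

end Pool.Agent.H11P
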