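import Mathlib
import Pool.Agent.H11P.Main
import Pool.Agent.H11P.LawDefs

/-! The Poisson law. -/

set_option autoImplicit false

namespace Pool.Agent.H11P.Law

open Finset Filter Pool.Agent.H11P

variable {k d : ℕ}

theorem value_eq (P : Polynomial ℤ) (a : Fin (d + 1) → ℤ) (n : ℕ) : value P a n = fv (fun n => P.eval (n : ℤ)) a n := rfl

theorem prod_primesTo (z : ℕ) : ∏ p ∈ primesTo z, p = primorial z := rfl

theorem box_eq (H z : ℕ) (α : Fin k → Fin (d + 1) → ℤ) : box H z α = bxk H (primorial z) α := rfl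

theorem hits_eq (P : Fin k → Polynomial ℤ) (D : Finset ℕ) (a : Fin k → Fin (d + 1) → ℤ) :
    hits P D a = cntk (fun i n => (P i).eval (n : ℤ)) a D := rfl

theorem cop_iff (x : ℤ) (z : ℕ) : IsCoprime x ((primorial z : ℕ) : ℤ) ↔ ∀ p ∈ primesTo z, ¬ (p : ℤ) ∣ x := by
  constructor
  · intro h p hp hd
    unfold primesTo at hp
    rw [mem_filter, mem_range] at hp
    have h10 : p ∣ primorial z := hp.2.dvd_primorial_iff.2 (by omega)
    have h12 := h.isUnit_of_dvd' hd (Int.natCast_dvd_natCast.2 h10)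
    exact (Nat.prime_iff_prime_int.1 hp.2).not_isUnit h12
  · intro h
    rw [Int.isCoprime_iff_gcd_eq_one]
    by_contra hcon
    obtain ⟨p, hp, hpd⟩ := Nat.exists_prime_and_dvd hcon
    have h7 : (p : ℤ) ∣ x := (Int.natCast_dvd_natCast.2 hpd).trans (Int.gcd_dvd_left _ _)
    have h8 : p ∣ primorial z := Int.natCast_dvd_natCast.1 ((Int.natCast_dvd_natCast.2 hpd).trans (Int.gcd_dvd_right _ _))
    apply h p _ h7
    unfold primesTo
    rw [mem_filter, mem_range]
    have := hp.dvd_primorial_iff.1 h8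
    exact ⟨by omega, hp⟩

theorem sifted_eq (P : Fin k → Polynomial ℤ) (D : Finset ℕ) (z : ℕ) (α : Fin k → Fin (d + 1) → ℤ) :
    sifted P D z α = copk (fun i n => (P i).eval (n : ℤ)) (primorial z) α D := by
  unfold sifted copk
  congr 1
  apply filter_congr
  intro n _
  constructor
  · intro h i
    rw [cop_iff]
    intro p hp
    exact h p hp i
  · intro h p hp i
    exact (cop_iff _ z).1 (h i) p hp

theorem kap_prod (z : ℕ) : ∏ p ∈ primesTo z, (1 - 1 / (p : ℝ))⁻¹ = kap (primorial z) := by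
  rw [kap_eq _ (primorial_pos z), primeFactors_primorial]
  apply prod_congr rfl
  intro p hp
  have hpp : p.Prime := (mem_filter.1 hp).2
  rw [fac_eq p hpp, one_div]

theorem mean_eq (P : Fin k → Polynomial ℤ) (D : Finset ℕ) (z H : ℕ) (α : Fin k → Fin (d + 1) → ℤ) :
    mean P D z H α = (kap (primorial z) / Real.log H) ^ k * copk (fun i n => (P i).eval (n : ℤ)) (primorial z) α D := by
  unfold mean
  rw [kap_prod, sifted_eq, div_pow]
  ring

theorem value_mod (P : Polynomial ℤ) (a : Fin (d + 1) → ℤ) (W n : ℕ) : (W : ℤ) ∣ value P a (n % W) - value P a n := by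
  obtain ⟨q, hq⟩ : ∃ q : Polynomial ℤ, ∀ n : ℕ, value P a n = q.eval (n : ℤ) := by
    refine ⟨P + ∑ l : Fin (d + 1), Polynomial.C (a l) * Polynomial.X ^ (l : ℕ), fun n => ?_⟩
    unfold value
    rw [Polynomial.eval_add, Polynomial.eval_finsetSum]
    simp
  rw [hq, hq]
  refine Dvd.dvd.trans ?_ (Polynomial.sub_dvd_eval_sub _ _ q)
  have h1 : ((n % W : ℕ) : ℤ) - n = -(W * (n / W : ℕ)) := by
    have := Nat.div_add_mod n W
    have h2 : (n : ℤ) = W * (n / W : ℕ) + (n % W : ℕ) := by exact_mod_cast this.symm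
    linarith
  rw [h1]
  exact (Dvd.intro _ rfl).neg_right

theorem bh_eq (P : Fin k → Polynomial ℤ) (z : ℕ) (α : Fin k → Fin (d + 1) → ℤ) :
    bhConst P z α = kap (primorial z) ^ k *
      ((((range (primorial z)).filter (fun n => ∀ p ∈ primesTo z, ∀ i, ¬ (p : ℤ) ∣ value (P i) (α i) n)).card : ℝ) / (primorial z : ℕ)) := by
  classical
  have hpr : ∀ p ∈ primesTo z, p.Prime := fun p hp => (mem_filter.1 hp).2
  have h1 := crt_prod (primesTo z) hpr (fun p n => ∀ i, ¬ (p : ℤ) ∣ value (P i) (α i) n) (fun p hp n => by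
    apply forall_congr'
    intro i
    have := value_mod (P i) (α i) p n
    rw [not_iff_not]
    exact ⟨fun h => (dvd_sub_right h).1 this, fun h => (dvd_sub_left h).1 this⟩)
  rw [prod_primesTo] at h1
  rw [h1]
  have h2 : ((primorial z : ℕ) : ℝ) = ∏ p ∈ primesTo z, (p : ℝ) := by
    rw [← prod_primesTo]; push_cast; rfl
  rw [h2]
  push_cast
  rw [← prod_div_distrib, ← kap_prod, ← prod_pow, ← prod_mul_distrib]
  unfold bhConst
  apply prod_congr rfl
  intro p hp
  have hp0 : (0 : ℝ) < p := by exact_mod_cast (hpr p hp).pos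
  have h3 : (((range p).filter (fun n => ∀ i, ¬ (p : ℤ) ∣ value (P i) (α i) n)).card : ℝ) = p - omega P α p := by
    have h4 := Finset.card_filter_add_card_filter_not (s := range p) (p := fun n => ∃ i, (p : ℤ) ∣ value (P i) (α i) n)
    rw [card_range] at h4
    have h5 : ((range p).filter (fun n => ¬ ∃ i, (p : ℤ) ∣ value (P i) (α i) n)) = ((range p).filter (fun n => ∀ i, ¬ (p : ℤ) ∣ value (P i) (α i) n)) := by
      apply filter_congr
      intro n _
      push Not
      rfl
    rw [h5] at h4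
    have h6 : ((omega P α p : ℕ) : ℝ) + (((range p).filter (fun n => ∀ i, ¬ (p : ℤ) ∣ value (P i) (α i) n)).card : ℝ) = p := by
      exact_mod_cast h4
    linarith
  have h7 : ((p : ℝ) - omega P α p) / p = 1 - (omega P α p : ℝ) / p := by field_simp
  rw [h3, inv_pow, h7, div_eq_mul_inv, mul_comm]

theorem mean_interval (P : Fin k → Polynomial ℤ) (z H : ℕ) (α : Fin k → Fin (d + 1) → ℤ) (J L : ℕ) (hH : 1 ≤ Real.log H) :
    |mean P (Ioc J (J + L)) z H α - bhConst P z α * L / Real.log H ^ k| ≤ kap (primorial z) ^ k * primorial z / Real.log H ^ k := by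
  classical
  have hℓ : 0 < Real.log H := by linarith
  have h1 := periodic_count (primorial z) (primorial_pos z) (fun n => ∀ p ∈ primesTo z, ∀ i, ¬ (p : ℤ) ∣ value (P i) (α i) n) (fun n => by
    apply forall₂_congr
    intro p hp
    apply forall_congr'
    intro i
    have h2 := value_mod (P i) (α i) (primorial z) n
    have h3 : (p : ℤ) ∣ ((primorial z : ℕ) : ℤ) := by
      apply Int.natCast_dvd_natCast.2
      exact dvd_prod_of_mem (fun p => p) hp
    have := h3.trans h2
    rw [not_iff_not]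
    exact ⟨fun h => (dvd_sub_right h).1 this, fun h => (dvd_sub_left h).1 this⟩) J L
  have hk0 : 0 ≤ kap (primorial z) := zero_le_one.trans (kap_ge _ (primorial_pos z))
  have e : mean P (Ioc J (J + L)) z H α - bhConst P z α * L / Real.log H ^ k =
      kap (primorial z) ^ k / Real.log H ^ k * ((((Ioc J (J + L)).filter (fun n => ∀ p ∈ primesTo z, ∀ i, ¬ (p : ℤ) ∣ value (P i) (α i) n)).card : ℝ) -
        L * ((((range (primorial z)).filter (fun n => ∀ p ∈ primesTo z, ∀ i, ¬ (p : ℤ) ∣ value (P i) (α i) n)).card : ℝ) / (primorial z : ℕ))) := by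
    rw [bh_eq]
    unfold mean sifted
    rw [kap_prod]
    ring
  rw [e, abs_mul, abs_of_nonneg (by positivity)]
  calc kap (primorial z) ^ k / Real.log H ^ k * _ ≤ kap (primorial z) ^ k / Real.log H ^ k * (primorial z : ℕ) :=
        mul_le_mul_of_nonneg_left h1 (by positivity)
    _ = kap (primorial z) ^ k * primorial z / Real.log H ^ k := by ring

theorem law (hSW : SWU) (k d A : ℕ) (hk : 1 ≤ k) (Λ ε : ℝ) (hε : 0 < ε) : ∃ z₀ : ℕ, ∀ z ≥ z₀, ∃ H₀ : ℕ, ∀ H ≥ H₀,
    ∀ (P : Fin k → Polynomial ℤ) (α : Fin k → Fin (d + 1) → ℤ) (J L : ℕ) (D : Finset ℕ), D ⊆ Ioc J (J + L) →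
    (L : ℝ) ≤ Λ * Real.log H ^ k → ((J + L : ℕ) : ℝ) ≤ Real.log H ^ A →
    (∀ i, ∀ n ∈ D, |(((P i).eval (n : ℤ) : ℤ) : ℝ)| ≤ H * Real.log H ^ A) →
    (∀ r ≤ d + 1, |(∑ a ∈ box H z α, ((hits P D a).choose r : ℝ)) / (box H z α).card - mean P D z H α ^ r / r.factorial| ≤ ε) ∧
    (∀ j ≤ d + 1, |(((box H z α).filter fun a => hits P D a = j).card : ℝ) / (box H z α).card -
      Real.exp (-mean P D z H α) * mean P D z H α ^ j / j.factorial| ≤
        mean P D z H α ^ (d + 1) / (j.factorial * (d + 1 - j).factorial) + ε) ∧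
    (D = Ioc J (J + L) → |mean P D z H α - bhConst P z α * L / Real.log H ^ k| ≤ ε) := by
  obtain ⟨z0, h0⟩ := moments hSW k d A hk (max Λ 1) (le_max_right _ _) (ε / 2 ^ (d + 2)) (by positivity)
  refine ⟨z0, fun z hz => ?_⟩
  obtain ⟨H0, h1⟩ := h0 z hz
  obtain ⟨H1, h2⟩ := ((ev_log 1).and ((ev_log (kap (primorial z) ^ k * primorial z / ε)).and (eventually_ge_atTop (primorial z)))).exists_forall_of_atTop
  refine ⟨max H0 H1, fun H hH P α J L D hD hL hJL hP => ?_⟩
  obtain ⟨g1, g2, g3⟩ := h2 H ((le_max_right _ _).trans hH)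
  have hm := h1 H ((le_max_left _ _).trans hH) (fun i n => (P i).eval (n : ℤ)) α J L D hD
    (hL.trans (mul_le_mul_of_nonneg_right (le_max_left _ _) (by positivity))) hJL hP
  have hmean0 : 0 ≤ mean P D z H α := by
    rw [mean_eq]
    have : 0 ≤ kap (primorial z) := zero_le_one.trans (kap_ge _ (primorial_pos z))
    positivity
  have hm' : ∀ r ≤ d + 1, |(∑ a ∈ box H z α, ((hits P D a).choose r : ℝ)) / (box H z α).card - mean P D z H α ^ r / r.factorial| ≤ ε / 2 ^ (d + 2) := by
    intro r hr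
    rw [mean_eq]
    exact hm r hr
  refine ⟨fun r hr => (hm' r hr).trans ?_, fun j hj => ?_, fun hDe => ?_⟩
  · apply div_le_self hε.le
    exact one_le_pow₀ (by norm_num)
  · have hcard : 0 < (box H z α).card := by
      rw [card_pos, box_eq]
      unfold bxk
      rw [Fintype.piFinset_nonempty]
      intro i
      exact bx_nonempty H (primorial z) (α i) (primorial_pos z) g3
    have h3 := poisson_of_moments (box H z α) (hits P D) (mean P D z H α) (ε / 2 ^ (d + 2)) hmean0 hcard j (d + 1) hj hm'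
    refine h3.trans (le_of_eq ?_)
    congr 1
    field_simp
  · rw [hDe]
    refine (mean_interval P z H α J L g1).trans ?_
    have hℓ : 0 < Real.log H := by linarith
    rw [div_le_iff₀ (by positivity)]
    rw [div_le_iff₀ hε] at g2
    calc kap (primorial z) ^ k * primorial z ≤ Real.log H * ε := g2
      _ = ε * Real.log H ^ 1 := by ring
      _ ≤ ε * Real.log H ^ k := by
          apply mul_le_mul_of_nonneg_left _ hε.le
          exact pow_le_pow_right₀ g1 hk

end Pool.Agent.H11P.Law
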