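import Mathlib
import Pool.Agent.H442R2.EHI.PntErr
import Pool.Agent.H343R2.EH.Psi
import Pool.Agent.H343R2.EH.Primes
import Pool.Agent.H11P.LamDef

/-! The von Mangoldt function in progressions to small moduli. -/

set_option autoImplicit false

namespace Pool.Agent.H11P
open Finset Filter

theorem lam1_eq (y : ℕ) : lam1 y = Chebyshev.psi (y : ℝ) := by
  unfold lam1 Chebyshev.psi
  rw [Nat.floor_natCast]
  congr 1

theorem lam1_le (y : ℕ) : lam1 y ≤ 6 * y := by
  rw [lam1_eq]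
  refine (Chebyshev.psi_le_const_mul_self (Nat.cast_nonneg _)).trans ?_
  apply mul_le_mul_of_nonneg_right _ (Nat.cast_nonneg _)
  have h : Real.log 4 = 2 * Real.log 2 := by
    rw [show (4 : ℝ) = 2 ^ 2 by norm_num, Real.log_pow]; norm_num
  rw [h]
  have := Real.log_two_lt_d9
  linarith

theorem lamAP_nonneg (y q c : ℕ) : 0 ≤ lamAP y q c := sum_nonneg fun _ _ => ArithmeticFunction.vonMangoldt_nonneg

theorem lamAP_le (y q c : ℕ) : lamAP y q c ≤ 6 * y := by
  refine le_trans ?_ (lam1_le y)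
  exact sum_le_sum_of_subset_of_nonneg (filter_subset _ _) (fun _ _ _ => ArithmeticFunction.vonMangoldt_nonneg)

/-- the prime number theorem -/
theorem pnt_lam (U : ℕ) : ∃ (C : ℝ) (N1 : ℕ), 0 < C ∧ ∀ y : ℕ, N1 ≤ y → |lam1 y - y| ≤ C * (y / Real.log y ^ U) + 2 := by
  obtain ⟨C, hC, N1, h⟩ := Pool.Agent.H442R2.EHI.PntErrAux.largeU U
  refine ⟨C, N1, hC, fun y hy => ?_⟩
  rw [lam1_eq]
  exact h y hy

/-- Siegel-Walfisz -/
theorem sw_lam (U K : ℕ) : ∃ y0 : ℕ, ∀ y : ℕ, y0 ≤ y → ∀ q : ℕ, 1 ≤ q → (q : ℝ) ≤ Real.log y ^ K →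
    ∀ c : ℕ, c.Coprime q → |lamAP y q c - lam1 y / (Nat.totient q : ℝ)| ≤ y / Real.log y ^ U := by
  obtain ⟨B, X0, h0⟩ := H343E.unsmoothed U
  obtain ⟨x1, h1⟩ := (ev_pow (2 * K + B) 1 (1 / 2) (by norm_num)).exists_forall_of_atTop
  obtain ⟨x2, h2⟩ := (ev_log 1).exists_forall_of_atTop
  refine ⟨max (max ⌈X0⌉₊ x1) (max x2 1), fun y hy q hq hqy c hcop => ?_⟩
  have hy0 : X0 ≤ y := (Nat.le_ceil _).trans (by exact_mod_cast le_trans (le_trans (le_max_left _ _) (le_max_left _ _)) hy)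
  have hy1 : x1 ≤ y := le_trans (le_trans (le_max_right _ _) (le_max_left _ _)) hy
  have hy2 : x2 ≤ y := le_trans (le_trans (le_max_left _ _) (le_max_right _ _)) hy
  have hy3 : 1 ≤ y := le_trans (le_trans (le_max_right _ _) (le_max_right _ _)) hy
  have hyR : (1 : ℝ) ≤ y := by exact_mod_cast hy3
  have hL := h2 y hy2
  have hL0 : 0 < Real.log y := by linarith
  have hA := h1 y hy1
  rw [← Real.sqrt_eq_rpow, one_mul, pow_add, pow_mul'] at hA
  have hsq : √(y : ℝ) ≤ y := by
    rw [Real.sqrt_le_left (by positivity)]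
    nlinarith
  have hq1 : (1 : ℝ) ≤ q := by exact_mod_cast hq
  have hD2 : (q : ℝ) ^ 2 ≤ 1 * y / Real.log y ^ B := by
    rw [le_div_iff₀ (by positivity), one_mul]
    refine le_trans ?_ (hA.trans hsq)
    gcongr
  have hD1 : (q : ℝ) ≤ y / Real.log y ^ B := by
    rw [one_mul] at hD2
    refine le_trans ?_ hD2
    nlinarith
  have hcc : (c % q).Coprime q := by
    unfold Nat.Coprime
    rw [(Nat.mod_modEq c q).gcd_eq]
    exact hcop
  have h4 := h0 y hy0 1 le_rfl q hD1 hD2 (fun q' => if q' = q then {c % q} else ∅)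
    ⟨fun q' a ha => by
      split_ifs at ha with hh
      · rw [mem_singleton] at ha
        rw [ha, hh]
        exact ⟨Nat.mod_lt _ (by omega), hcc⟩
      · simp at ha, fun q' => by
      split_ifs <;> simp⟩
  rw [one_mul] at h4
  refine le_trans ?_ h4
  have h5 := single_le_sum (f := fun q' => ∑ a ∈ (if q' = q then ({c % q} : Finset ℕ) else ∅),
    |H343E.psiAP y q' a - H343E.psi1 y / (Nat.totient q' : ℝ)|)
    (s := Icc 1 q) (fun i _ => sum_nonneg (fun _ _ => abs_nonneg _)) (mem_Icc.2 ⟨hq, le_rfl⟩)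
  refine le_trans (le_of_eq ?_) h5
  simp only [if_true, sum_singleton]
  have e1 : lamAP y q c = H343E.psiAP y q (c % q) := by
    unfold lamAP H343E.psiAP
    rw [Nat.floor_natCast]
    apply sum_congr _ (fun _ _ => rfl)
    apply filter_congr
    intro n _
    unfold Nat.ModEq
    rw [Nat.mod_mod]
  have e2 : lam1 y = H343E.psi1 y := by
    unfold lam1 H343E.psi1
    rw [Nat.floor_natCast]
  rw [e1, e2]

/-- Siegel-Walfisz and the prime number theorem, for all `y ≤ x` -/
theorem swU : SWU := by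
  intro U K
  obtain ⟨y0, h0⟩ := sw_lam (U + 1) (K + 1)
  obtain ⟨C, N1, hC, h1⟩ := pnt_lam (U + 1)
  filter_upwards [ev_pow U 6 (1 / 2) (by norm_num), ev_log (2 ^ (U + 3)), ev_log (C * 2 ^ (U + 3)), ev_log (2 ^ (K + 1)),
    ev_pow U 16 1 one_pos, eventually_ge_atTop ((max y0 N1) ^ 2 + 1), ev_log 1] with x g1 g2 g3 g4 g5 g6 g7 y hy q hq hqx c hc
  have hx1 : (1 : ℝ) ≤ x := by
    have : 1 ≤ x := by omega
    exact_mod_cast this
  have hL : 0 < Real.log x := by linarith
  have hφ : (1 : ℝ) ≤ Nat.totient q := by exact_mod_cast Nat.totient_pos.2 hq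
  rw [Real.rpow_one] at g5
  rcases le_or_gt (y ^ 2) x with hyx | hyx
  · have hyr : (y : ℝ) ≤ (x : ℝ) ^ (1 / 2 : ℝ) := by
      rw [← Real.sqrt_eq_rpow]
      apply Real.le_sqrt_of_sq_le
      exact_mod_cast hyx
    have a1 := lamAP_le y q c
    have a2 := lamAP_nonneg y q c
    have a3 : (y : ℝ) / Nat.totient q ≤ y := div_le_self (Nat.cast_nonneg _) hφ
    have a4 : 0 ≤ (y : ℝ) / Nat.totient q := by positivity
    have a5 : |lamAP y q c - y / (Nat.totient q : ℝ)| ≤ 6 * (x : ℝ) ^ (1 / 2 : ℝ) := by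
      rw [abs_le]
      constructor <;> linarith
    refine a5.trans ?_
    rw [le_div_iff₀ (by positivity)]
    calc 6 * (x : ℝ) ^ (1 / 2 : ℝ) * Real.log x ^ U = (6 * Real.log x ^ U) * (x : ℝ) ^ (1 / 2 : ℝ) := by ring
      _ ≤ (x : ℝ) ^ (1 / 2 : ℝ) * (x : ℝ) ^ (1 / 2 : ℝ) := by gcongr
      _ = x := by rw [← Real.rpow_add (by linarith)]; norm_num
  · have hy0 : max y0 N1 ≤ y := by
      by_contra hcon
      push Not at hcon
      have := Nat.pow_le_pow_left hcon.le 2
      omega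
    have hyp : 1 ≤ y := by
      rcases Nat.eq_zero_or_pos y with h | h
      · rw [h] at hyx; simp at hyx
      · exact h
    have hy1 : (1 : ℝ) ≤ y := by exact_mod_cast hyp
    have hly : Real.log x ≤ 2 * Real.log y := by
      have : Real.log ((y : ℝ) ^ 2) = 2 * Real.log y := by rw [Real.log_pow]; norm_num
      rw [← this]
      apply Real.log_le_log (by linarith)
      exact_mod_cast hyx.le
    have hly0 : 0 < Real.log y := by linarith
    have hlyx : Real.log y ≤ Real.log x := Real.log_le_log (by linarith) (by exact_mod_cast hy)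
    have hq' : (q : ℝ) ≤ Real.log y ^ (K + 1) := by
      calc (q : ℝ) ≤ Real.log x ^ K := hqx
        _ ≤ (2 * Real.log y) ^ K := by gcongr
        _ = 2 ^ K * Real.log y ^ K := by ring
        _ ≤ Real.log y * Real.log y ^ K := by
            have : (2 : ℝ) ^ (K + 1) = 2 * 2 ^ K := by ring
            have : (2 : ℝ) ^ K ≤ Real.log y := by linarith
            gcongr
        _ = Real.log y ^ (K + 1) := by ring
    have b1 := h0 y ((le_max_left _ _).trans hy0) q hq hq' c hc
    have b2 := h1 y ((le_max_right _ _).trans hy0)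
    have b3 : (y : ℝ) / Real.log y ^ (U + 1) ≤ 2 ^ (U + 1) * (x / Real.log x ^ (U + 1)) := by
      rw [mul_div_assoc', div_le_div_iff₀ (by positivity) (by positivity)]
      have : Real.log x ^ (U + 1) ≤ (2 * Real.log y) ^ (U + 1) := by gcongr
      calc (y : ℝ) * Real.log x ^ (U + 1) ≤ x * (2 * Real.log y) ^ (U + 1) := by
            have : (y : ℝ) ≤ x := by exact_mod_cast hy
            gcongr
        _ = 2 ^ (U + 1) * x * Real.log y ^ (U + 1) := by ring
    have b4 : (2 : ℝ) ^ (U + 1) * (x / Real.log x ^ (U + 1)) ≤ 1 / 4 * (x / Real.log x ^ U) := by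
      rw [pow_succ (Real.log (x : ℝ)) U]
      have e : (x : ℝ) / (Real.log x ^ U * Real.log x) = (x / Real.log x ^ U) * (1 / Real.log x) := by
        field_simp
      rw [e]
      have h5 : (2 : ℝ) ^ (U + 1) * (1 / Real.log x) ≤ 1 / 4 := by
        rw [mul_one_div, div_le_iff₀ hL]
        have : (2 : ℝ) ^ (U + 3) = 4 * 2 ^ (U + 1) := by ring
        linarith
      calc (2 : ℝ) ^ (U + 1) * (x / Real.log x ^ U * (1 / Real.log x)) = (2 ^ (U + 1) * (1 / Real.log x)) * (x / Real.log x ^ U) := by ring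
        _ ≤ 1 / 4 * (x / Real.log x ^ U) := by gcongr
    have b5 : C * ((2 : ℝ) ^ (U + 1) * (x / Real.log x ^ (U + 1))) ≤ 1 / 4 * (x / Real.log x ^ U) := by
      rw [pow_succ (Real.log (x : ℝ)) U]
      have e : (x : ℝ) / (Real.log x ^ U * Real.log x) = (x / Real.log x ^ U) * (1 / Real.log x) := by
        field_simp
      rw [e]
      have h5 : C * (2 : ℝ) ^ (U + 1) * (1 / Real.log x) ≤ 1 / 4 := by
        rw [mul_one_div, div_le_iff₀ hL]
        have : C * (2 : ℝ) ^ (U + 3) = 4 * (C * 2 ^ (U + 1)) := by ring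
        linarith
      calc C * ((2 : ℝ) ^ (U + 1) * (x / Real.log x ^ U * (1 / Real.log x))) = (C * 2 ^ (U + 1) * (1 / Real.log x)) * (x / Real.log x ^ U) := by ring
        _ ≤ 1 / 4 * (x / Real.log x ^ U) := by gcongr
    have b6 : 2 ≤ 1 / 8 * ((x : ℝ) / Real.log x ^ U) := by
      rw [mul_div_assoc', le_div_iff₀ (by positivity)]
      linarith
    have b7 : |lam1 y / (Nat.totient q : ℝ) - y / (Nat.totient q : ℝ)| ≤ |lam1 y - y| := by
      rw [← sub_div, abs_div, abs_of_pos (by linarith : (0 : ℝ) < Nat.totient q)]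
      exact div_le_self (abs_nonneg _) hφ
    have b8 : |lamAP y q c - y / (Nat.totient q : ℝ)| ≤ |lamAP y q c - lam1 y / (Nat.totient q : ℝ)| +
        |lam1 y / (Nat.totient q : ℝ) - y / (Nat.totient q : ℝ)| := abs_sub_le _ _ _
    have b9 : C * (y / Real.log y ^ (U + 1)) ≤ C * ((2 : ℝ) ^ (U + 1) * (x / Real.log x ^ (U + 1))) := by gcongr
    have b10 : (0 : ℝ) ≤ x / Real.log x ^ U := by positivity
    linarith

end Pool.Agent.H11P
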